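import Mathlib
import Pool.Agent.R477.FC.Exp

/-!
# Polynomially bounded functions
-/

set_option autoImplicit false

namespace Pool.Agent.T44.FC

/-- polynomially bounded functions of an integer `s ≥ 1` -/
def PB (f : ℕ → ℕ) : Prop := ∃ C k : ℕ, ∀ s : ℕ, 1 ≤ s → f s ≤ C * s ^ k

theorem PB.const (c : ℕ) : PB fun _ => c := ⟨c, 0, fun s _ => by simp⟩

theorem PB.id : PB fun s => s := ⟨1, 1, fun s _ => by simp⟩

theorem PB.add {f g : ℕ → ℕ} (hf : PB f) (hg : PB g) : PB fun s => f s + g s := by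
  obtain ⟨C, k, h⟩ := hf
  obtain ⟨C', k', h'⟩ := hg
  refine ⟨C + C', k + k', fun s hs => ?_⟩
  rw [add_mul]
  refine Nat.add_le_add ((h s hs).trans ?_) ((h' s hs).trans ?_)
  · exact Nat.mul_le_mul_left _ (Nat.pow_le_pow_right hs (by omega))
  · exact Nat.mul_le_mul_left _ (Nat.pow_le_pow_right hs (by omega))

theorem PB.mul {f g : ℕ → ℕ} (hf : PB f) (hg : PB g) : PB fun s => f s * g s := by
  obtain ⟨C, k, h⟩ := hf
  obtain ⟨C', k', h'⟩ := hg
  refine ⟨C * C', k + k', fun s hs => ?_⟩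
  calc f s * g s ≤ (C * s ^ k) * (C' * s ^ k') := Nat.mul_le_mul (h s hs) (h' s hs)
    _ = _ := by ring

theorem PB.pow {f : ℕ → ℕ} (hf : PB f) (n : ℕ) : PB fun s => f s ^ n := by
  induction n with
  | zero => simpa using PB.const 1
  | succ n ih =>
    have := ih.mul hf
    simpa [pow_succ] using this

/-- a polynomially bounded function is at most `s ^ K` for large `s` -/
theorem PB.le_pow {f : ℕ → ℕ} (hf : PB f) : ∃ K s₀ : ℕ, 1 ≤ K ∧ 2 ≤ s₀ ∧ ∀ s, s₀ ≤ s → f s ≤ s ^ K := by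
  obtain ⟨C, k, h⟩ := hf
  refine ⟨k + 1, C + 2, by omega, by omega, fun s hs => (h s (by omega)).trans ?_⟩
  rw [pow_succ, mul_comm]
  exact Nat.mul_le_mul_left _ (by omega)

theorem log_pow_le (K : ℕ) : ∃ n₀ : ℕ, ∀ n : ℕ, n₀ ≤ n → (2 * (Nat.log 2 n + 1)) ^ K ≤ n := by
  obtain ⟨S₀, hS₀⟩ := Pool.Agent.R477.FC.polylog_lt 4 1 K
  refine ⟨2 ^ (S₀ + 1), fun n hn => ?_⟩
  have hn0 : n ≠ 0 := by
    have := Nat.pow_pos (n := S₀ + 1) (show 0 < 2 by norm_num)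
    omega
  have h1 : S₀ + 1 ≤ Nat.log 2 n := by
    have := Nat.log_mono_right (b := 2) hn
    rwa [Nat.log_pow (by norm_num)] at this
  have h2 := hS₀ (Nat.log 2 n) (by omega)
  rw [pow_one] at h2
  have h3 : 2 ^ Nat.log 2 n ≤ n := Nat.pow_log_le_self 2 hn0
  calc (2 * (Nat.log 2 n + 1)) ^ K ≤ (4 * Nat.log 2 n) ^ K := Nat.pow_le_pow_left (by omega) _
    _ ≤ n := by omega

end Pool.Agent.T44.FC
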