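import Mathlib
import Pool.Agent.TH888.W2.SBak

/-!
# Linear forms in five `ℓ`-adic logarithms, in the form which is needed
-/

set_option autoImplicit false

namespace Pool.Agent.T44.FC

open Finset

theorem bk5 : ∃ C κ : ℕ, ∀ ℓ S : ℕ, ℓ.Prime → ℓ ≤ S → ∀ (a m n : Fin 5 → ℕ) (T : ℕ),
    (∀ i, ¬ ℓ ∣ a i) → (∀ i, a i ≤ 2 ^ S) → (∀ i, 2 * m i ≤ 2 ^ S) → (∀ i, 2 * n i ≤ 2 ^ S) →
    ((ℓ : ℤ) ^ T ∣ ((∏ i, a i ^ m i : ℕ) : ℤ) ^ 2 - ((∏ i, a i ^ n i : ℕ) : ℤ) ^ 2) →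
    ∏ i, a i ^ m i ≠ ∏ i, a i ^ n i → T ≤ C * S ^ κ := by
  obtain ⟨C, κ, h⟩ := Pool.Agent.TH888.W2.baker_fin (Fin 5)
  refine ⟨C, κ, fun ℓ S hℓ hℓS a m n T hℓa ha hm hn hdvd hne => ?_⟩
  have : Fact ℓ.Prime := ⟨hℓ⟩
  have hco : ∀ k : ℕ, ¬ ℓ ∣ k → Nat.Coprime k (ℓ ^ T) := fun k hk =>
    (((Nat.Prime.coprime_iff_not_dvd hℓ).mpr hk).symm).pow_right T
  have ha0 : ∀ i, 0 < a i := fun i => Nat.pos_of_ne_zero (fun h0 => hℓa i (by rw [h0]; exact dvd_zero _))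
  refine h ℓ S hℓS a (fun i => 2 * (m i : ℤ) - 2 * (n i : ℤ)) T
    (fun i => ZMod.unitOfCoprime (a i) (hco _ (hℓa i))) (fun i => ZMod.coe_unitOfCoprime _ _) ha0 ha ?_ ?_ ?_
  · intro i
    have h1 : (2 * (m i : ℤ)) ≤ 2 ^ S := by exact_mod_cast hm i
    have h2 : (2 * (n i : ℤ)) ≤ 2 ^ S := by exact_mod_cast hn i
    rw [abs_le]
    constructor <;> omega
  · intro h0
    apply hne
    have h1 : (∏ i, (a i : ℚ) ^ (2 * m i)) = ∏ i, (a i : ℚ) ^ (2 * n i) := by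
      have h2 : ∀ i, (a i : ℚ) ^ (2 * (m i : ℤ) - 2 * (n i : ℤ)) =
          (a i : ℚ) ^ (2 * m i) / (a i : ℚ) ^ (2 * n i) := by
        intro i
        have h3 : (a i : ℚ) ≠ 0 := by exact_mod_cast (ha0 i).ne'
        rw [zpow_sub₀ h3]
        congr 1
      rw [Finset.prod_congr rfl (fun i _ => h2 i), Finset.prod_div_distrib] at h0
      have h4 : (∏ i, (a i : ℚ) ^ (2 * n i)) ≠ 0 :=
        Finset.prod_ne_zero_iff.2 fun i _ => pow_ne_zero _ (by exact_mod_cast (ha0 i).ne')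
      exact (div_eq_one_iff_eq h4).1 h0
    have h5 : ((∏ i, a i ^ m i : ℕ) : ℚ) ^ 2 = ((∏ i, a i ^ n i : ℕ) : ℚ) ^ 2 := by
      push_cast
      rw [← Finset.prod_pow, ← Finset.prod_pow]
      simp only [← pow_mul, mul_comm _ 2]
      exact h1
    have h6 : (∏ i, a i ^ m i) ^ 2 = (∏ i, a i ^ n i) ^ 2 := by exact_mod_cast h5
    exact Nat.pow_left_injective (n := 2) (by norm_num) h6
  · have h1 : ∏ i, (ZMod.unitOfCoprime (a i) (hco _ (hℓa i))) ^ (2 * m i) =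
        ∏ i, (ZMod.unitOfCoprime (a i) (hco _ (hℓa i))) ^ (2 * n i) := by
      apply Units.ext
      push_cast
      simp only [ZMod.coe_unitOfCoprime]
      have h2 : (((ℓ ^ T : ℕ) : ℤ)) ∣ ((∏ i, a i ^ m i : ℕ) : ℤ) ^ 2 - ((∏ i, a i ^ n i : ℕ) : ℤ) ^ 2 := by
        exact_mod_cast hdvd
      rw [← ZMod.intCast_zmod_eq_zero_iff_dvd] at h2
      push_cast at h2
      rw [sub_eq_zero] at h2
      simp only [pow_mul']
      rw [Finset.prod_pow, Finset.prod_pow]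
      exact h2
    have h3 : ∀ i, (ZMod.unitOfCoprime (a i) (hco _ (hℓa i))) ^ (2 * (m i : ℤ) - 2 * (n i : ℤ)) =
        (ZMod.unitOfCoprime (a i) (hco _ (hℓa i))) ^ (2 * m i) *
        ((ZMod.unitOfCoprime (a i) (hco _ (hℓa i))) ^ (2 * n i))⁻¹ := by
      intro i
      rw [zpow_sub]
      congr 1
    rw [Finset.prod_congr rfl (fun i _ => h3 i), Finset.prod_mul_distrib, h1,
      Finset.prod_inv_distrib, mul_inv_cancel]

end Pool.Agent.T44.FC
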