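import Mathlib
import Pool.Agent.R477.FC.Exp

/-!
# Integers and powers of a prime
-/

set_option autoImplicit false

namespace Pool.Agent.T44.FC

open Pool.Agent.R477.FC (Sg)

theorem dec {ℓ : ℕ} (hℓ : ℓ.Prime) {z : ℤ} (hz : z ≠ 0) :
    ∃ (v : ℕ) (z' : ℤ), z = (ℓ : ℤ) ^ v * z' ∧ ¬ (ℓ : ℤ) ∣ z' := by
  have hfin : FiniteMultiplicity (ℓ : ℤ) z :=
    Int.finiteMultiplicity_iff.2 ⟨by simpa using hℓ.one_lt.ne', hz⟩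
  obtain ⟨c, hc, hc'⟩ := hfin.exists_eq_pow_mul_and_not_dvd
  exact ⟨_, c, hc, hc'⟩

theorem val_le {ℓ : ℕ} (hℓ : ℓ.Prime) {z z' : ℤ} {v S : ℕ} (hz : z = (ℓ : ℤ) ^ v * z') (hz0 : z ≠ 0)
    (hS : z.natAbs ≤ 2 ^ S) : v ≤ S := by
  have h1 : z'.natAbs ≠ 0 := by
    intro h0
    rw [Int.natAbs_eq_zero] at h0
    exact hz0 (by rw [hz, h0, mul_zero])
  have h2 : ℓ ^ v ≤ 2 ^ S := by
    refine le_trans ?_ hS
    rw [hz, Int.natAbs_mul, Int.natAbs_pow, Int.natAbs_natCast]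
    exact Nat.le_mul_of_pos_right _ (Nat.pos_of_ne_zero h1)
  exact (Nat.pow_le_pow_iff_right (by norm_num)).1 ((Nat.pow_le_pow_left hℓ.two_le v).trans h2)

theorem natAbs_le_of_dec {ℓ : ℕ} (hℓ : ℓ.Prime) {z z' : ℤ} {v : ℕ} (hz : z = (ℓ : ℤ) ^ v * z') :
    z'.natAbs ≤ z.natAbs := by
  rw [hz, Int.natAbs_mul, Int.natAbs_pow, Int.natAbs_natCast]
  exact Nat.le_mul_of_pos_left _ (Nat.pow_pos hℓ.pos)

theorem Sg.natAbs {s : ℤ} (hs : Sg s) : s.natAbs = 1 := by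
  rcases hs with rfl | rfl <;> rfl

theorem not_dvd_sg {ℓ : ℕ} {s y : ℤ} (hs : Sg s) (hy : ¬ (ℓ : ℤ) ∣ y) : ¬ (ℓ : ℤ) ∣ s * y := by
  rcases hs with rfl | rfl
  · rwa [one_mul]
  · rwa [neg_one_mul, dvd_neg]

/-- comparison of the powers of `ℓ` -/
theorem matching {ℓ : ℕ} (hℓ : ℓ.Prime) {s y z : ℤ} {A B K : ℕ} (hs : Sg s)
    (hy : ¬ (ℓ : ℤ) ∣ y) (hz : ¬ (ℓ : ℤ) ∣ z) (hK : 1 ≤ K)
    (h : (ℓ : ℤ) ^ (A + K) ∣ s * ((ℓ : ℤ) ^ B * y) - (ℓ : ℤ) ^ A * z) :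
    A = B ∧ (ℓ : ℤ) ^ K ∣ s * y - z := by
  have hℓ0 : (ℓ : ℤ) ≠ 0 := by exact_mod_cast hℓ.ne_zero
  have hsy := not_dvd_sg (ℓ := ℓ) hs hy
  have hlt : ¬ A < B := by
    intro hAB
    obtain ⟨k, rfl⟩ := Nat.exists_eq_add_of_lt hAB
    have h1 : (ℓ : ℤ) ^ A * ℓ ∣ (ℓ : ℤ) ^ A * (ℓ * (s * ((ℓ : ℤ) ^ k * y)) - z) := by
      have h2 : (ℓ : ℤ) ^ A * ℓ ∣ (ℓ : ℤ) ^ (A + K) := by
        rw [← pow_succ]
        exact pow_dvd_pow _ (by omega)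
      refine h2.trans (h.trans (dvd_of_eq ?_))
      ring
    have h3 := (mul_dvd_mul_iff_left (pow_ne_zero A hℓ0)).1 h1
    exact hz ((dvd_sub_right (dvd_mul_right _ _)).1 h3)
  have hgt : ¬ B < A := by
    intro hAB
    obtain ⟨k, rfl⟩ := Nat.exists_eq_add_of_lt hAB
    have h1 : (ℓ : ℤ) ^ B * ℓ ∣ (ℓ : ℤ) ^ B * (s * y - ℓ * ((ℓ : ℤ) ^ k * z)) := by
      have h2 : (ℓ : ℤ) ^ B * ℓ ∣ (ℓ : ℤ) ^ (B + k + 1 + K) := by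
        rw [← pow_succ]
        exact pow_dvd_pow _ (by omega)
      refine h2.trans (h.trans (dvd_of_eq ?_))
      ring
    have h3 := (mul_dvd_mul_iff_left (pow_ne_zero B hℓ0)).1 h1
    exact hsy ((dvd_sub_left (dvd_mul_right _ _)).1 h3)
  have hAB : A = B := by omega
  subst hAB
  refine ⟨rfl, ?_⟩
  have h1 : (ℓ : ℤ) ^ A * (ℓ : ℤ) ^ K ∣ (ℓ : ℤ) ^ A * (s * y - z) := by
    rw [← pow_add]
    refine h.trans (dvd_of_eq ?_)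
    ring
  exact (mul_dvd_mul_iff_left (pow_ne_zero A hℓ0)).1 h1

theorem sq_not_dvd_two {ℓ : ℕ} (hℓ : ℓ.Prime) : ¬ ((ℓ : ℤ) ^ 2 ∣ 2) := by
  intro h
  have h1 : ℓ ^ 2 ∣ 2 := by exact_mod_cast h
  have h2 := Nat.le_of_dvd (by norm_num) h1
  have h3 := hℓ.two_le
  nlinarith

/-- equal absolute values and a congruence give equality -/
theorem eq_of_natAbs {ℓ : ℕ} (hℓ : ℓ.Prime) {y z : ℤ} {K : ℕ} (hK : 2 ≤ K) (hz : ¬ (ℓ : ℤ) ∣ z)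
    (h : (ℓ : ℤ) ^ K ∣ y - z) (habs : y.natAbs = z.natAbs) : y = z := by
  rcases Int.natAbs_eq_natAbs_iff.1 habs with h1 | h1
  · exact h1
  · exfalso
    rw [h1, show -z - z = -(z * 2) by ring, dvd_neg] at h
    have h2 : (ℓ : ℤ) ^ 2 ∣ z * 2 := (pow_dvd_pow _ hK).trans h
    have h3 : IsCoprime ((ℓ : ℤ) ^ 2) z := by
      apply IsCoprime.pow_left
      exact ((Nat.prime_iff_prime_int.1 hℓ).irreducible.coprime_iff_not_dvd).2 hz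
    exact sq_not_dvd_two hℓ (h3.dvd_of_dvd_mul_left h2)

/-- a congruence for a value of a polynomial -/
theorem eval_sub_dvd (P : Polynomial ℤ) (w : ℤ) : w ∣ P.eval w - P.coeff 0 := by
  have h1 := P.sub_dvd_eval_sub w 0
  rwa [sub_zero, ← Polynomial.coeff_zero_eq_eval_zero] at h1

theorem not_dvd_of_eval {ℓ : ℕ} {P : Polynomial ℤ} {w : ℤ} (hw : (ℓ : ℤ) ∣ w)
    (h : ¬ (ℓ : ℤ) ∣ P.eval w) : ¬ (ℓ : ℤ) ∣ P.coeff 0 := by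
  intro h0
  apply h
  have h1 := (hw.trans (eval_sub_dvd P w)).add h0
  rwa [sub_add_cancel] at h1

end Pool.Agent.T44.FC
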