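import Mathlib
import Pool.Agent.N741.FD.Wr

/-!
# Equations between products of powers of polynomials which hold to a high order at `0`
-/

set_option autoImplicit false

namespace Pool.Agent.T44.FC

open Polynomial

/-- `X` is prime to a polynomial with nonzero constant term -/
theorem cop_X {f : ℚ[X]} (hf : f.coeff 0 ≠ 0) (s : ℕ) : IsCoprime (X ^ s : ℚ[X]) f := by
  apply IsCoprime.pow_left
  refine (Polynomial.irreducible_X.coprime_iff_not_dvd).2 ?_
  rw [X_dvd_iff]
  exact hf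

/-- an equation `f ^ a u = g ^ b v` which holds to a high order at `0` is an identity -/
theorem exact {f g u v : ℚ[X]} {a b s : ℕ} (ha : 1 ≤ a) (hb : 1 ≤ b) (hf : f.coeff 0 ≠ 0)
    (hg : g.coeff 0 ≠ 0) (hu : u ≠ 0) (hv : v ≠ 0)
    (hs : f.natDegree + g.natDegree + u.natDegree + v.natDegree + 2 ≤ s)
    (h : X ^ s ∣ f ^ a * u - g ^ b * v) : f ^ a * u = g ^ b * v := by
  obtain ⟨a, rfl⟩ : ∃ a', a = a' + 1 := ⟨a - 1, by omega⟩
  obtain ⟨b, rfl⟩ : ∃ b', b = b' + 1 := ⟨b - 1, by omega⟩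
  obtain ⟨s, rfl⟩ : ∃ s', s = s' + 1 := ⟨s - 1, by omega⟩
  have hf0 : f ≠ 0 := by rintro rfl; simp at hf
  have hg0 : g ≠ 0 := by rintro rfl; simp at hg
  obtain ⟨P₁, hP₁⟩ : ∃ P, P = f ^ (a + 1) * u := ⟨_, rfl⟩
  obtain ⟨P₂, hP₂⟩ : ∃ P, P = g ^ (b + 1) * v := ⟨_, rfl⟩
  rw [← hP₁, ← hP₂] at h ⊢
  have hP10 : P₁ ≠ 0 := by rw [hP₁]; exact mul_ne_zero (pow_ne_zero _ hf0) hu
  have hP20 : P₂ ≠ 0 := by rw [hP₂]; exact mul_ne_zero (pow_ne_zero _ hg0) hv
  have hd : X ^ s ∣ derivative (P₁ - P₂) := by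
    have := pow_sub_one_dvd_derivative_of_pow_dvd h
    rwa [Nat.add_sub_cancel] at this
  have hdd : X ^ s ∣ P₁ - P₂ := (pow_dvd_pow _ (Nat.le_succ s)).trans h
  obtain ⟨Z, hZ⟩ : ∃ Z : ℚ[X], Z = f * u * (C ((b : ℚ) + 1) * derivative g * v + g * derivative v) -
      (C ((a : ℚ) + 1) * derivative f * u + f * derivative u) * (g * v) := ⟨_, rfl⟩
  have hW : P₁ * derivative P₂ - derivative P₁ * P₂ = f ^ a * (g ^ b * Z) := by
    rw [hP₁, hP₂, hZ, derivative_mul, derivative_mul, derivative_pow, derivative_pow]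
    simp only [Nat.add_sub_cancel]
    push_cast
    simp only [map_add, map_one]
    ring
  have hWd : X ^ s ∣ f ^ a * (g ^ b * Z) := by
    rw [← hW, show P₁ * derivative P₂ - derivative P₁ * P₂ =
      (P₁ - P₂) * derivative P₂ - derivative (P₁ - P₂) * P₂ by rw [derivative_sub]; ring]
    exact dvd_sub (hdd.mul_right _) (hd.mul_right _)
  have hZd : X ^ s ∣ Z := by
    have h1 := ((cop_X hf s).pow_right (n := a)).dvd_of_dvd_mul_left hWd
    exact ((cop_X hg s).pow_right (n := b)).dvd_of_dvd_mul_left h1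
  have hdZ : Z.natDegree ≤ f.natDegree + g.natDegree + u.natDegree + v.natDegree := by
    have hdf := natDegree_derivative_le f
    have hdg := natDegree_derivative_le g
    have hdu := natDegree_derivative_le u
    have hdv := natDegree_derivative_le v
    rw [hZ]
    refine (natDegree_sub_le _ _).trans (max_le ?_ ?_)
    · refine natDegree_mul_le.trans ?_
      have h1 := natDegree_mul_le (p := f) (q := u)
      have h2 : (C ((b : ℚ) + 1) * derivative g * v + g * derivative v).natDegree ≤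
          g.natDegree + v.natDegree := by
        refine (natDegree_add_le _ _).trans (max_le ?_ ?_)
        · refine natDegree_mul_le.trans ?_
          have := natDegree_C_mul_le ((b : ℚ) + 1) (derivative g)
          omega
        · refine natDegree_mul_le.trans ?_
          omega
      omega
    · refine natDegree_mul_le.trans ?_
      have h1 := natDegree_mul_le (p := g) (q := v)
      have h2 : (C ((a : ℚ) + 1) * derivative f * u + f * derivative u).natDegree ≤
          f.natDegree + u.natDegree := by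
        refine (natDegree_add_le _ _).trans (max_le ?_ ?_)
        · refine natDegree_mul_le.trans ?_
          have := natDegree_C_mul_le ((a : ℚ) + 1) (derivative f)
          omega
        · refine natDegree_mul_le.trans ?_
          omega
      omega
  have hZ0 : Z = 0 := by
    by_contra hne
    have h1 := natDegree_le_of_dvd hZd hne
    rw [natDegree_X_pow] at h1
    omega
  have hW0 : P₁ * derivative P₂ = derivative P₁ * P₂ := by
    have h1 := hW
    rw [hZ0, mul_zero, mul_zero] at h1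
    exact sub_eq_zero.1 h1
  obtain ⟨u₀, v₀, hu₀, hv₀, hpr⟩ := Pool.Agent.N741.FD.proportional hP10 hP20 hW0
  by_cases huv : u₀ = v₀
  · rw [huv] at hpr
    exact mul_left_cancel₀ (C_ne_zero.2 hv₀) hpr
  · exfalso
    have h1 : X ^ (s + 1) ∣ C (u₀ - v₀) * P₂ := by
      have : C (u₀ - v₀) * P₂ = C v₀ * (P₁ - P₂) := by
        rw [map_sub]
        linear_combination -hpr
      rw [this]
      exact h.mul_left _
    have h2 : X ^ (s + 1) ∣ P₂ := by
      have hu : IsUnit (C (u₀ - v₀) : ℚ[X]) :=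
        isUnit_C.mpr (isUnit_iff_ne_zero.mpr (sub_ne_zero.2 huv))
      exact (hu.dvd_mul_left).mp h1
    rw [hP₂] at h2
    have h3 := ((cop_X hg (s + 1)).pow_right (n := b + 1)).dvd_of_dvd_mul_left h2
    have h4 := natDegree_le_of_dvd h3 hv
    rw [natDegree_X_pow] at h4
    omega

/-- the order of vanishing of `α G ^ q - β H ^ r` at `0` -/
theorem order {G H : ℚ[X]} (hco : IsCoprime G H) (hG : G.coeff 0 ≠ 0) (hH : H.coeff 0 ≠ 0)
    {q r s : ℕ} (hq : 1 ≤ q) (hr : 1 ≤ r) {α β : ℚ} (hα : α ≠ 0) (hβ : β ≠ 0)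
    (hs : G.natDegree + H.natDegree + 2 ≤ s) (h : X ^ s ∣ C α * G ^ q - C β * H ^ r) :
    G.natDegree = 0 ∧ H.natDegree = 0 := by
  have h1 : G ^ q * C α = H ^ r * C β := by
    refine exact (s := s) hq hr hG hH (C_ne_zero.2 hα) (C_ne_zero.2 hβ) ?_ ?_
    · rw [natDegree_C, natDegree_C]
      omega
    · rw [mul_comm _ (C α), mul_comm _ (C β)]
      exact h
  have hGH : G ^ q ∣ H ^ r := by
    have hu : IsUnit (C β : ℚ[X]) := isUnit_C.mpr (isUnit_iff_ne_zero.mpr hβ)
    exact (hu.dvd_mul_right).mp ⟨_, h1.symm⟩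
  have hHG : H ^ r ∣ G ^ q := by
    have hu : IsUnit (C α : ℚ[X]) := isUnit_C.mpr (isUnit_iff_ne_zero.mpr hα)
    exact (hu.dvd_mul_right).mp ⟨_, h1⟩
  have hc : IsCoprime (G ^ q) (H ^ r) := hco.pow
  have hu1 : IsUnit (G ^ q) := hc.isUnit_of_dvd' dvd_rfl hGH
  have hu2 : IsUnit (H ^ r) := hc.isUnit_of_dvd' hHG dvd_rfl
  have hu1' : IsUnit G := (isUnit_pow_iff (by omega)).1 hu1
  have hu2' : IsUnit H := (isUnit_pow_iff (by omega)).1 hu2
  exact ⟨natDegree_eq_zero_of_isUnit hu1', natDegree_eq_zero_of_isUnit hu2'⟩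

/-- the theorem of Mason and Stothers for `α G ^ q - β H ^ r = γ X ^ t F ^ p` -/
theorem mason {G H F : ℚ[X]} (hGH : IsCoprime G H) (hG : G ≠ 0) (hH : H ≠ 0) (hF : F ≠ 0)
    {p q r t : ℕ} (hq : 1 ≤ q) (hr : 1 ≤ r) (ht : 1 ≤ t)
    (hle : q * r + r * p + p * q ≤ p * q * r) {α β γ : ℚ} (hα : α ≠ 0) (hβ : β ≠ 0) (hγ : γ ≠ 0)
    (h : C α * G ^ q - C β * H ^ r = C γ * X ^ t * F ^ p) : False := by
  classical
  have hA : C α * G ^ q ≠ 0 := mul_ne_zero (C_ne_zero.2 hα) (pow_ne_zero _ hG)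
  have hB : C (-β) * H ^ r ≠ 0 := mul_ne_zero (C_ne_zero.2 (neg_ne_zero.2 hβ)) (pow_ne_zero _ hH)
  have hC : C (-γ) * (X ^ t * F ^ p) ≠ 0 := mul_ne_zero (C_ne_zero.2 (neg_ne_zero.2 hγ))
    (mul_ne_zero (pow_ne_zero _ X_ne_zero) (pow_ne_zero _ hF))
  have hab : IsCoprime (C α * G ^ q) (C (-β) * H ^ r) := by
    rw [isCoprime_mul_units_left (isUnit_C.mpr (isUnit_iff_ne_zero.mpr hα))
      (isUnit_C.mpr (isUnit_iff_ne_zero.mpr (neg_ne_zero.2 hβ)))]
    exact hGH.pow
  have hsum : C α * G ^ q + C (-β) * H ^ r + C (-γ) * (X ^ t * F ^ p) = 0 := by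
    rw [map_neg, map_neg]
    linear_combination h
  have hdeg : natDegree (UniqueFactorizationMonoid.radical
      (C α * G ^ q * (C (-β) * H ^ r) * (C (-γ) * (X ^ t * F ^ p)))) ≤
      G.natDegree + H.natDegree + F.natDegree + 1 := by
    have e1 : C α * G ^ q * (C (-β) * H ^ r) * (C (-γ) * (X ^ t * F ^ p)) =
        C (α * -β * -γ) * ((G ^ q * H ^ r) * (X ^ t * F ^ p)) := by
      rw [map_mul, map_mul]
      ring
    have hu : IsUnit (C (α * -β * -γ) : ℚ[X]) := isUnit_C.mpr (isUnit_iff_ne_zero.mpr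
      (mul_ne_zero (mul_ne_zero hα (neg_ne_zero.2 hβ)) (neg_ne_zero.2 hγ)))
    rw [e1, UniqueFactorizationMonoid.radical_mul_of_isUnit_left hu]
    have h1 : UniqueFactorizationMonoid.radical ((G ^ q * H ^ r) * (X ^ t * F ^ p)) ∣
        (G * H) * (X * F) := by
      have k : ∀ (a : ℚ[X]) (n : ℕ), UniqueFactorizationMonoid.radical (a ^ n) ∣ a := fun a n =>
        UniqueFactorizationMonoid.radical_pow_dvd.trans UniqueFactorizationMonoid.radical_dvd_self
      refine UniqueFactorizationMonoid.radical_mul_dvd.trans (mul_dvd_mul ?_ ?_)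
      · exact UniqueFactorizationMonoid.radical_mul_dvd.trans (mul_dvd_mul (k _ _) (k _ _))
      · exact UniqueFactorizationMonoid.radical_mul_dvd.trans (mul_dvd_mul (k _ _) (k _ _))
    have hne : (G * H) * (X * F) ≠ 0 := mul_ne_zero (mul_ne_zero hG hH) (mul_ne_zero X_ne_zero hF)
    refine (natDegree_le_of_dvd h1 hne).trans ?_
    refine natDegree_mul_le.trans ?_
    have h2 := natDegree_mul_le (p := G) (q := H)
    have h3 := natDegree_mul_le (p := (X : ℚ[X])) (q := F)
    rw [natDegree_X] at h3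
    omega
  have d1 : natDegree (C α * G ^ q) = q * G.natDegree := by
    rw [natDegree_C_mul hα, natDegree_pow]
  have d2 : natDegree (C (-β) * H ^ r) = r * H.natDegree := by
    rw [natDegree_C_mul (neg_ne_zero.2 hβ), natDegree_pow]
  have d3 : natDegree (C (-γ) * (X ^ t * F ^ p)) = t + p * F.natDegree := by
    rw [natDegree_C_mul (neg_ne_zero.2 hγ), natDegree_mul (pow_ne_zero _ X_ne_zero)
      (pow_ne_zero _ hF), natDegree_X_pow, natDegree_pow]
  rcases Polynomial.abc hA hB hC hab hsum with ⟨h1, h2, h3⟩ | ⟨-, -, h3⟩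
  · rw [d1] at h1
    rw [d2] at h2
    rw [d3] at h3
    have k1 := h1.trans hdeg
    have k2 := h2.trans hdeg
    have k3 := h3.trans hdeg
    obtain ⟨a, ha⟩ : ∃ a, a = F.natDegree := ⟨_, rfl⟩
    obtain ⟨b, hb⟩ : ∃ b, b = G.natDegree := ⟨_, rfl⟩
    obtain ⟨c, hc⟩ : ∃ c, c = H.natDegree := ⟨_, rfl⟩
    rw [← ha, ← hb, ← hc] at k1 k2 k3
    have m1 : q * b ≤ a + b + c := by omega
    have m2 : r * c ≤ a + b + c := by omega
    have m3 : p * a + 1 ≤ a + b + c := by omega
    have n1 : (q * b) * (p * r) ≤ (a + b + c) * (p * r) := Nat.mul_le_mul_right _ m1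
    have n2 : (r * c) * (p * q) ≤ (a + b + c) * (p * q) := Nat.mul_le_mul_right _ m2
    have n3 : (p * a + 1) * (q * r) ≤ (a + b + c) * (q * r) := Nat.mul_le_mul_right _ m3
    have n4 : (a + b + c) * (q * r + r * p + p * q) ≤ (a + b + c) * (p * q * r) :=
      Nat.mul_le_mul_left _ hle
    have n5 : 1 ≤ q * r := Nat.mul_pos hq hr
    nlinarith
  · have h4 := derivative_eq_zero.mp h3
    rw [d3] at h4
    omega

/-- an equation `α G ^ q - β H ^ r = γ X ^ t F ^ p` which holds to a high order is impossible -/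
theorem main_alg {G H F : ℚ[X]} (hGH : IsCoprime G H) (hG : G.coeff 0 ≠ 0) (hH : H.coeff 0 ≠ 0)
    (hF : F.coeff 0 ≠ 0) {p q r t s D : ℕ} (hp : 1 ≤ p) (hq : 2 ≤ q) (hr : 2 ≤ r) (ht : 1 ≤ t)
    (hle : q * r + r * p + p * q ≤ p * q * r) {α β γ : ℚ} (hα : α ≠ 0) (hβ : β ≠ 0) (hγ : γ ≠ 0)
    (hGD : G.natDegree ≤ D) (hHD : H.natDegree ≤ D) (hFD : F.natDegree ≤ D)
    (hts : t + 1 ≤ s) (hs : 6 * D + 4 ≤ s)
    (h : X ^ s ∣ C α * G ^ q - C β * H ^ r - C γ * X ^ t * F ^ p) : False := by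
  have hG0 : G ≠ 0 := by rintro rfl; simp at hG
  have hH0 : H ≠ 0 := by rintro rfl; simp at hH
  have hF0 : F ≠ 0 := by rintro rfl; simp at hF
  obtain ⟨q, rfl⟩ : ∃ q', q = q' + 1 := ⟨q - 1, by omega⟩
  obtain ⟨r, rfl⟩ : ∃ r', r = r' + 1 := ⟨r - 1, by omega⟩
  obtain ⟨p, rfl⟩ : ∃ p', p = p' + 1 := ⟨p - 1, by omega⟩
  obtain ⟨t, rfl⟩ : ∃ t', t = t' + 1 := ⟨t - 1, by omega⟩
  obtain ⟨s, rfl⟩ : ∃ s', s = s' + 1 := ⟨s - 1, by omega⟩
  obtain ⟨R, hR⟩ : ∃ R : ℚ[X], R = C α * G ^ (q + 1) - C β * H ^ (r + 1) := ⟨_, rfl⟩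
  obtain ⟨E, hE⟩ : ∃ E : ℚ[X], E = C γ * X ^ (t + 1) * F ^ (p + 1) := ⟨_, rfl⟩
  obtain ⟨K, hK⟩ : ∃ K : ℚ[X], K = X * F := ⟨_, rfl⟩
  obtain ⟨θ, hθ⟩ : ∃ θ : ℚ[X], θ = C ((t : ℚ) + 1) * F + C ((p : ℚ) + 1) * (X * derivative F) :=
    ⟨_, rfl⟩
  rw [← hR, ← hE] at h
  have hKE : K * derivative E = θ * E := by
    rw [hE, hK, hθ]
    simp only [derivative_mul, derivative_pow, derivative_X, derivative_C, Nat.add_sub_cancel]
    push_cast
    simp only [map_add, map_one, map_natCast]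
    ring
  have hEn : ¬ X ^ (s + 1) ∣ E := by
    intro h0
    have h1 : X ^ (t + 2) ∣ E := (pow_dvd_pow _ (by omega)).trans h0
    rw [hE, show C γ * X ^ (t + 1) * F ^ (p + 1) = X ^ (t + 1) * (C γ * F ^ (p + 1)) by ring,
      show t + 2 = (t + 1) + 1 by ring, pow_succ] at h1
    have h2 : (X : ℚ[X]) ∣ C γ * F ^ (p + 1) :=
      (mul_dvd_mul_iff_left (pow_ne_zero (t + 1) X_ne_zero)).1 h1
    rw [X_dvd_iff, mul_coeff_zero, coeff_C_zero, coeff_zero_eq_eval_zero, eval_pow,
      ← coeff_zero_eq_eval_zero] at h2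
    exact mul_ne_zero hγ (pow_ne_zero _ hF) h2
  have hd : X ^ s ∣ derivative (R - E) := by
    have := pow_sub_one_dvd_derivative_of_pow_dvd h
    rwa [Nat.add_sub_cancel] at this
  have hmul : X ^ (s + 1) ∣ K * derivative R - θ * R := by
    have e1 : K * derivative R - θ * R = X * derivative (R - E) * F - θ * (R - E) := by
      rw [derivative_sub]
      have := hKE
      rw [hK] at this ⊢
      linear_combination this
    rw [e1]
    refine dvd_sub ?_ (h.mul_left _)
    rw [pow_succ, mul_comm (X ^ s) X]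
    exact (mul_dvd_mul_left X hd).mul_right _
  obtain ⟨U, hU⟩ : ∃ U : ℚ[X], U = C α * (C ((q : ℚ) + 1) * (K * derivative G) - θ * G) := ⟨_, rfl⟩
  obtain ⟨V, hV⟩ : ∃ V : ℚ[X], V = C β * (C ((r : ℚ) + 1) * (K * derivative H) - θ * H) := ⟨_, rfl⟩
  have hUV : K * derivative R - θ * R = G ^ q * U - H ^ r * V := by
    rw [hR, hU, hV, derivative_sub, derivative_mul, derivative_mul, derivative_pow, derivative_pow,
      derivative_C, derivative_C]
    simp only [Nat.add_sub_cancel]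
    push_cast
    simp only [map_add, map_one, map_natCast]
    ring
  have hKd : K.natDegree ≤ D + 1 := by
    rw [hK]
    refine natDegree_mul_le.trans ?_
    rw [natDegree_X]
    omega
  have hθd : θ.natDegree ≤ D + 1 := by
    have hdF := natDegree_derivative_le F
    rw [hθ]
    refine (natDegree_add_le _ _).trans (max_le ?_ ?_)
    · exact (natDegree_C_mul_le _ _).trans (by omega)
    · refine (natDegree_C_mul_le _ _).trans (natDegree_mul_le.trans ?_)
      rw [natDegree_X]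
      omega
  have key : ∀ (c k : ℚ) (P : ℚ[X]), P.natDegree ≤ D →
      (C c * (C k * (K * derivative P) - θ * P)).natDegree ≤ 2 * D + 1 := by
    intro c k P hP
    have hdP := natDegree_derivative_le P
    refine (natDegree_C_mul_le _ _).trans ((natDegree_sub_le _ _).trans (max_le ?_ ?_))
    · exact (natDegree_C_mul_le _ _).trans (natDegree_mul_le.trans (by omega))
    · exact natDegree_mul_le.trans (by omega)
  have hUd : U.natDegree ≤ 2 * D + 1 := by rw [hU]; exact key _ _ _ hGD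
  have hVd : V.natDegree ≤ 2 * D + 1 := by rw [hV]; exact key _ _ _ hHD
  have heq : G ^ q * U = H ^ r * V := by
    rw [hUV] at hmul
    by_cases hU0 : U = 0
    · by_cases hV0 : V = 0
      · rw [hU0, hV0, mul_zero, mul_zero]
      · exfalso
        rw [hU0, mul_zero, zero_sub, dvd_neg] at hmul
        have h3 := ((cop_X hH (s + 1)).pow_right (n := r)).dvd_of_dvd_mul_left hmul
        have h4 := natDegree_le_of_dvd h3 hV0
        rw [natDegree_X_pow] at h4
        omega
    · by_cases hV0 : V = 0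
      · exfalso
        rw [hV0, mul_zero, sub_zero] at hmul
        have h3 := ((cop_X hG (s + 1)).pow_right (n := q)).dvd_of_dvd_mul_left hmul
        have h4 := natDegree_le_of_dvd h3 hU0
        rw [natDegree_X_pow] at h4
        omega
      · exact exact (s := s + 1) (by omega) (by omega) hG hH hU0 hV0 (by omega) hmul
  have hKR : K * derivative R = θ * R := by
    rw [heq, sub_self] at hUV
    exact sub_eq_zero.1 hUV
  have hR0 : R ≠ 0 := by
    intro h0
    rw [h0, zero_sub, dvd_neg] at h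
    exact hEn h
  have hE0 : E ≠ 0 := by
    rw [hE]
    exact mul_ne_zero (mul_ne_zero (C_ne_zero.2 hγ) (pow_ne_zero _ X_ne_zero)) (pow_ne_zero _ hF0)
  have hK0 : K ≠ 0 := by rw [hK]; exact mul_ne_zero X_ne_zero hF0
  have hwr : R * derivative E = derivative R * E := by
    apply mul_left_cancel₀ hK0
    linear_combination R * hKE - E * hKR
  obtain ⟨u₀, v₀, hu₀, hv₀, hpr⟩ := Pool.Agent.N741.FD.proportional hR0 hE0 hwr
  have hRE : R = E := by
    by_cases huv : u₀ = v₀
    · rw [huv] at hpr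
      exact mul_left_cancel₀ (C_ne_zero.2 hv₀) hpr
    · exfalso
      have h1 : X ^ (s + 1) ∣ C (u₀ - v₀) * E := by
        have : C (u₀ - v₀) * E = C v₀ * (R - E) := by
          rw [map_sub]
          linear_combination -hpr
        rw [this]
        exact h.mul_left _
      have hu : IsUnit (C (u₀ - v₀) : ℚ[X]) :=
        isUnit_C.mpr (isUnit_iff_ne_zero.mpr (sub_ne_zero.2 huv))
      exact hEn ((hu.dvd_mul_left).mp h1)
  rw [hR, hE] at hRE
  exact mason hGH hG0 hH0 hF0 (by omega) (by omega) ht hle hα hβ hγ hRE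

end Pool.Agent.T44.FC
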