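import Mathlib
import Pool.Agent.T44.FC.Alg
import Pool.Agent.N741.FD.Coef
import Pool.Agent.R477.FC.Fam

/-!
# Local analysis near zero
-/

set_option autoImplicit false

namespace Pool.Agent.T44.FC

open Polynomial
open Pool.Agent.R477.FC (toQ toQ_inj toQ_mul)

/-- scaling a polynomial such that its constant term becomes `1` -/
theorem exists_scale (G : ℤ[X]) {g μ lam : ℤ} (hlam : g * μ = lam) (hg : G.coeff 0 = g)
    {B Λ D : ℕ} (hB : ∀ j, (G.coeff j).natAbs ≤ B) (hB1 : 1 ≤ B) (hΛ : lam.natAbs ≤ Λ)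
    (hΛ1 : 1 ≤ Λ) (hμ : μ.natAbs ≤ Λ) (hD : G.natDegree ≤ D) :
    ∃ G' : ℤ[X], G'.coeff 0 = 1 ∧ (∀ j, (G'.coeff j).natAbs ≤ B * Λ ^ D) ∧ G'.natDegree ≤ D ∧
      C g * G' = G.comp (C lam * X) := by
  subst hlam
  refine ⟨1 + C μ * X * (divX G).comp (C (g * μ) * X), ?_, ?_, ?_, ?_⟩
  · rw [mul_assoc, coeff_add, coeff_one_zero, coeff_C_mul, coeff_X_mul_zero, mul_zero, add_zero]
  · intro j
    have h1 : 1 ≤ B * Λ ^ D := Nat.mul_pos hB1 (Nat.pow_pos hΛ1)
    rcases j with _ | j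
    · rw [mul_assoc, coeff_add, coeff_one_zero, coeff_C_mul, coeff_X_mul_zero, mul_zero, add_zero]
      simpa using h1
    · rw [mul_assoc, coeff_add, coeff_C_mul, coeff_X_mul, comp_C_mul_X_coeff, coeff_divX, coeff_one,
        if_neg (Nat.succ_ne_zero j), zero_add]
      rcases Nat.lt_or_ge D (j + 1) with h2 | h2
      · rw [coeff_eq_zero_of_natDegree_lt (lt_of_le_of_lt hD h2)]
        simp
      · rw [Int.natAbs_mul, Int.natAbs_mul, Int.natAbs_pow]
        calc μ.natAbs * ((G.coeff (j + 1)).natAbs * (g * μ).natAbs ^ j)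
            ≤ Λ * (B * Λ ^ j) := Nat.mul_le_mul hμ (Nat.mul_le_mul (hB _) (Nat.pow_le_pow_left hΛ _))
          _ = B * Λ ^ (j + 1) := by ring
          _ ≤ B * Λ ^ D := Nat.mul_le_mul_left _ (Nat.pow_le_pow_right hΛ1 h2)
  · rcases Nat.eq_zero_or_pos G.natDegree with h0 | h0
    · have h1 : divX G = 0 := by
        rw [eq_C_of_natDegree_eq_zero h0, divX_C]
      rw [h1, zero_comp, mul_zero, add_zero, natDegree_one]
      exact Nat.zero_le _
    · refine (natDegree_add_le _ _).trans (max_le (by rw [natDegree_one]; exact Nat.zero_le _) ?_)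
      refine natDegree_mul_le.trans ?_
      have h1 : (C μ * X : ℤ[X]).natDegree ≤ 1 := (natDegree_C_mul_le _ _).trans natDegree_X_le
      have h2 : ((divX G).comp (C (g * μ) * X)).natDegree ≤ G.natDegree - 1 := by
        refine natDegree_comp_le.trans ?_
        rw [natDegree_divX_eq_natDegree_tsub_one]
        have h3 : (C (g * μ) * X : ℤ[X]).natDegree ≤ 1 := (natDegree_C_mul_le _ _).trans natDegree_X_le
        calc (G.natDegree - 1) * (C (g * μ) * X : ℤ[X]).natDegree ≤ (G.natDegree - 1) * 1 :=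
              Nat.mul_le_mul_left _ h3
          _ = _ := mul_one _
      omega
  · conv_rhs => rw [← divX_mul_X_add G]
    rw [hg, add_comp, mul_comp, X_comp, C_comp, mul_add, mul_one, map_mul]
    ring

theorem norm_pow (ℓ : ℕ) [hℓ : Fact ℓ.Prime] (x : ℚ) (i : ℕ) :
    padicNorm ℓ (x ^ i) = padicNorm ℓ x ^ i := by
  induction i with
  | zero => simp
  | succ i ih => rw [pow_succ, pow_succ, padicNorm.mul, ih]

/-- the norm of a value of an integer polynomial -/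
theorem norm_aeval_le (ℓ : ℕ) [hℓ : Fact ℓ.Prime] {x : ℚ} (hx : padicNorm ℓ x ≤ 1) (P : ℤ[X]) :
    padicNorm ℓ (aeval x P) ≤ 1 := by
  rw [aeval_eq_sum_range]
  refine padicNorm.sum_le' (fun i _ => ?_) zero_le_one
  rw [zsmul_eq_mul, padicNorm.mul]
  have h1 : padicNorm ℓ ((P.coeff i : ℤ) : ℚ) ≤ 1 := padicNorm.of_int _
  have h2 : padicNorm ℓ (x ^ i) ≤ 1 := by
    rw [norm_pow]
    exact pow_le_one₀ (padicNorm.nonneg _) hx
  calc _ ≤ (1 : ℚ) * 1 := mul_le_mul h1 h2 (padicNorm.nonneg _) zero_le_one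
    _ = 1 := one_mul 1

/-- the value of an integer polynomial is near its constant term -/
theorem norm_aeval_sub_le (ℓ : ℕ) [hℓ : Fact ℓ.Prime] {x : ℚ} (hx : padicNorm ℓ x ≤ 1) (P : ℤ[X]) :
    padicNorm ℓ (aeval x P - P.coeff 0) ≤ padicNorm ℓ x := by
  have h1 : aeval x P - P.coeff 0 = aeval x (divX P) * x := by
    conv_lhs => rw [← divX_mul_X_add P]
    rw [map_add, map_mul, aeval_X, aeval_C, coeff_add, mul_coeff_zero, coeff_X_zero, mul_zero,
      zero_add, coeff_C_zero]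
    simp
  rw [h1, padicNorm.mul]
  calc _ ≤ 1 * padicNorm ℓ x := mul_le_mul_of_nonneg_right (norm_aeval_le ℓ hx _) (padicNorm.nonneg _)
    _ = _ := one_mul _

theorem norm_int_ge (ℓ : ℕ) [hℓ : Fact ℓ.Prime] {c : ℤ} {N : ℕ}
    (h : padicNorm ℓ (c : ℚ) ≤ 1 / (ℓ : ℚ) ^ N) (hc : c.natAbs < ℓ ^ N) : c = 0 := by
  have h1 : ((ℓ ^ N : ℕ) : ℤ) ∣ c := by
    rw [padicNorm.dvd_iff_norm_le]
    rw [zpow_neg, zpow_natCast, inv_eq_one_div]
    exact h
  exact Int.eq_zero_of_abs_lt_dvd (m := ((ℓ ^ N : ℕ) : ℤ)) h1 (by rw [Int.abs_eq_natAbs]; exact_mod_cast hc)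

/-- The local lemma, first part: an equation `G(x) ^ q - H(x) ^ r = κ F(x) ^ p` gives an approximation
of `κ` by a number `e x ^ t`. -/
theorem local_one (ℓ : ℕ) [hℓ : Fact ℓ.Prime] {x κ : ℚ} {N : ℕ} (hN : 1 ≤ N)
    (hx : padicNorm ℓ x ≤ 1 / (ℓ : ℚ) ^ N) {G H F : ℤ[X]} (hG : G.coeff 0 = 1) (hH : H.coeff 0 = 1)
    (hF : F.coeff 0 = 1) (hGH : IsCoprime (toQ G) (toQ H)) (hnc : 0 < G.natDegree ∨ 0 < H.natDegree)
    {p q r D B M : ℕ} (hq : 1 ≤ q) (hr : 1 ≤ r) (hqM : q ≤ M) (hrM : r ≤ M)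
    (hGD : G.natDegree ≤ D) (hHD : H.natDegree ≤ D) (hD : 1 ≤ D) (hB : 1 ≤ B)
    (hGB : ∀ j, (G.coeff j).natAbs ≤ B) (hHB : ∀ j, (H.coeff j).natAbs ≤ B)
    (heq : (aeval x G) ^ q - (aeval x H) ^ r = κ * (aeval x F) ^ p) :
    ∃ (t : ℕ) (e : ℤ), 1 ≤ t ∧ t ≤ 2 * D + 1 ∧ e ≠ 0 ∧ e.natAbs ≤ 2 * (M * D * B) ^ t ∧
      X ^ (t + 1) ∣ G ^ q - H ^ r - C e * X ^ t ∧
      padicNorm ℓ (κ - e * x ^ t) ≤ padicNorm ℓ x ^ t * (1 / (ℓ : ℚ) ^ N) := by
  have hℓ1 : (1 : ℚ) ≤ ℓ := by exact_mod_cast hℓ.out.one_lt.le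
  have hN1 : 1 / (ℓ : ℚ) ^ N ≤ 1 := by
    rw [div_le_one (by positivity)]
    exact one_le_pow₀ hℓ1
  have hx1 : padicNorm ℓ x ≤ 1 := hx.trans hN1
  obtain ⟨R, hR⟩ : ∃ R : ℤ[X], R = G ^ q - H ^ r := ⟨_, rfl⟩
  have hcoef : ∀ i, (R.coeff i).natAbs ≤ 2 * (M * D * B) ^ i := by
    intro i
    have h1 := Pool.Agent.N741.FD.coeff_pow_bound (a := 1) hB hD (by rw [hG]; rfl)
      (fun j => by rw [one_mul]; exact hGB j) hGD q hq i
    have h2 := Pool.Agent.N741.FD.coeff_pow_bound (a := 1) hB hD (by rw [hH]; rfl)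
      (fun j => by rw [one_mul]; exact hHB j) hHD r hr i
    rw [one_pow, one_mul] at h1 h2
    have h3 : (q * D * B) ^ i ≤ (M * D * B) ^ i := by gcongr
    have h4 : (r * D * B) ^ i ≤ (M * D * B) ^ i := by gcongr
    rw [hR, coeff_sub]
    have := Int.natAbs_sub_le ((G ^ q).coeff i) ((H ^ r).coeff i)
    omega
  -- the order of `R`
  have hnd : ¬ X ^ (2 * D + 2) ∣ R := by
    intro h
    have h1 : (X : ℚ[X]) ^ (2 * D + 2) ∣ C (1 : ℚ) * (toQ G) ^ q - C (1 : ℚ) * (toQ H) ^ r := by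
      have := Polynomial.map_dvd (Int.castRingHom ℚ) h
      rw [hR, Polynomial.map_pow, map_X, Polynomial.map_sub, Polynomial.map_pow,
        Polynomial.map_pow] at this
      simpa [toQ] using this
    have hGq : (toQ G).coeff 0 ≠ 0 := by rw [toQ, coeff_map, hG]; simp
    have hHq : (toQ H).coeff 0 ≠ 0 := by rw [toQ, coeff_map, hH]; simp
    have e1 : (toQ G).natDegree = G.natDegree := natDegree_map_eq_of_injective (RingHom.injective_int _) G
    have e2 : (toQ H).natDegree = H.natDegree := natDegree_map_eq_of_injective (RingHom.injective_int _) H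
    have h2 := order hGH hGq hHq hq hr one_ne_zero one_ne_zero (by omega) h1
    omega
  have hR0 : R ≠ 0 := by
    rintro rfl
    exact hnd (dvd_zero _)
  obtain ⟨Q, hQ⟩ := Polynomial.X_pow_dvd_iff.2 (fun d hd => coeff_eq_zero_of_lt_natTrailingDegree hd :
    ∀ d < R.natTrailingDegree, R.coeff d = 0)
  obtain ⟨t, ht⟩ : ∃ t, t = R.natTrailingDegree := ⟨_, rfl⟩
  rw [← ht] at hQ
  have hQ0 : Q.coeff 0 = R.coeff t := by
    conv_rhs => rw [hQ]
    have := Polynomial.coeff_X_pow_mul Q t 0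
    simpa using this.symm
  have hne : R.coeff t ≠ 0 := by
    rw [ht]
    exact trailingCoeff_nonzero_iff_nonzero.2 hR0
  have hR00 : R.coeff 0 = 0 := by
    rw [hR, coeff_sub, coeff_zero_eq_eval_zero, coeff_zero_eq_eval_zero, eval_pow, eval_pow,
      ← coeff_zero_eq_eval_zero, ← coeff_zero_eq_eval_zero, hG, hH, one_pow, one_pow, sub_self]
  have ht1 : 1 ≤ t := by
    rcases Nat.eq_zero_or_pos t with h0 | h0
    · rw [h0] at hne
      exact absurd hR00 hne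
    · exact h0
  have ht2 : t ≤ 2 * D + 1 := by
    by_contra hcon
    exact hnd ((pow_dvd_pow X (by omega : 2 * D + 2 ≤ t)).trans ⟨Q, hQ⟩)
  refine ⟨t, R.coeff t, ht1, ht2, hne, hcoef t, ?_, ?_⟩
  · rw [← hR]
    have h1 : R - C (R.coeff t) * X ^ t = X ^ (t + 1) * divX Q := by
      conv_lhs => rw [← hQ0]
      conv_lhs => rw [hQ, ← divX_mul_X_add Q]
      rw [coeff_add, mul_coeff_zero, coeff_X_zero, mul_zero, zero_add, coeff_C_zero]
      ring
    exact ⟨_, h1⟩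
  · have h1 : (aeval x R : ℚ) = κ * (aeval x F) ^ p := by
      rw [hR, map_sub, map_pow, map_pow, heq]
    have h2 : (aeval x R : ℚ) = x ^ t * aeval x Q := by
      rw [hQ, map_mul, map_pow, aeval_X]
    have hFn := norm_aeval_sub_le ℓ hx1 (F ^ p)
    have hFc : (F ^ p).coeff 0 = 1 := by
      rw [coeff_zero_eq_eval_zero, eval_pow, ← coeff_zero_eq_eval_zero, hF, one_pow]
    rw [hFc, map_pow] at hFn
    have hQn := norm_aeval_sub_le ℓ hx1 Q
    rw [hQ0] at hQn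
    obtain ⟨φ, hφ⟩ : ∃ φ : ℚ, φ = (aeval x F) ^ p := ⟨_, rfl⟩
    rw [← hφ] at h1 hFn
    push_cast at hFn
    have hφ1 : padicNorm ℓ φ = 1 := by
      have h6 : padicNorm ℓ (φ - 1) < 1 := by
        refine (hFn.trans hx).trans_lt ?_
        rw [div_lt_one (by positivity)]
        exact one_lt_pow₀ (by exact_mod_cast hℓ.out.one_lt) (by omega)
      have h7 : padicNorm ℓ (1 + (φ - 1)) = max (padicNorm ℓ 1) (padicNorm ℓ (φ - 1)) :=
        padicNorm.add_eq_max_of_ne (by rw [padicNorm.one]; exact h6.ne')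
      rw [padicNorm.one, max_eq_left h6.le] at h7
      rwa [add_sub_cancel] at h7
    have h3 : (κ - (R.coeff t : ℚ) * x ^ t) * φ = x ^ t * ((aeval x Q - (R.coeff t : ℚ)) -
        (R.coeff t : ℚ) * (φ - 1)) := by
      have h4 : κ * φ = x ^ t * aeval x Q := by rw [← h1, h2]
      linear_combination h4
    have h5 : padicNorm ℓ (κ - (R.coeff t : ℚ) * x ^ t) =
        padicNorm ℓ x ^ t * padicNorm ℓ ((aeval x Q - (R.coeff t : ℚ)) -
        (R.coeff t : ℚ) * (φ - 1)) := by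
      rw [← norm_pow, ← padicNorm.mul, ← h3, padicNorm.mul, hφ1, mul_one]
    rw [h5]
    apply mul_le_mul_of_nonneg_left _ (pow_nonneg (padicNorm.nonneg _) _)
    refine (padicNorm.sub).trans (max_le (hQn.trans hx) ?_)
    rw [padicNorm.mul]
    calc _ ≤ 1 * padicNorm ℓ (φ - 1) :=
          mul_le_mul_of_nonneg_right (padicNorm.of_int _) (padicNorm.nonneg _)
      _ ≤ _ := by rw [one_mul]; exact hFn.trans hx

/-- The local lemma, second part: `κ = e x ^ t` is impossible. -/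
theorem local_two (ℓ : ℕ) [hℓ : Fact ℓ.Prime] {x : ℚ} {N : ℕ} (hx0 : x ≠ 0)
    (hx : padicNorm ℓ x ≤ 1 / (ℓ : ℚ) ^ N) {G H F : ℤ[X]} (hG : G.coeff 0 = 1) (hH : H.coeff 0 = 1)
    (hF : F.coeff 0 = 1) (hGH : IsCoprime (toQ G) (toQ H))
    {p q r D B M : ℕ} (hp : 2 ≤ p) (hq : 2 ≤ q) (hr : 2 ≤ r) (hpM : p ≤ M) (hqM : q ≤ M) (hrM : r ≤ M)
    (hle : q * r + r * p + p * q ≤ p * q * r)
    (hGD : G.natDegree ≤ D) (hHD : H.natDegree ≤ D) (hFD : F.natDegree ≤ D) (hD : 1 ≤ D) (hB : 1 ≤ B)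
    (hGB : ∀ j, (G.coeff j).natAbs ≤ B) (hHB : ∀ j, (H.coeff j).natAbs ≤ B)
    (hFB : ∀ j, (F.coeff j).natAbs ≤ B) {t : ℕ} {e : ℤ} (ht1 : 1 ≤ t) (htD : t ≤ 2 * D + 1)
    (he : e ≠ 0) (heB : e.natAbs ≤ 2 * (M * D * B) ^ t)
    (heq : (aeval x G) ^ q - (aeval x H) ^ r = (e * x ^ t) * (aeval x F) ^ p)
    (hbig : 4 * (M * D * B) ^ (6 * D + 4) < ℓ ^ N) : False := by
  have hℓ1 : (1 : ℚ) ≤ ℓ := by exact_mod_cast hℓ.out.one_lt.le
  have hN1 : 1 / (ℓ : ℚ) ^ N ≤ 1 := by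
    rw [div_le_one (by positivity)]
    exact one_le_pow₀ hℓ1
  have hx1 : padicNorm ℓ x ≤ 1 := hx.trans hN1
  obtain ⟨ψ, hψ⟩ : ∃ ψ : ℤ[X], ψ = G ^ q - H ^ r - C e * X ^ t * F ^ p := ⟨_, rfl⟩
  have hE : 1 ≤ M * D * B := Nat.mul_pos (Nat.mul_pos (by omega) hD) hB
  have hval : (aeval x ψ : ℚ) = 0 := by
    rw [hψ]
    simp only [map_sub, map_mul, map_pow, aeval_X, aeval_C]
    rw [heq]
    simp
  have hcoef : ∀ i, (ψ.coeff i).natAbs ≤ 4 * (M * D * B) ^ i := by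
    intro i
    have h1 := Pool.Agent.N741.FD.coeff_pow_bound (a := 1) hB hD (by rw [hG]; rfl)
      (fun j => by rw [one_mul]; exact hGB j) hGD q (by omega) i
    have h2 := Pool.Agent.N741.FD.coeff_pow_bound (a := 1) hB hD (by rw [hH]; rfl)
      (fun j => by rw [one_mul]; exact hHB j) hHD r (by omega) i
    have h5 := fun i => Pool.Agent.N741.FD.coeff_pow_bound (a := 1) hB hD (by rw [hF]; rfl)
      (fun j => by rw [one_mul]; exact hFB j) hFD p (by omega) i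
    rw [one_pow, one_mul] at h1 h2
    have h3 : (q * D * B) ^ i ≤ (M * D * B) ^ i := by gcongr
    have h4 : (r * D * B) ^ i ≤ (M * D * B) ^ i := by gcongr
    have h6 : ((C e * X ^ t * F ^ p).coeff i).natAbs ≤ 2 * (M * D * B) ^ i := by
      rw [mul_assoc, coeff_C_mul, coeff_X_pow_mul']
      split_ifs with hti
      · have h7 := h5 (i - t)
        rw [one_pow, one_mul] at h7
        have h8 : (p * D * B) ^ (i - t) ≤ (M * D * B) ^ (i - t) := by gcongr
        rw [Int.natAbs_mul]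
        calc _ ≤ (2 * (M * D * B) ^ t) * (M * D * B) ^ (i - t) := Nat.mul_le_mul heB (h7.trans h8)
          _ = 2 * (M * D * B) ^ (t + (i - t)) := by rw [pow_add]; ring
          _ = _ := by rw [Nat.add_sub_cancel' hti]
      · simp
    rw [hψ, coeff_sub, coeff_sub]
    have h9 := Int.natAbs_sub_le ((G ^ q).coeff i - (H ^ r).coeff i) ((C e * X ^ t * F ^ p).coeff i)
    have h10 := Int.natAbs_sub_le ((G ^ q).coeff i) ((H ^ r).coeff i)
    omega
  have hdvd : X ^ (6 * D + 4) ∣ ψ := by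
    by_cases hψ0 : ψ = 0
    · rw [hψ0]; exact dvd_zero _
    obtain ⟨Q, hQ⟩ := Polynomial.X_pow_dvd_iff.2 (fun d hd => coeff_eq_zero_of_lt_natTrailingDegree hd :
      ∀ d < ψ.natTrailingDegree, ψ.coeff d = 0)
    obtain ⟨σ, hσ⟩ : ∃ σ, σ = ψ.natTrailingDegree := ⟨_, rfl⟩
    rw [← hσ] at hQ
    by_contra hcon
    have hσs : σ < 6 * D + 4 := by
      by_contra h0
      exact hcon ((pow_dvd_pow X (by omega)).trans ⟨Q, hQ⟩)
    have hQ0 : Q.coeff 0 = ψ.coeff σ := by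
      conv_rhs => rw [hQ]
      have := Polynomial.coeff_X_pow_mul Q σ 0
      simpa using this.symm
    have hne : ψ.coeff σ ≠ 0 := by
      rw [hσ]
      exact trailingCoeff_nonzero_iff_nonzero.2 hψ0
    have h1 : (aeval x Q : ℚ) = 0 := by
      rw [hQ, map_mul, map_pow, aeval_X] at hval
      exact (mul_eq_zero.1 hval).resolve_left (pow_ne_zero _ hx0)
    have h2 := norm_aeval_sub_le ℓ hx1 Q
    rw [h1, zero_sub, padicNorm.neg, hQ0] at h2
    apply hne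
    refine norm_int_ge ℓ (N := N) (h2.trans hx) (lt_of_le_of_lt (hcoef σ) (lt_of_le_of_lt ?_ hbig))
    exact Nat.mul_le_mul_left _ (Nat.pow_le_pow_right hE hσs.le)
  have hGq : (toQ G).coeff 0 ≠ 0 := by rw [toQ, coeff_map, hG]; simp
  have hHq : (toQ H).coeff 0 ≠ 0 := by rw [toQ, coeff_map, hH]; simp
  have hFq : (toQ F).coeff 0 ≠ 0 := by rw [toQ, coeff_map, hF]; simp
  have e1 : (toQ G).natDegree = G.natDegree := natDegree_map_eq_of_injective (RingHom.injective_int _) G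
  have e2 : (toQ H).natDegree = H.natDegree := natDegree_map_eq_of_injective (RingHom.injective_int _) H
  have e3 : (toQ F).natDegree = F.natDegree := natDegree_map_eq_of_injective (RingHom.injective_int _) F
  have h1 : (X : ℚ[X]) ^ (6 * D + 4) ∣ C (1 : ℚ) * (toQ G) ^ q - C (1 : ℚ) * (toQ H) ^ r -
      C (e : ℚ) * X ^ t * (toQ F) ^ p := by
    have := Polynomial.map_dvd (Int.castRingHom ℚ) hdvd
    rw [hψ] at this
    simpa [toQ] using this
  exact main_alg hGH hGq hHq hFq (by omega) hq hr ht1 hle one_ne_zero one_ne_zero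
    (by exact_mod_cast he) (by omega) (by omega) (by omega) (by omega) le_rfl h1

end Pool.Agent.T44.FC
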