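import Mathlib
import Pool.Agent.T44.FC.Loc
import Pool.Agent.T44.FC.Bk
import Pool.Agent.T44.FC.Int

/-!
# First case: the term divisible by `ℓ` is divisible by a high power of `ℓ`
-/

set_option autoImplicit false

namespace Pool.Agent.T44.FC

open Polynomial Finset
open Pool.Agent.R477.FC (toQ toQ_inj toQ_mul Sg)

/-- the data: three polynomials with values at `w = ℓ ^ m u`; the value of the first one is
divisible by `ℓ` -/
structure Dat (ℓ m S M : ℕ) (u : ℤ) (F G H : ℤ[X]) (p q r : ℕ) (a₁ a₂ a₃ : ℤ) : Prop where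
  prime : ℓ.Prime
  lS : ℓ ≤ S
  hu : ¬ (ℓ : ℤ) ∣ u
  uS : u.natAbs ≤ 2 ^ S
  FD : F.natDegree ≤ S
  GD : G.natDegree ≤ S
  HD : H.natDegree ≤ S
  FB : ∀ j, (F.coeff j).natAbs ≤ 2 ^ S
  GB : ∀ j, (G.coeff j).natAbs ≤ 2 ^ S
  HB : ∀ j, (H.coeff j).natAbs ≤ 2 ^ S
  cop : IsCoprime (toQ G) (toQ H)
  p2 : 2 ≤ p
  q2 : 2 ≤ q
  r2 : 2 ≤ r
  pM : p ≤ M
  qM : q ≤ M
  rM : r ≤ M
  hyp : q * r + r * p + p * q ≤ p * q * r
  s1 : Sg a₁
  s2 : Sg a₂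
  s3 : Sg a₃
  eq : a₁ * (F.eval ((ℓ : ℤ) ^ m * u)) ^ p + a₂ * (G.eval ((ℓ : ℤ) ^ m * u)) ^ q +
    a₃ * (H.eval ((ℓ : ℤ) ^ m * u)) ^ r = 0
  F0 : F.eval ((ℓ : ℤ) ^ m * u) ≠ 0
  lF : (ℓ : ℤ) ∣ F.eval ((ℓ : ℤ) ^ m * u)
  lG : ¬ (ℓ : ℤ) ∣ G.eval ((ℓ : ℤ) ^ m * u)
  lH : ¬ (ℓ : ℤ) ∣ H.eval ((ℓ : ℤ) ^ m * u)

/-- the conclusion of the theorem on linear forms in logarithms -/
def BK (ℓ S T : ℕ) : Prop := ∀ (a m n : Fin 5 → ℕ),
    (∀ i, ¬ ℓ ∣ a i) → (∀ i, a i ≤ 2 ^ S) → (∀ i, 2 * m i ≤ 2 ^ S) → (∀ i, 2 * n i ≤ 2 ^ S) →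
    ((ℓ : ℤ) ^ T ∣ ((∏ i, a i ^ m i : ℕ) : ℤ) ^ 2 - ((∏ i, a i ^ n i : ℕ) : ℤ) ^ 2) →
    ∏ i, a i ^ m i = ∏ i, a i ^ n i

theorem sg_sq {s y : ℤ} (hs : Sg s) : (s * y) ^ 2 = y ^ 2 := by
  rcases hs with rfl | rfl <;> ring

/-- the constant terms of the two other polynomials -/
theorem consts {ℓ m S M : ℕ} {u : ℤ} {F G H : ℤ[X]} {p q r : ℕ} {a₁ a₂ a₃ : ℤ}
    (h : Dat ℓ m S M u F G H p q r a₁ a₂ a₃) {S₁ T : ℕ} (hS₁ : S ≤ S₁) (hM : 2 * M ≤ 2 ^ S₁)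
    (hBK : BK ℓ S₁ T) (hT : 2 ≤ T) (hTm : T ≤ m)
    (hd : (ℓ : ℤ) ^ T ∣ (F.eval ((ℓ : ℤ) ^ m * u)) ^ p) :
    a₂ * (G.coeff 0) ^ q + a₃ * (H.coeff 0) ^ r = 0 := by
  obtain ⟨w, hw⟩ : ∃ w, w = (ℓ : ℤ) ^ m * u := ⟨_, rfl⟩
  have hlw : (ℓ : ℤ) ^ T ∣ w := by
    rw [hw]
    exact (pow_dvd_pow _ hTm).mul_right _
  have hlw1 : (ℓ : ℤ) ∣ w := (dvd_pow_self _ (by omega : T ≠ 0)).trans hlw
  have hlG := h.lG
  have hlH := h.lH
  have heq := h.eq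
  rw [← hw] at hd hlG hlH heq
  have hg := not_dvd_of_eval hlw1 hlG
  have hh := not_dvd_of_eval hlw1 hlH
  have key : ∀ (P : ℤ[X]) (k : ℕ), (ℓ : ℤ) ^ T ∣ (P.eval w) ^ k - (P.coeff 0) ^ k := fun P k =>
    (hlw.trans (eval_sub_dvd P w)).trans (sub_dvd_pow_sub_pow _ _ _)
  have h1 : (ℓ : ℤ) ^ T ∣ a₂ * (G.coeff 0) ^ q + a₃ * (H.coeff 0) ^ r := by
    have e1 : a₂ * (G.coeff 0) ^ q + a₃ * (H.coeff 0) ^ r =
        -(a₁ * (F.eval w) ^ p) - a₂ * ((G.eval w) ^ q - (G.coeff 0) ^ q) -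
          a₃ * ((H.eval w) ^ r - (H.coeff 0) ^ r) := by
      linear_combination heq
    rw [e1]
    exact ((hd.mul_left _).neg_right.sub ((key G q).mul_left _)).sub ((key H r).mul_left _)
  have h2 : (ℓ : ℤ) ^ T ∣ ((G.coeff 0) ^ q) ^ 2 - ((H.coeff 0) ^ r) ^ 2 := by
    rw [← sg_sq (y := (G.coeff 0) ^ q) h.s2, ← sg_sq (y := (H.coeff 0) ^ r) h.s3, sq_sub_sq]
    exact h1.mul_right _
  have hgn : ¬ ℓ ∣ (G.coeff 0).natAbs := by rwa [← Int.natCast_dvd]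
  have hhn : ¬ ℓ ∣ (H.coeff 0).natAbs := by rwa [← Int.natCast_dvd]
  have hone : ¬ ℓ ∣ 1 := fun h0 => h.prime.one_lt.ne' (Nat.dvd_one.1 h0)
  have hpos : 1 ≤ 2 ^ S₁ := Nat.one_le_two_pow
  have hSS : 2 ^ S ≤ 2 ^ S₁ := Nat.pow_le_pow_right (by norm_num) hS₁
  have h3 := hBK ![(G.coeff 0).natAbs, (H.coeff 0).natAbs, 1, 1, 1] ![q, 0, 0, 0, 0]
    ![0, r, 0, 0, 0] (by intro i; fin_cases i <;> simp_all)
    (by
      intro i
      fin_cases i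
      · exact (h.GB 0).trans hSS
      · exact (h.HB 0).trans hSS
      · exact hpos
      · exact hpos
      · exact hpos)
    (by
      have := h.qM
      intro i
      fin_cases i
      · change 2 * q ≤ _
        omega
      all_goals exact Nat.zero_le _)
    (by
      have := h.rM
      intro i
      fin_cases i
      · exact Nat.zero_le _
      · change 2 * r ≤ _
        omega
      all_goals exact Nat.zero_le _)
    (by
      simp only [Fin.prod_univ_five, Matrix.cons_val_zero, Matrix.cons_val_one, Matrix.cons_val]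
      push_cast
      simp only [pow_zero, mul_one, one_mul]
      rw [← pow_mul, ← pow_mul, mul_comm q 2, mul_comm r 2, pow_mul, pow_mul, sq_abs, sq_abs,
        ← pow_mul, ← pow_mul, mul_comm 2 q, mul_comm 2 r, pow_mul, pow_mul]
      exact h2)
  simp only [Fin.prod_univ_five, Matrix.cons_val_zero, Matrix.cons_val_one, Matrix.cons_val,
    pow_zero, mul_one, one_mul] at h3
  have h4 : (a₂ * (G.coeff 0) ^ q).natAbs = (-(a₃ * (H.coeff 0) ^ r)).natAbs := by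
    rw [Int.natAbs_neg, Int.natAbs_mul, Int.natAbs_mul, Sg.natAbs h.s2, Sg.natAbs h.s3, Int.natAbs_pow,
      Int.natAbs_pow, h3]
  have h5 : ¬ (ℓ : ℤ) ∣ -(a₃ * (H.coeff 0) ^ r) := by
    rw [dvd_neg]
    exact not_dvd_sg h.s3 (fun h0 => hh ((Nat.prime_iff_prime_int.1 h.prime).dvd_of_dvd_pow h0))
  have h6 := eq_of_natAbs h.prime hT h5 (by rw [sub_neg_eq_add]; exact h1) h4
  rw [h6]
  ring

theorem aeval_int (P : ℤ[X]) (w : ℤ) : (aeval ((w : ℤ) : ℚ) P : ℚ) = ((P.eval w : ℤ) : ℚ) := by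
  rw [aeval_def, eval₂_eq_eval_map]
  simp

/-- the value of a scaled polynomial -/
theorem aeval_scale {G G' : ℤ[X]} {g lam w : ℤ} (h : C g * G' = G.comp (C lam * X)) (hlam : lam ≠ 0) :
    (g : ℚ) * aeval ((w : ℚ) / lam) G' = ((G.eval w : ℤ) : ℚ) := by
  have h1 := congrArg (aeval ((w : ℚ) / lam)) h
  rw [map_mul, aeval_C, aeval_comp, map_mul, aeval_C, aeval_X] at h1
  have h2 : (algebraMap ℤ ℚ lam) * ((w : ℚ) / lam) = ((w : ℤ) : ℚ) := by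
    have : (lam : ℚ) ≠ 0 := by exact_mod_cast hlam
    simp only [eq_intCast]
    field_simp
  rw [h2, aeval_int] at h1
  simpa using h1

theorem cop_scale {G H G' H' : ℤ[X]} {g h lam : ℤ} (hG : C g * G' = G.comp (C lam * X))
    (hH : C h * H' = H.comp (C lam * X)) (hg : g ≠ 0) (hh : h ≠ 0) (hc : IsCoprime (toQ G) (toQ H)) :
    IsCoprime (toQ G') (toQ H') := by
  have h1 : IsCoprime ((toQ G).comp (C (lam : ℚ) * X)) ((toQ H).comp (C (lam : ℚ) * X)) := by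
    have := hc.map (compRingHom (C (lam : ℚ) * X))
    simpa using this
  have e : ∀ {P P' : ℤ[X]} {k : ℤ}, C k * P' = P.comp (C lam * X) →
      C (k : ℚ) * toQ P' = (toQ P).comp (C (lam : ℚ) * X) := by
    intro P P' k hP
    have := congrArg toQ hP
    rw [toQ, Polynomial.map_mul, map_C, toQ, Polynomial.map_comp, Polynomial.map_mul, map_C, map_X] at this
    simpa [toQ] using this
  rw [← e hG, ← e hH, isCoprime_mul_units_left
    (isUnit_C.mpr (isUnit_iff_ne_zero.mpr (by exact_mod_cast hg)))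
    (isUnit_C.mpr (isUnit_iff_ne_zero.mpr (by exact_mod_cast hh)))] at h1
  exact h1

theorem natDegree_scale {G G' : ℤ[X]} {g lam : ℤ} (hG : C g * G' = G.comp (C lam * X)) (hg : g ≠ 0)
    (hl : lam ≠ 0) : G'.natDegree = G.natDegree := by
  have h1 := congrArg natDegree hG
  rw [natDegree_C_mul hg, natDegree_comp, natDegree_C_mul_X _ hl, mul_one] at h1
  exact h1

/-- **First case.** -/
theorem case_one {ℓ m S M : ℕ} {u : ℤ} {F G H : ℤ[X]} {p q r : ℕ} {a₁ a₂ a₃ : ℤ}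
    (h : Dat ℓ m S M u F G H p q r a₁ a₂ a₃) (hnc : 0 < G.natDegree ∨ 0 < H.natDegree)
    {S₁ T : ℕ} (hE : 2 * (M * S * (2 ^ S * (2 ^ (3 * S)) ^ S)) ^ (2 * S + 1) ≤ 2 ^ S₁)
    (hexp : 2 * (S * M + M + 2 * S + 1) ≤ 2 ^ S₁)
    (hBK : BK ℓ S₁ T) (hT : 2 ≤ T) (hTm : 2 * S + 5 * S₁ + T + 10 ≤ m)
    (hd : (ℓ : ℤ) ^ T ∣ (F.eval ((ℓ : ℤ) ^ m * u)) ^ p) : False := by
  have : Fact ℓ.Prime := ⟨h.prime⟩
  have hS1 : 1 ≤ S := h.prime.one_lt.le.trans h.lS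
  have hM2 : 2 ≤ M := h.p2.trans h.pM
  obtain ⟨E, hEdef⟩ : ∃ E, E = M * S * (2 ^ S * (2 ^ (3 * S)) ^ S) := ⟨_, rfl⟩
  rw [← hEdef] at hE
  have hE1 : 1 ≤ E := by rw [hEdef]; exact Nat.mul_pos (Nat.mul_pos (by omega) hS1) (by positivity)
  have hES : 2 ^ S ≤ E := by
    rw [hEdef]
    calc 2 ^ S = 1 * 1 * (2 ^ S * 1) := by ring
      _ ≤ _ := Nat.mul_le_mul (Nat.mul_le_mul (by omega) hS1)
        (Nat.mul_le_mul_left _ (Nat.one_le_pow _ _ (by positivity)))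
  have hSS₁ : S ≤ S₁ := by
    have h1 : 2 ^ S ≤ 2 ^ S₁ := by
      calc 2 ^ S ≤ E := hES
        _ ≤ E ^ (2 * S + 1) := Nat.le_self_pow (by omega) _
        _ ≤ 2 * E ^ (2 * S + 1) := by omega
        _ ≤ _ := hE
    exact (Nat.pow_le_pow_iff_right (by norm_num)).1 h1
  have hconst := consts h hSS₁ (by
      have : 2 * M ≤ 2 * (S * M + M + 2 * S + 1) := by nlinarith
      omega) hBK hT (by omega) hd
  obtain ⟨w, hw⟩ : ∃ w, w = (ℓ : ℤ) ^ m * u := ⟨_, rfl⟩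
  have hlw1 : (ℓ : ℤ) ∣ w := by
    rw [hw]
    exact (dvd_pow_self _ (by omega : m ≠ 0)).mul_right _
  have hlG := h.lG
  have hlH := h.lH
  have heq := h.eq
  have hF0 := h.F0
  rw [← hw] at hlG hlH heq hF0
  obtain ⟨g₀, hg₀⟩ : ∃ g, g = G.coeff 0 := ⟨_, rfl⟩
  obtain ⟨h₀, hh₀⟩ : ∃ g, g = H.coeff 0 := ⟨_, rfl⟩
  have hg := not_dvd_of_eval hlw1 hlG
  have hh := not_dvd_of_eval hlw1 hlH
  rw [← hg₀] at hg hconst
  rw [← hh₀] at hh hconst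
  have hg0 : g₀ ≠ 0 := fun h0 => hg (by rw [h0]; exact dvd_zero _)
  have hh0 : h₀ ≠ 0 := fun h0 => hh (by rw [h0]; exact dvd_zero _)
  have hgB : g₀.natAbs ≤ 2 ^ S := by rw [hg₀]; exact h.GB 0
  have hhB : h₀.natAbs ≤ 2 ^ S := by rw [hh₀]; exact h.HB 0
  have hu0 : u ≠ 0 := fun h0 => h.hu (by rw [h0]; exact dvd_zero _)
  have hw0 : w ≠ 0 := by
    rw [hw]
    exact mul_ne_zero (pow_ne_zero _ (by exact_mod_cast h.prime.ne_zero)) hu0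
  -- the factor `X ^ e` of `F`
  have hFne : F ≠ 0 := by
    rintro rfl
    simp at hF0
  obtain ⟨F₁, hF₁⟩ := Polynomial.X_pow_dvd_iff.2 (fun d hd => coeff_eq_zero_of_lt_natTrailingDegree hd :
    ∀ d < F.natTrailingDegree, F.coeff d = 0)
  obtain ⟨e, he⟩ : ∃ e, e = F.natTrailingDegree := ⟨_, rfl⟩
  rw [← he] at hF₁
  have hF₁c : ∀ j, F₁.coeff j = F.coeff (j + e) := by
    intro j
    conv_rhs => rw [hF₁]
    rw [Polynomial.coeff_X_pow_mul]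
  obtain ⟨f₀, hf₀⟩ : ∃ f, f = F₁.coeff 0 := ⟨_, rfl⟩
  have hf0 : f₀ ≠ 0 := by
    rw [hf₀, hF₁c, zero_add, he]
    exact trailingCoeff_nonzero_iff_nonzero.2 hFne
  have hF₁ne : F₁ ≠ 0 := by
    rintro rfl
    simp at hf₀
    exact hf0 hf₀
  have hF₁deg : F₁.natDegree + e ≤ S := by
    have := h.FD
    rw [hF₁, natDegree_X_pow_mul _ hF₁ne] at this
    exact this
  have hfB : f₀.natAbs ≤ 2 ^ S := by rw [hf₀, hF₁c]; exact h.FB _
  obtain ⟨v, f', hf', hlf'⟩ := dec h.prime hf0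
  have hvS := val_le h.prime hf' hf0 hfB
  -- scaling
  obtain ⟨lam, hlam⟩ : ∃ lam, lam = g₀ * (h₀ * f₀) := ⟨_, rfl⟩
  have hlam0 : lam ≠ 0 := by rw [hlam]; exact mul_ne_zero hg0 (mul_ne_zero hh0 hf0)
  have hprod : ∀ a b : ℤ, a.natAbs ≤ 2 ^ S → b.natAbs ≤ 2 ^ S → (a * b).natAbs ≤ 2 ^ (3 * S) := by
    intro a b ha hb
    rw [Int.natAbs_mul]
    calc _ ≤ 2 ^ S * 2 ^ S := Nat.mul_le_mul ha hb
      _ = 2 ^ (2 * S) := by rw [← pow_add]; ring_nf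
      _ ≤ _ := Nat.pow_le_pow_right (by norm_num) (by omega)
  have hΛ : lam.natAbs ≤ 2 ^ (3 * S) := by
    rw [hlam, Int.natAbs_mul, Int.natAbs_mul]
    calc _ ≤ 2 ^ S * (2 ^ S * 2 ^ S) := Nat.mul_le_mul hgB (Nat.mul_le_mul hhB hfB)
      _ = _ := by rw [← pow_add, ← pow_add]; ring_nf
  have h2S : 1 ≤ 2 ^ S := Nat.one_le_two_pow
  obtain ⟨G', hG'0, hG'B, hG'D, hG'⟩ := exists_scale G (g := g₀) (μ := h₀ * f₀) (lam := lam)
    hlam.symm hg₀.symm h.GB h2S hΛ Nat.one_le_two_pow (hprod _ _ hhB hfB) h.GD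
  obtain ⟨H', hH'0, hH'B, hH'D, hH'⟩ := exists_scale H (g := h₀) (μ := g₀ * f₀) (lam := lam)
    (by rw [hlam]; ring) hh₀.symm h.HB h2S hΛ Nat.one_le_two_pow (hprod _ _ hgB hfB) h.HD
  obtain ⟨F', hF'0, hF'B, hF'D, hF'⟩ := exists_scale F₁ (g := f₀) (μ := g₀ * h₀) (lam := lam) (D := S)
    (by rw [hlam]; ring) hf₀.symm (fun j => by rw [hF₁c]; exact h.FB _) h2S hΛ Nat.one_le_two_pow
    (hprod _ _ hgB hhB) (by omega)
  have hGv := aeval_scale (w := w) hG' hlam0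
  have hHv := aeval_scale (w := w) hH' hlam0
  have hFv := aeval_scale (w := w) hF' hlam0
  obtain ⟨x, hx⟩ : ∃ x : ℚ, x = (w : ℚ) / lam := ⟨_, rfl⟩
  rw [← hx] at hGv hHv hFv
  have hwQ : (w : ℚ) ≠ 0 := by exact_mod_cast hw0
  have hlamQ : (lam : ℚ) ≠ 0 := by exact_mod_cast hlam0
  have hgQ : (g₀ : ℚ) ≠ 0 := by exact_mod_cast hg0
  have hhQ : (h₀ : ℚ) ≠ 0 := by exact_mod_cast hh0
  have hfQ : (f₀ : ℚ) ≠ 0 := by exact_mod_cast hf0
  have hx0 : x ≠ 0 := by rw [hx]; exact div_ne_zero hwQ hlamQ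
  have hlx : (lam : ℚ) * x = w := by rw [hx]; field_simp
  -- norms
  have hℓ0 : (ℓ : ℚ) ≠ 0 := by exact_mod_cast h.prime.ne_zero
  have hℓpos : (0 : ℚ) < ℓ := by exact_mod_cast h.prime.pos
  have nunit : ∀ k : ℤ, ¬ (ℓ : ℤ) ∣ k → padicNorm ℓ (k : ℚ) = 1 := fun k hk =>
    (padicNorm.int_eq_one_iff k).2 hk
  have npow : ∀ k : ℕ, padicNorm ℓ ((ℓ : ℚ) ^ k) = 1 / (ℓ : ℚ) ^ k := by
    intro k
    rw [norm_pow, padicNorm.padicNorm_p_of_prime, inv_pow, one_div]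
  have nw : padicNorm ℓ (w : ℚ) = 1 / (ℓ : ℚ) ^ m := by
    rw [hw]
    push_cast
    rw [padicNorm.mul, npow, nunit u h.hu, mul_one]
  have nlam : padicNorm ℓ (lam : ℚ) = 1 / (ℓ : ℚ) ^ v := by
    rw [hlam, hf']
    push_cast
    rw [padicNorm.mul, padicNorm.mul, padicNorm.mul, npow, nunit g₀ hg, nunit h₀ hh, nunit f' hlf']
    ring
  obtain ⟨N, hN⟩ : ∃ N, m = v + N := ⟨m - v, by omega⟩
  have nx : padicNorm ℓ x = 1 / (ℓ : ℚ) ^ N := by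
    have h1 : padicNorm ℓ (lam : ℚ) * padicNorm ℓ x = padicNorm ℓ (w : ℚ) := by
      rw [← padicNorm.mul, hlx]
    rw [nlam, nw, hN, pow_add] at h1
    field_simp at h1 ⊢
    linarith
  have hN1 : 1 ≤ N := by omega
  -- the equation
  obtain ⟨κ, hκ⟩ : ∃ κ : ℚ, κ = -((a₁ : ℚ) * a₂) * (w : ℚ) ^ (e * p) * (f₀ : ℚ) ^ p / (g₀ : ℚ) ^ q :=
    ⟨_, rfl⟩
  have ha2 : (a₂ : ℚ) * a₂ = 1 := by exact_mod_cast h.s2.sq
  have hFw : ((F.eval w : ℤ) : ℚ) = (w : ℚ) ^ e * ((f₀ : ℚ) * aeval x F') := by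
    rw [hFv]
    conv_lhs => rw [hF₁]
    rw [eval_mul, eval_pow, eval_X]
    push_cast
    ring
  have hmain : (aeval x G' : ℚ) ^ q - (aeval x H' : ℚ) ^ r = κ * (aeval x F' : ℚ) ^ p := by
    have h1 : (a₁ : ℚ) * ((F.eval w : ℤ) : ℚ) ^ p + a₂ * ((G.eval w : ℤ) : ℚ) ^ q +
        a₃ * ((H.eval w : ℤ) : ℚ) ^ r = 0 := by exact_mod_cast heq
    have h2 : (a₂ : ℚ) * (g₀ : ℚ) ^ q + a₃ * (h₀ : ℚ) ^ r = 0 := by exact_mod_cast hconst
    rw [hFw, ← hGv, ← hHv, mul_pow, mul_pow, mul_pow, mul_pow, ← pow_mul] at h1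
    rw [hκ]
    field_simp
    linear_combination (a₂ : ℚ) * h1 - (aeval x H' : ℚ) ^ r * (a₂ : ℚ) * h2 -
      ((g₀ : ℚ) ^ q * (aeval x G' : ℚ) ^ q - (g₀ : ℚ) ^ q * (aeval x H' : ℚ) ^ r) * ha2
  have hcop' := cop_scale hG' hH' hg0 hh0 h.cop
  have hB1 : 1 ≤ 2 ^ S * (2 ^ (3 * S)) ^ S := Nat.mul_pos (by positivity) (by positivity)
  obtain ⟨t, e₀, ht1, htD, he₀, he₀B, -, hnorm⟩ := local_one ℓ hN1 nx.le hG'0 hH'0 hF'0 hcop'
    (by rw [natDegree_scale hG' hg0 hlam0, natDegree_scale hH' hh0 hlam0]; exact hnc)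
    (by have := h.q2; omega) (by have := h.r2; omega) h.qM h.rM hG'D hH'D hS1 hB1 hG'B hH'B hmain
  have he₀S : e₀.natAbs ≤ 2 ^ S₁ := by
    refine he₀B.trans ?_
    rw [← hEdef]
    exact (Nat.mul_le_mul_left _ (Nat.pow_le_pow_right hE1 htD)).trans hE
  obtain ⟨v', e', he', hle'⟩ := dec h.prime he₀
  have hv'S := val_le h.prime he' he₀ he₀S
  -- integers
  obtain ⟨s, hs⟩ : ∃ s : ℤ, s = -(a₁ * a₂) := ⟨_, rfl⟩
  have hsg : Sg s := by rw [hs]; exact (h.s1.mul h.s2).neg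
  obtain ⟨y, hy⟩ : ∃ y : ℤ, y = u ^ (e * p) * f' ^ (p + t) * g₀ ^ t * h₀ ^ t := ⟨_, rfl⟩
  obtain ⟨z, hz⟩ : ∃ z : ℤ, z = u ^ t * g₀ ^ q * e' := ⟨_, rfl⟩
  have hnum : w ^ (e * p) * f₀ ^ p * lam ^ t = (ℓ : ℤ) ^ (m * (e * p) + v * (p + t)) * y := by
    rw [hy, hlam, hf', hw]
    ring
  have hden : e₀ * g₀ ^ q * w ^ t = (ℓ : ℤ) ^ (v' + m * t) * z := by
    rw [hz, he', hw]
    ring
  have hid : (κ - (e₀ : ℚ) * x ^ t) * ((g₀ : ℚ) ^ q * (lam : ℚ) ^ t) =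
      ((s * (w ^ (e * p) * f₀ ^ p * lam ^ t) - e₀ * g₀ ^ q * w ^ t : ℤ) : ℚ) := by
    have h1 : x ^ t * (lam : ℚ) ^ t = (w : ℚ) ^ t := by rw [← mul_pow, mul_comm, hlx]
    have h2 : κ * (g₀ : ℚ) ^ q = -((a₁ : ℚ) * a₂) * (w : ℚ) ^ (e * p) * (f₀ : ℚ) ^ p := by
      rw [hκ]
      field_simp
    push_cast [hs]
    linear_combination (lam : ℚ) ^ t * h2 - (e₀ : ℚ) * (g₀ : ℚ) ^ q * h1
  have hdv : (ℓ : ℤ) ^ (m * t + N) ∣ s * (w ^ (e * p) * f₀ ^ p * lam ^ t) - e₀ * g₀ ^ q * w ^ t := by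
    have h1 : ((ℓ ^ (m * t + N) : ℕ) : ℤ) ∣ s * (w ^ (e * p) * f₀ ^ p * lam ^ t) -
        e₀ * g₀ ^ q * w ^ t := by
      rw [padicNorm.dvd_iff_norm_le, ← hid, padicNorm.mul, padicNorm.mul, norm_pow, norm_pow,
        nunit g₀ hg, one_pow, one_mul, nlam]
      calc _ ≤ (padicNorm ℓ x ^ t * (1 / (ℓ : ℚ) ^ N)) * (1 / (ℓ : ℚ) ^ v) ^ t :=
            mul_le_mul_of_nonneg_right hnorm (by positivity)
        _ = (ℓ : ℚ) ^ (-((m * t + N : ℕ) : ℤ)) := by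
            rw [nx, zpow_neg, zpow_natCast, hN, div_pow, div_pow, one_pow, ← pow_mul, ← pow_mul,
              add_mul, pow_add, pow_add]
            field_simp
    exact_mod_cast h1
  have hprime := Nat.prime_iff_prime_int.1 h.prime
  have hly : ¬ (ℓ : ℤ) ∣ y := by
    rw [hy]
    intro h0
    rcases hprime.dvd_or_dvd h0 with h1 | h1
    · rcases hprime.dvd_or_dvd h1 with h2 | h2
      · rcases hprime.dvd_or_dvd h2 with h3 | h3
        · exact h.hu (hprime.dvd_of_dvd_pow h3)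
        · exact hlf' (hprime.dvd_of_dvd_pow h3)
      · exact hg (hprime.dvd_of_dvd_pow h2)
    · exact hh (hprime.dvd_of_dvd_pow h1)
  have hlz : ¬ (ℓ : ℤ) ∣ z := by
    rw [hz]
    intro h0
    rcases hprime.dvd_or_dvd h0 with h1 | h1
    · rcases hprime.dvd_or_dvd h1 with h2 | h2
      · exact h.hu (hprime.dvd_of_dvd_pow h2)
      · exact hg (hprime.dvd_of_dvd_pow h2)
    · exact hle' h1
  obtain ⟨K, hK⟩ : ∃ K, N = v' + K := ⟨N - v', by omega⟩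
  have hKT : T ≤ K := by omega
  obtain ⟨hAB, hKd⟩ := matching h.prime (A := v' + m * t) (B := m * (e * p) + v * (p + t)) (K := K)
    (y := y) (z := z) hsg hly hlz (by omega) (by
      rw [← hnum, ← hden]
      refine (dvd_of_eq ?_).trans hdv
      congr 1
      omega)
  -- linear forms in logarithms
  have hSS : 2 ^ S ≤ 2 ^ S₁ := Nat.pow_le_pow_right (by norm_num) hSS₁
  have nat : ∀ k : ℤ, ¬ (ℓ : ℤ) ∣ k → ¬ ℓ ∣ k.natAbs := fun k hk => by rwa [← Int.natCast_dvd]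
  have hf'B : f'.natAbs ≤ 2 ^ S := (natAbs_le_of_dec h.prime hf').trans hfB
  have he'B : e'.natAbs ≤ 2 ^ S₁ := (natAbs_le_of_dec h.prime he').trans he₀S
  have heS : e ≤ S := by omega
  have hepM : e * p ≤ S * M := Nat.mul_le_mul heS h.pM
  have hy' : y.natAbs = u.natAbs ^ (e * p) * f'.natAbs ^ (p + t) * g₀.natAbs ^ t * h₀.natAbs ^ t := by
    rw [hy]
    simp only [Int.natAbs_mul, Int.natAbs_pow]
  have hz' : z.natAbs = u.natAbs ^ t * g₀.natAbs ^ q * e'.natAbs := by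
    rw [hz]
    simp only [Int.natAbs_mul, Int.natAbs_pow]
  have p1 : ∏ i, (![u.natAbs, f'.natAbs, g₀.natAbs, h₀.natAbs, e'.natAbs] : Fin 5 → ℕ) i ^
      (![e * p, p + t, t, t, 0] : Fin 5 → ℕ) i = y.natAbs := by
    rw [hy']
    simp only [Fin.prod_univ_five, Matrix.cons_val_zero, Matrix.cons_val_one, Matrix.cons_val,
      pow_zero, mul_one]
  have p2 : ∏ i, (![u.natAbs, f'.natAbs, g₀.natAbs, h₀.natAbs, e'.natAbs] : Fin 5 → ℕ) i ^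
      (![t, 0, q, 0, 1] : Fin 5 → ℕ) i = z.natAbs := by
    rw [hz']
    simp only [Fin.prod_univ_five, Matrix.cons_val_zero, Matrix.cons_val_one, Matrix.cons_val,
      pow_zero, pow_one, mul_one]
  have hpM := h.pM
  have hqM := h.qM
  have hB5 := hBK ![u.natAbs, f'.natAbs, g₀.natAbs, h₀.natAbs, e'.natAbs] ![e * p, p + t, t, t, 0]
    ![t, 0, q, 0, 1]
    (by
      intro i
      fin_cases i
      · exact nat _ h.hu
      · exact nat _ hlf'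
      · exact nat _ hg
      · exact nat _ hh
      · exact nat _ hle')
    (by
      intro i
      fin_cases i
      · exact h.uS.trans hSS
      · exact hf'B.trans hSS
      · exact hgB.trans hSS
      · exact hhB.trans hSS
      · exact he'B)
    (by
      intro i
      fin_cases i
      · change 2 * (e * p) ≤ _
        omega
      · change 2 * (p + t) ≤ _
        omega
      · change 2 * t ≤ _
        omega
      · change 2 * t ≤ _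
        omega
      · exact Nat.zero_le _)
    (by
      intro i
      fin_cases i
      · change 2 * t ≤ _
        omega
      · exact Nat.zero_le _
      · change 2 * q ≤ _
        omega
      · exact Nat.zero_le _
      · change 2 * 1 ≤ _
        omega)
    (by
      rw [p1, p2, Int.natAbs_sq, Int.natAbs_sq, ← sg_sq (y := y) hsg, sq_sub_sq]
      exact ((pow_dvd_pow _ hKT).trans hKd).mul_left _)
  rw [p1, p2] at hB5
  have hyz : s * y = z := by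
    refine eq_of_natAbs h.prime (by omega : 2 ≤ K) hlz hKd ?_
    rw [Int.natAbs_mul, Sg.natAbs hsg, one_mul, hB5]
  have hκe : κ = (e₀ : ℚ) * x ^ t := by
    have h1 : s * (w ^ (e * p) * f₀ ^ p * lam ^ t) - e₀ * g₀ ^ q * w ^ t = 0 := by
      rw [hnum, hden, ← hAB, ← hyz]
      ring
    rw [h1, Int.cast_zero] at hid
    have h2 : ((g₀ : ℚ) ^ q * (lam : ℚ) ^ t) ≠ 0 := mul_ne_zero (pow_ne_zero _ hgQ) (pow_ne_zero _ hlamQ)
    exact sub_eq_zero.1 ((mul_eq_zero.1 hid).resolve_right h2)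
  rw [hκe] at hmain
  refine local_two ℓ hx0 nx.le hG'0 hH'0 hF'0 hcop' h.p2 h.q2 h.r2 h.pM h.qM h.rM h.hyp hG'D hH'D hF'D
    hS1 hB1 hG'B hH'B hF'B ht1 htD he₀ he₀B hmain ?_
  rw [← hEdef]
  calc 4 * E ^ (6 * S + 4) ≤ 4 * E ^ (4 * (2 * S + 1)) :=
        Nat.mul_le_mul_left _ (Nat.pow_le_pow_right hE1 (by omega))
    _ = 4 * (E ^ (2 * S + 1)) ^ 4 := by rw [← pow_mul, mul_comm 4 (2 * S + 1)]
    _ ≤ 4 * (2 ^ S₁) ^ 4 := Nat.mul_le_mul_left _ (Nat.pow_le_pow_left (by omega) _)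
    _ = 2 ^ (S₁ * 4 + 2) := by rw [pow_add, ← pow_mul]; ring
    _ < 2 ^ N := Nat.pow_lt_pow_right (by norm_num) (by omega)
    _ ≤ ℓ ^ N := Nat.pow_le_pow_left h.prime.two_le _

end Pool.Agent.T44.FC
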