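import Mathlib
import Pool.Agent.T44.FC.Case1

/-!
# Reversed polynomials and values at small real numbers
-/

set_option autoImplicit false

namespace Pool.Agent.T44.FC

open Polynomial Finset
open Pool.Agent.R477.FC (toQ toQ_inj toQ_mul Sg)

/-- reversed coprime polynomials are coprime -/
theorem cop_reverse {f g : ℚ[X]} (h : IsCoprime f g) (hf : f ≠ 0) :
    IsCoprime f.reverse g.reverse := by
  obtain ⟨u, v, huv⟩ := h
  obtain ⟨n, hn⟩ : ∃ n, n = u.natDegree + v.natDegree := ⟨_, rfl⟩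
  have h1 : reflect (n + g.natDegree + f.natDegree) (u * f) =
      reflect (n + g.natDegree) u * f.reverse :=
    reflect_mul u f (by omega) le_rfl
  have h2 : reflect (n + g.natDegree + f.natDegree) (v * g) =
      reflect (n + f.natDegree) v * g.reverse := by
    rw [show n + g.natDegree + f.natDegree = (n + f.natDegree) + g.natDegree by ring]
    exact reflect_mul v g (by omega) le_rfl
  have h3 := congrArg (reflect (n + g.natDegree + f.natDegree)) huv
  rw [reflect_add, h1, h2, reflect_one] at h3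
  have hf0 : f.reverse.coeff 0 ≠ 0 := by
    rw [coeff_zero_reverse]
    exact leadingCoeff_ne_zero.2 hf
  obtain ⟨a, b, hab⟩ := cop_X hf0 (n + g.natDegree + f.natDegree)
  rw [← h3] at hab
  refine ⟨a * reflect (n + g.natDegree) u + b, a * reflect (n + f.natDegree) v, ?_⟩
  linear_combination hab

theorem toQ_reverse (f : ℤ[X]) : toQ f.reverse = (toQ f).reverse := by
  rw [reverse, reverse, toQ, toQ, reflect_map, natDegree_map_eq_of_injective (RingHom.injective_int _)]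

/-- coefficients of the difference of two powers -/
theorem diff_coeff {G H : ℤ[X]} (hG : G.coeff 0 = 1) (hH : H.coeff 0 = 1) {q r D B M : ℕ}
    (hq : 1 ≤ q) (hr : 1 ≤ r) (hqM : q ≤ M) (hrM : r ≤ M)
    (hGD : G.natDegree ≤ D) (hHD : H.natDegree ≤ D) (hD : 1 ≤ D) (hB : 1 ≤ B)
    (hGB : ∀ j, (G.coeff j).natAbs ≤ B) (hHB : ∀ j, (H.coeff j).natAbs ≤ B) (i : ℕ) :
    ((G ^ q - H ^ r).coeff i).natAbs ≤ 2 * (M * D * B) ^ i := by
  have h1 := Pool.Agent.N741.FD.coeff_pow_bound (a := 1) hB hD (by rw [hG]; rfl)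
    (fun j => by rw [one_mul]; exact hGB j) hGD q hq i
  have h2 := Pool.Agent.N741.FD.coeff_pow_bound (a := 1) hB hD (by rw [hH]; rfl)
    (fun j => by rw [one_mul]; exact hHB j) hHD r hr i
  rw [one_pow, one_mul] at h1 h2
  have h3 : (q * D * B) ^ i ≤ (M * D * B) ^ i := by gcongr
  have h4 : (r * D * B) ^ i ≤ (M * D * B) ^ i := by gcongr
  rw [coeff_sub]
  have := Int.natAbs_sub_le ((G ^ q).coeff i) ((H ^ r).coeff i)
  omega

/-- the lowest term of the difference of two powers -/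
theorem lead_exists {G H : ℤ[X]} (hG : G.coeff 0 = 1) (hH : H.coeff 0 = 1)
    (hGH : IsCoprime (toQ G) (toQ H)) (hnc : 0 < G.natDegree ∨ 0 < H.natDegree)
    {q r D : ℕ} (hq : 1 ≤ q) (hr : 1 ≤ r) (hGD : G.natDegree ≤ D) (hHD : H.natDegree ≤ D) :
    ∃ (t : ℕ) (e : ℤ), t ≤ 2 * D + 1 ∧ e ≠ 0 ∧ e = (G ^ q - H ^ r).coeff t ∧
      X ^ (t + 1) ∣ G ^ q - H ^ r - C e * X ^ t := by
  obtain ⟨R, hR⟩ : ∃ R : ℤ[X], R = G ^ q - H ^ r := ⟨_, rfl⟩
  have hnd : ¬ X ^ (2 * D + 2) ∣ R := by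
    intro h
    have h1 : (X : ℚ[X]) ^ (2 * D + 2) ∣ C (1 : ℚ) * (toQ G) ^ q - C (1 : ℚ) * (toQ H) ^ r := by
      have := Polynomial.map_dvd (Int.castRingHom ℚ) h
      rw [hR, Polynomial.map_pow, map_X, Polynomial.map_sub, Polynomial.map_pow,
        Polynomial.map_pow] at this
      simpa [toQ] using this
    have hGq : (toQ G).coeff 0 ≠ 0 := by rw [toQ, coeff_map, hG]; simp
    have hHq : (toQ H).coeff 0 ≠ 0 := by rw [toQ, coeff_map, hH]; simp
    have e1 : (toQ G).natDegree = G.natDegree := natDegree_map_eq_of_injective (RingHom.injective_int _) G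
    have e2 : (toQ H).natDegree = H.natDegree := natDegree_map_eq_of_injective (RingHom.injective_int _) H
    have h2 := order hGH hGq hHq hq hr one_ne_zero one_ne_zero (by omega) h1
    omega
  have hR0 : R ≠ 0 := by
    rintro rfl
    exact hnd (dvd_zero _)
  obtain ⟨Q, hQ⟩ := Polynomial.X_pow_dvd_iff.2 (fun d hd => coeff_eq_zero_of_lt_natTrailingDegree hd :
    ∀ d < R.natTrailingDegree, R.coeff d = 0)
  obtain ⟨t, ht⟩ : ∃ t, t = R.natTrailingDegree := ⟨_, rfl⟩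
  rw [← ht] at hQ
  have hQ0 : Q.coeff 0 = R.coeff t := by
    conv_rhs => rw [hQ]
    have := Polynomial.coeff_X_pow_mul Q t 0
    simpa using this.symm
  have hne : R.coeff t ≠ 0 := by
    rw [ht]
    exact trailingCoeff_nonzero_iff_nonzero.2 hR0
  have ht2 : t ≤ 2 * D + 1 := by
    by_contra hcon
    exact hnd ((pow_dvd_pow X (by omega : 2 * D + 2 ≤ t)).trans ⟨Q, hQ⟩)
  refine ⟨t, R.coeff t, ht2, hne, by rw [hR], ?_⟩
  rw [← hR]
  have h1 : R - C (R.coeff t) * X ^ t = X ^ (t + 1) * divX Q := by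
    conv_lhs => rw [← hQ0]
    conv_lhs => rw [hQ, ← divX_mul_X_add Q]
    rw [coeff_add, mul_coeff_zero, coeff_X_zero, mul_zero, zero_add, coeff_C_zero]
    ring
  exact ⟨_, h1⟩

/-- the values of a polynomial with moderate coefficients at a small real number -/
theorem real_tail {P : ℤ[X]} {E c₀ s : ℕ} (hP : ∀ i, (P.coeff i).natAbs ≤ c₀ * E ^ i)
    (hs : X ^ s ∣ P) {x : ℝ} (hx : E * |x| ≤ 1 / 2) :
    |(aeval x P : ℝ)| ≤ 2 * c₀ * (E * |x|) ^ s := by
  obtain ⟨Q, rfl⟩ := hs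
  have hQ : ∀ i, |((Q.coeff i : ℤ) : ℝ)| ≤ c₀ * (E : ℝ) ^ (i + s) := by
    intro i
    have h1 := hP (i + s)
    rw [Polynomial.coeff_X_pow_mul] at h1
    have h2 : |((Q.coeff i : ℤ) : ℝ)| = ((Q.coeff i).natAbs : ℝ) := by
      rw [Nat.cast_natAbs, Int.cast_abs]
    rw [h2]
    exact_mod_cast h1
  rw [map_mul, map_pow, aeval_X, aeval_eq_sum_range, abs_mul, abs_pow]
  have h3 : |∑ i ∈ range (Q.natDegree + 1), Q.coeff i • x ^ i| ≤
      ∑ i ∈ range (Q.natDegree + 1), (c₀ * (E : ℝ) ^ s) * (1 / 2) ^ i := by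
    refine (abs_sum_le_sum_abs _ _).trans (sum_le_sum fun i _ => ?_)
    rw [zsmul_eq_mul, abs_mul, abs_pow]
    calc |((Q.coeff i : ℤ) : ℝ)| * |x| ^ i ≤ (c₀ * (E : ℝ) ^ (i + s)) * |x| ^ i :=
          mul_le_mul_of_nonneg_right (hQ i) (by positivity)
      _ = (c₀ * (E : ℝ) ^ s) * (E * |x|) ^ i := by rw [mul_pow]; ring
      _ ≤ _ := by
        apply mul_le_mul_of_nonneg_left _ (by positivity)
        exact pow_le_pow_left₀ (by positivity) hx _
  have h4 : ∑ i ∈ range (Q.natDegree + 1), (c₀ * (E : ℝ) ^ s) * (1 / 2) ^ i ≤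
      (c₀ * (E : ℝ) ^ s) * 2 := by
    rw [← mul_sum]
    apply mul_le_mul_of_nonneg_left _ (by positivity)
    exact sum_geometric_two_le _
  calc |x| ^ s * |∑ i ∈ range (Q.natDegree + 1), Q.coeff i • x ^ i| ≤
      |x| ^ s * ((c₀ * (E : ℝ) ^ s) * 2) := mul_le_mul_of_nonneg_left (h3.trans h4) (by positivity)
    _ = _ := by rw [mul_pow]; ring

theorem abs_log_le {v : ℝ} (h : |v - 1| ≤ 1 / 2) : |Real.log v| ≤ 2 * |v - 1| := by
  have h1 := abs_le.1 h
  have hv : 0 < v := by linarith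
  rw [abs_le]
  constructor
  · have h2 := Real.one_sub_inv_le_log_of_pos hv
    have h3 : -(2 * |v - 1|) ≤ 1 - v⁻¹ := by
      have h4 : 1 - v⁻¹ = (v - 1) / v := by field_simp
      rw [h4, le_div_iff₀ hv]
      have h5 : -|v - 1| ≤ v - 1 := neg_abs_le _
      have h6 : |v - 1| ≤ 2 * |v - 1| * v := by nlinarith [abs_nonneg (v - 1)]
      linarith
    exact h3.trans h2
  · have h2 := Real.log_le_sub_one_of_pos hv
    have h5 : v - 1 ≤ |v - 1| := le_abs_self _
    have := abs_nonneg (v - 1)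
    linarith

/-- the value of a scaled reversed polynomial -/
theorem real_reverse {G G' : ℤ[X]} {lam w : ℤ} (hlam : lam ≠ 0) (hw : w ≠ 0)
    (h : C G.leadingCoeff * G' = G.reverse.comp (C lam * X)) :
    ((G.eval w : ℤ) : ℝ) = (G.leadingCoeff : ℝ) * (w : ℝ) ^ G.natDegree *
      aeval (1 / ((lam : ℝ) * w)) G' := by
  have hlR : (lam : ℝ) ≠ 0 := by exact_mod_cast hlam
  have hwR : (w : ℝ) ≠ 0 := by exact_mod_cast hw
  have h1 := congrArg (aeval (1 / ((lam : ℝ) * w))) h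
  rw [map_mul, aeval_C, aeval_comp, map_mul, aeval_C, aeval_X] at h1
  have h2 : (algebraMap ℤ ℝ lam) * (1 / ((lam : ℝ) * w)) = (w : ℝ)⁻¹ := by
    simp only [eq_intCast]
    field_simp
  rw [h2] at h1
  letI : Invertible (w : ℝ) := invertibleOfNonzero hwR
  have h3 := eval₂_reverse_mul_pow (algebraMap ℤ ℝ) (w : ℝ) G
  rw [invOf_eq_inv] at h3
  have h4 : eval₂ (algebraMap ℤ ℝ) (w : ℝ) G = ((G.eval w : ℤ) : ℝ) := by
    rw [eval₂_eq_eval_map]
    simp
  rw [← h4, ← h3]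
  have h5 : (aeval (w : ℝ)⁻¹ G.reverse : ℝ) = eval₂ (algebraMap ℤ ℝ) (w : ℝ)⁻¹ G.reverse := rfl
  rw [← h5, ← h1]
  simp only [eq_intCast]
  ring

end Pool.Agent.T44.FC
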