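import Mathlib
import Pool.Agent.T44.FC.Rev
import Pool.Agent.Y913.Nb.WBdep

/-!
# Second case: the term divisible by `ℓ` is small compared with the two others
-/

set_option autoImplicit false

namespace Pool.Agent.T44.FC

open Polynomial Finset
open Pool.Agent.R477.FC (toQ toQ_inj toQ_mul Sg)

theorem Dat.swap {ℓ m S M : ℕ} {u : ℤ} {F G H : ℤ[X]} {p q r : ℕ} {a₁ a₂ a₃ : ℤ}
    (h : Dat ℓ m S M u F G H p q r a₁ a₂ a₃) : Dat ℓ m S M u F H G p r q a₁ a₃ a₂ where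
  prime := h.prime
  lS := h.lS
  hu := h.hu
  uS := h.uS
  FD := h.FD
  GD := h.HD
  HD := h.GD
  FB := h.FB
  GB := h.HB
  HB := h.GB
  cop := h.cop.symm
  p2 := h.p2
  q2 := h.r2
  r2 := h.q2
  pM := h.pM
  qM := h.rM
  rM := h.qM
  hyp := by
    have := h.hyp
    nlinarith
  s1 := h.s1
  s2 := h.s3
  s3 := h.s2
  eq := by
    have := h.eq
    linarith
  F0 := h.F0
  lF := h.lF
  lG := h.lH
  lH := h.lG

/-- a power of a polynomial with constant term `1` is near `1` at small numbers -/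
theorem near_one {G : ℤ[X]} (hG : G.coeff 0 = 1) {q D B M : ℕ} (hq : 1 ≤ q) (hqM : q ≤ M)
    (hGD : G.natDegree ≤ D) (hD : 1 ≤ D) (hB : 1 ≤ B) (hGB : ∀ j, (G.coeff j).natAbs ≤ B) {x : ℝ}
    (hx : ((M * D * B : ℕ) : ℝ) * |x| ≤ 1 / 2) :
    |(aeval x G : ℝ) ^ q - 1| ≤ 2 * (((M * D * B : ℕ) : ℝ) * |x|) := by
  have h1 : ∀ i, ((G ^ q - 1).coeff i).natAbs ≤ 1 * (M * D * B) ^ i := by
    intro i
    have h2 := Pool.Agent.N741.FD.coeff_pow_bound (a := 1) hB hD (by rw [hG]; rfl)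
      (fun j => by rw [one_mul]; exact hGB j) hGD q hq i
    rw [one_pow] at h2
    have h3 : (q * D * B) ^ i ≤ (M * D * B) ^ i := by gcongr
    rcases Nat.eq_zero_or_pos i with rfl | hi
    · rw [coeff_sub, coeff_one_zero, coeff_zero_eq_eval_zero, eval_pow, ← coeff_zero_eq_eval_zero, hG]
      simp
    · rw [coeff_sub, coeff_one, if_neg (by omega), sub_zero]
      omega
  have h2 : X ^ 1 ∣ G ^ q - 1 := by
    rw [pow_one, X_dvd_iff, coeff_sub, coeff_one_zero, coeff_zero_eq_eval_zero, eval_pow,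
      ← coeff_zero_eq_eval_zero, hG]
    simp
  have h3 := real_tail h1 h2 hx
  rw [map_sub, map_pow, map_one, pow_one] at h3
  simpa using h3

/-- the difference of two powers at a small number -/
theorem diff_lower {G H : ℤ[X]} (hG : G.coeff 0 = 1) (hH : H.coeff 0 = 1)
    (hGH : IsCoprime (toQ G) (toQ H)) (hnc : 0 < G.natDegree ∨ 0 < H.natDegree)
    {q r D B M : ℕ} (hq : 1 ≤ q) (hr : 1 ≤ r) (hqM : q ≤ M) (hrM : r ≤ M) (hGD : G.natDegree ≤ D)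
    (hHD : H.natDegree ≤ D) (hD : 1 ≤ D) (hB : 1 ≤ B)
    (hGB : ∀ j, (G.coeff j).natAbs ≤ B) (hHB : ∀ j, (H.coeff j).natAbs ≤ B) {x : ℝ}
    (hx : ((M * D * B : ℕ) : ℝ) * |x| ≤ 1 / 2) (hx1 : |x| ≤ 1)
    (hx2 : 8 * ((M * D * B : ℕ) : ℝ) ^ (2 * D + 2) * |x| ≤ 1) :
    |x| ^ (2 * D + 1) ≤ 2 * |(aeval x G : ℝ) ^ q - (aeval x H : ℝ) ^ r| := by
  obtain ⟨E, hE⟩ : ∃ E, E = M * D * B := ⟨_, rfl⟩
  rw [← hE] at hx hx2
  have hE1 : 1 ≤ E := by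
    rw [hE]
    exact Nat.mul_pos (Nat.mul_pos (by omega) hD) hB
  obtain ⟨t, e, ht, he, hec, hdv⟩ := lead_exists hG hH hGH hnc hq hr hGD hHD
  have hc := diff_coeff hG hH hq hr hqM hrM hGD hHD hD hB hGB hHB
  rw [← hE] at hc
  have hc' : ∀ i, ((G ^ q - H ^ r - C e * X ^ t).coeff i).natAbs ≤ 2 * E ^ i := by
    intro i
    rw [coeff_sub, coeff_C_mul, coeff_X_pow]
    split_ifs with hi
    · rw [hi, mul_one, ← hec, sub_self]
      exact Nat.zero_le _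
    · rw [mul_zero, sub_zero]
      exact hc i
  have h1 := real_tail hc' hdv hx
  rw [map_sub, map_sub, map_mul, map_pow, map_pow, map_pow, aeval_X, aeval_C] at h1
  have he1 : (1 : ℝ) ≤ |((e : ℤ) : ℝ)| := by
    have := Int.one_le_abs he
    exact_mod_cast this
  have h2 : |x| ^ t ≤ |((e : ℤ) : ℝ) * x ^ t| := by
    rw [abs_mul, abs_pow]
    exact le_mul_of_one_le_left (by positivity) he1
  have h3 : |((e : ℤ) : ℝ) * x ^ t| - |(aeval x G : ℝ) ^ q - (aeval x H : ℝ) ^ r| ≤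
      |(aeval x G : ℝ) ^ q - (aeval x H : ℝ) ^ r - ((e : ℤ) : ℝ) * x ^ t| := by
    have := abs_sub_abs_le_abs_sub (((e : ℤ) : ℝ) * x ^ t)
      ((aeval x G : ℝ) ^ q - (aeval x H : ℝ) ^ r)
    rwa [abs_sub_comm (((e : ℤ) : ℝ) * x ^ t)] at this
  have h4 : 2 * ((2 : ℕ) : ℝ) * ((E : ℝ) * |x|) ^ (t + 1) ≤ |x| ^ t / 2 := by
    have h5 : (E : ℝ) ^ (t + 1) ≤ (E : ℝ) ^ (2 * D + 2) :=
      pow_le_pow_right₀ (by exact_mod_cast hE1) (by omega)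
    have h6 : 8 * (E : ℝ) ^ (t + 1) * |x| ≤ 1 := by
      refine le_trans ?_ hx2
      gcongr
    rw [mul_pow, pow_succ |x|]
    have h7 := mul_le_mul_of_nonneg_right h6 (pow_nonneg (abs_nonneg x) t)
    push_cast
    nlinarith
  have h8 : |x| ^ (2 * D + 1) ≤ |x| ^ t := pow_le_pow_of_le_one (abs_nonneg _) hx1 ht
  simp only [eq_intCast] at h1
  have h9 := h3.trans (h1.trans h4)
  linarith

/-- the conclusion of the theorem on linear forms in real logarithms -/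
def WBc (g T : ℕ) : Prop := ∀ (x : Fin 4 → ℕ) (b : Fin 4 → ℤ),
    (∀ j, 1 ≤ x j ∧ x j ≤ 2 ^ g) → (∀ j, |b j| ≤ 2 ^ g) →
    ∑ j, (b j : ℝ) * Real.log (x j) ≠ 0 →
    (1 / 2 : ℝ) ^ T ≤ |∑ j, (b j : ℝ) * Real.log (x j)|

/-- scaled reversed polynomials -/
theorem exists_rev {G : ℤ[X]} {c lam : ℤ} {S : ℕ} (hGD : G.natDegree ≤ S)
    (hGB : ∀ j, (G.coeff j).natAbs ≤ 2 ^ S) (hc : c.natAbs ≤ 2 ^ S)
    (hlam : G.leadingCoeff * c = lam) :
    ∃ G' : ℤ[X], G'.coeff 0 = 1 ∧ (∀ j, (G'.coeff j).natAbs ≤ 2 ^ S * (2 ^ (3 * S)) ^ S) ∧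
      G'.natDegree ≤ S ∧ C G.leadingCoeff * G' = G.reverse.comp (C lam * X) := by
  refine exists_scale G.reverse (g := G.leadingCoeff) (μ := c) (lam := lam) hlam
    (coeff_zero_reverse G) (fun j => by rw [coeff_reverse]; exact hGB _) Nat.one_le_two_pow ?_
    Nat.one_le_two_pow ?_ ((reverse_natDegree_le G).trans hGD)
  · rw [← hlam, Int.natAbs_mul]
    calc _ ≤ 2 ^ S * 2 ^ S := Nat.mul_le_mul (hGB _) hc
      _ = 2 ^ (2 * S) := by rw [← pow_add]; ring_nf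
      _ ≤ _ := Nat.pow_le_pow_right (by norm_num) (by omega)
  · exact hc.trans (Nat.pow_le_pow_right (by norm_num) (by omega))

theorem triangle {a₁ a₂ a₃ x y z : ℤ} (h1 : Sg a₁) (h2 : Sg a₂) (h3 : Sg a₃)
    (h : a₁ * x + a₂ * y + a₃ * z = 0) : |((|y| : ℤ) : ℝ) - ((|z| : ℤ) : ℝ)| ≤ ((|x| : ℤ) : ℝ) := by
  have e : ∀ {s t : ℤ}, Sg s → |s * t| = |t| := by
    intro s t hs
    rcases hs with rfl | rfl <;> simp
  have k : |(|a₂ * y| - |-(a₃ * z)|)| ≤ |a₂ * y - -(a₃ * z)| := abs_abs_sub_abs_le_abs_sub _ _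
  rw [abs_neg, e h2, e h3] at k
  have k2 : a₂ * y - -(a₃ * z) = -(a₁ * x) := by linarith
  rw [k2, abs_neg, e h1] at k
  exact_mod_cast k

theorem log_part {P₁ P₂ A B ε δ : ℝ} (hP₁ : 0 < P₁) (hP₂ : 0 < P₂) (hA : |A - 1| ≤ 2 * ε)
    (hB : |B - 1| ≤ 2 * ε) (hε : ε ≤ 1 / 4) (hδ : δ ≤ 1 / 2) (h : |P₁ * A - P₂ * B| ≤ δ * (P₂ * B)) :
    |Real.log P₁ - Real.log P₂| ≤ 2 * δ + 8 * ε := by
  have hA2 := abs_le.1 hA
  have hB2 := abs_le.1 hB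
  have hA0 : 0 < A := by linarith [hA2.1]
  have hB0 : 0 < B := by linarith [hB2.1]
  have hv : |P₁ * A / (P₂ * B) - 1| ≤ δ := by
    have h1 : P₁ * A / (P₂ * B) - 1 = (P₁ * A - P₂ * B) / (P₂ * B) := by
      field_simp
    rw [h1, abs_div, abs_of_pos (mul_pos hP₂ hB0), div_le_iff₀ (mul_pos hP₂ hB0)]
    exact h
  have h1 := abs_log_le (hv.trans hδ)
  have h2 := abs_log_le (v := A) (by linarith)
  have h3 := abs_log_le (v := B) (by linarith)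
  rw [Real.log_div (mul_pos hP₁ hA0).ne' (mul_pos hP₂ hB0).ne', Real.log_mul hP₁.ne' hA0.ne',
    Real.log_mul hP₂.ne' hB0.ne'] at h1
  have h4 : Real.log P₁ - Real.log P₂ =
      (Real.log P₁ + Real.log A - (Real.log P₂ + Real.log B)) - Real.log A + Real.log B := by ring
  rw [h4]
  have h5 := abs_add_le ((Real.log P₁ + Real.log A - (Real.log P₂ + Real.log B)) - Real.log A)
    (Real.log B)
  have h6 := abs_sub (Real.log P₁ + Real.log A - (Real.log P₂ + Real.log B)) (Real.log A)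
  linarith

/-- the linear form -/
theorem forms {ℓ m S M g T : ℕ} {u b c : ℤ} {q r j k : ℕ} (hWB : WBc g T) (hℓ : 1 ≤ ℓ) (hℓS : ℓ ≤ S)
    (hSg : S ≤ g) (hg : M * S * m + M * S ≤ 2 ^ g) (hu : u ≠ 0) (hb : b ≠ 0) (hc : c ≠ 0)
    (huS : u.natAbs ≤ 2 ^ S) (hbS : b.natAbs ≤ 2 ^ S) (hcS : c.natAbs ≤ 2 ^ S) (hq : q ≤ M)
    (hr : r ≤ M) (hj : j ≤ S) (hk : k ≤ S) {P₁ P₂ W : ℝ}
    (hW : W = (((ℓ : ℤ) ^ m * u).natAbs : ℝ)) (hP₁ : P₁ = |(b : ℝ)| ^ q * W ^ (j * q))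
    (hP₂ : P₂ = |(c : ℝ)| ^ r * W ^ (k * r)) (h : |Real.log P₁ - Real.log P₂| < (1 / 2) ^ T) :
    P₁ = P₂ := by
  have hgS : 2 ^ S ≤ 2 ^ g := Nat.pow_le_pow_right (by norm_num) hSg
  have habsb : |(b : ℝ)| = (b.natAbs : ℝ) := by rw [Nat.cast_natAbs, Int.cast_abs]
  have habsc : |(c : ℝ)| = (c.natAbs : ℝ) := by rw [Nat.cast_natAbs, Int.cast_abs]
  have hb1 : 1 ≤ b.natAbs := Int.natAbs_pos.2 hb
  have hc1 : 1 ≤ c.natAbs := Int.natAbs_pos.2 hc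
  have hu1 : 1 ≤ u.natAbs := Int.natAbs_pos.2 hu
  have hW' : W = (ℓ : ℝ) ^ m * (u.natAbs : ℝ) := by
    rw [hW, Int.natAbs_mul, Int.natAbs_pow, Int.natAbs_natCast]
    push_cast
    rfl
  have hℓR : (0 : ℝ) < ℓ := by exact_mod_cast hℓ
  have huR : (0 : ℝ) < (u.natAbs : ℝ) := by exact_mod_cast hu1
  have hbR : (0 : ℝ) < (b.natAbs : ℝ) := by exact_mod_cast hb1
  have hcR : (0 : ℝ) < (c.natAbs : ℝ) := by exact_mod_cast hc1
  have hWpos : 0 < W := by rw [hW']; positivity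
  have hlogW : Real.log W = m * Real.log ℓ + Real.log (u.natAbs : ℝ) := by
    rw [hW', Real.log_mul (by positivity) huR.ne', Real.log_pow]
  have hl1 : Real.log P₁ = q * Real.log (b.natAbs : ℝ) + (j * q : ℕ) * Real.log W := by
    rw [hP₁, habsb, Real.log_mul (by positivity) (by positivity), Real.log_pow, Real.log_pow]
  have hl2 : Real.log P₂ = r * Real.log (c.natAbs : ℝ) + (k * r : ℕ) * Real.log W := by
    rw [hP₂, habsc, Real.log_mul (by positivity) (by positivity), Real.log_pow, Real.log_pow]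
  have hpos1 : 0 < P₁ := by rw [hP₁, habsb]; positivity
  have hpos2 : 0 < P₂ := by rw [hP₂, habsc]; positivity
  have hjq : j * q ≤ M * S := by rw [mul_comm M S]; exact Nat.mul_le_mul hj hq
  have hkr : k * r ≤ M * S := by rw [mul_comm M S]; exact Nat.mul_le_mul hk hr
  have hjqm : j * q * m ≤ M * S * m := Nat.mul_le_mul_right _ hjq
  have hkrm : k * r * m ≤ M * S * m := Nat.mul_le_mul_right _ hkr
  have hS1 : 1 ≤ S := hℓ.trans hℓS
  have hMS : M ≤ M * S := Nat.le_mul_of_pos_right _ hS1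
  have hsum : ∑ i, ((![(q : ℤ), -(r : ℤ), ((j * q * m : ℕ) : ℤ) - ((k * r * m : ℕ) : ℤ),
      ((j * q : ℕ) : ℤ) - ((k * r : ℕ) : ℤ)] : Fin 4 → ℤ) i : ℝ) *
      Real.log ((![b.natAbs, c.natAbs, ℓ, u.natAbs] : Fin 4 → ℕ) i) = Real.log P₁ - Real.log P₂ := by
    rw [hl1, hl2, hlogW]
    simp only [Fin.sum_univ_four, Matrix.cons_val_zero, Matrix.cons_val_one, Matrix.cons_val]
    push_cast
    ring
  have hx : ∀ i, 1 ≤ (![b.natAbs, c.natAbs, ℓ, u.natAbs] : Fin 4 → ℕ) i ∧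
      (![b.natAbs, c.natAbs, ℓ, u.natAbs] : Fin 4 → ℕ) i ≤ 2 ^ g := by
    intro i
    fin_cases i
    · exact ⟨hb1, hbS.trans hgS⟩
    · exact ⟨hc1, hcS.trans hgS⟩
    · exact ⟨hℓ, (hℓS.trans Nat.lt_two_pow_self.le).trans hgS⟩
    · exact ⟨hu1, huS.trans hgS⟩
  have key : ∀ a b : ℕ, a ≤ 2 ^ g → b ≤ 2 ^ g → |(a : ℤ) - (b : ℤ)| ≤ 2 ^ g := by
    intro a b ha hb
    have h1 : (a : ℤ) ≤ 2 ^ g := by exact_mod_cast ha
    have h2 : (b : ℤ) ≤ 2 ^ g := by exact_mod_cast hb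
    rw [abs_le]
    constructor <;> omega
  have hb' : ∀ i, |(![(q : ℤ), -(r : ℤ), ((j * q * m : ℕ) : ℤ) - ((k * r * m : ℕ) : ℤ),
      ((j * q : ℕ) : ℤ) - ((k * r : ℕ) : ℤ)] : Fin 4 → ℤ) i| ≤ 2 ^ g := by
    intro i
    fin_cases i
    · change |(q : ℤ)| ≤ 2 ^ g
      have := key q 0 (by omega) (by positivity)
      simpa using this
    · change |-(r : ℤ)| ≤ 2 ^ g
      have := key 0 r (by positivity) (by omega)
      simpa using this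
    · exact key _ _ (by omega) (by omega)
    · exact key _ _ (by omega) (by omega)
  have hmain := hWB _ _ hx hb'
  rw [hsum] at hmain
  have h0 : Real.log P₁ - Real.log P₂ = 0 := by
    by_contra hne
    have := hmain hne
    linarith
  exact Real.log_injOn_pos (Set.mem_Ioi.2 hpos1) (Set.mem_Ioi.2 hpos2) (sub_eq_zero.1 h0)

/-- **Second case.** -/
theorem case_arch {ℓ m S M : ℕ} {u : ℤ} {F G H : ℤ[X]} {p q r : ℕ} {a₁ a₂ a₃ : ℤ}
    (h : Dat ℓ m S M u F G H p q r a₁ a₂ a₃) (hnc : 0 < G.natDegree ∨ 0 < H.natDegree)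
    {S₁ g T E₁ : ℕ} (hE : 2 * (M * S * (2 ^ S * (2 ^ (3 * S)) ^ S)) ^ (2 * S + 1) ≤ 2 ^ S₁)
    (hWB : WBc g T) (hSg : S ≤ g) (hg : M * S * m + M * S ≤ 2 ^ g) (hm : 2 * S₁ + T + 10 ≤ m)
    (hX : (F.eval ((ℓ : ℤ) ^ m * u)).natAbs ^ p ≤ ((ℓ : ℤ) ^ m * u).natAbs ^ E₁) :
    (H.eval ((ℓ : ℤ) ^ m * u)).natAbs ^ r ≤ ((ℓ : ℤ) ^ m * u).natAbs ^ (E₁ + 2 * S + 2) ∧
    ((ℓ : ℤ) ^ m * u).natAbs ^ (H.natDegree * r) ≤ 2 * (H.eval ((ℓ : ℤ) ^ m * u)).natAbs ^ r := by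
  have hS1 : 1 ≤ S := h.prime.one_lt.le.trans h.lS
  have hM2 : 2 ≤ M := h.p2.trans h.pM
  obtain ⟨w, hw⟩ : ∃ w, w = (ℓ : ℤ) ^ m * u := ⟨_, rfl⟩
  have hlw1 : (ℓ : ℤ) ∣ w := by
    rw [hw]
    exact (dvd_pow_self _ (by omega : m ≠ 0)).mul_right _
  have hlG := h.lG
  have hlH := h.lH
  have heq := h.eq
  rw [← hw] at hlG hlH heq hX ⊢
  have hg0 := not_dvd_of_eval hlw1 hlG
  have hh0 := not_dvd_of_eval hlw1 hlH
  have hGc0 : G.coeff 0 ≠ 0 := fun h0 => hg0 (by rw [h0]; exact dvd_zero _)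
  have hHc0 : H.coeff 0 ≠ 0 := fun h0 => hh0 (by rw [h0]; exact dvd_zero _)
  have hGne : G ≠ 0 := by rintro rfl; simp at hGc0
  have hHne : H ≠ 0 := by rintro rfl; simp at hHc0
  have hu0 : u ≠ 0 := fun h0 => h.hu (by rw [h0]; exact dvd_zero _)
  have hw0 : w ≠ 0 := by
    rw [hw]
    exact mul_ne_zero (pow_ne_zero _ (by exact_mod_cast h.prime.ne_zero)) hu0
  -- sizes
  obtain ⟨E, hEdef⟩ : ∃ E, E = M * S * (2 ^ S * (2 ^ (3 * S)) ^ S) := ⟨_, rfl⟩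
  rw [← hEdef] at hE
  have hE1 : 1 ≤ E := by rw [hEdef]; exact Nat.mul_pos (Nat.mul_pos (by omega) hS1) (by positivity)
  have hES : 2 ^ S ≤ E := by
    rw [hEdef]
    calc 2 ^ S = 1 * 1 * (2 ^ S * 1) := by ring
      _ ≤ _ := Nat.mul_le_mul (Nat.mul_le_mul (by omega) hS1)
        (Nat.mul_le_mul_left _ (Nat.one_le_pow _ _ (by positivity)))
  have hEn : E ^ (2 * (2 * S + 1)) ≤ 2 ^ (2 * S₁) := by
    rw [mul_comm 2 (2 * S + 1), pow_mul, mul_comm 2 S₁, pow_mul]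
    exact Nat.pow_le_pow_left (by omega) 2
  have hE₁ : E ≤ 2 ^ S₁ := by
    calc E ≤ E ^ (2 * S + 1) := Nat.le_self_pow (by omega) _
      _ ≤ 2 ^ S₁ := by omega
  have hWn : 2 ^ m ≤ w.natAbs := by
    rw [hw, Int.natAbs_mul, Int.natAbs_pow, Int.natAbs_natCast]
    calc 2 ^ m ≤ ℓ ^ m := Nat.pow_le_pow_left h.prime.two_le _
      _ = ℓ ^ m * 1 := by ring
      _ ≤ _ := Nat.mul_le_mul_left _ (Int.natAbs_pos.2 hu0)
  obtain ⟨W, hW⟩ : ∃ W : ℝ, W = (w.natAbs : ℝ) := ⟨_, rfl⟩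
  have hWabs : |(w : ℝ)| = W := by rw [hW, Nat.cast_natAbs, Int.cast_abs]
  have hW2 : (2 : ℝ) ^ m ≤ W := by rw [hW]; exact_mod_cast hWn
  have hW1 : (1 : ℝ) ≤ W := (one_le_pow₀ (by norm_num)).trans hW2
  have hWpos : 0 < W := by linarith
  -- leading coefficients
  obtain ⟨b, hb⟩ : ∃ b, b = G.leadingCoeff := ⟨_, rfl⟩
  obtain ⟨c, hc⟩ : ∃ c, c = H.leadingCoeff := ⟨_, rfl⟩
  have hb0 : b ≠ 0 := by rw [hb]; exact leadingCoeff_ne_zero.2 hGne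
  have hc0 : c ≠ 0 := by rw [hc]; exact leadingCoeff_ne_zero.2 hHne
  have hbB : b.natAbs ≤ 2 ^ S := by rw [hb]; exact h.GB _
  have hcB : c.natAbs ≤ 2 ^ S := by rw [hc]; exact h.HB _
  obtain ⟨lam, hlam⟩ : ∃ lam, lam = b * c := ⟨_, rfl⟩
  have hlam0 : lam ≠ 0 := by rw [hlam]; exact mul_ne_zero hb0 hc0
  have hlamB : lam.natAbs ≤ 2 ^ (2 * S) := by
    rw [hlam, Int.natAbs_mul]
    calc _ ≤ 2 ^ S * 2 ^ S := Nat.mul_le_mul hbB hcB
      _ = 2 ^ (2 * S) := by rw [← pow_add]; ring_nf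
  obtain ⟨G', hG'0, hG'B, hG'D, hG'⟩ := exists_rev (G := G) (c := c) (lam := lam) h.GD h.GB hcB
    (by rw [hlam, hb])
  obtain ⟨H', hH'0, hH'B, hH'D, hH'⟩ := exists_rev (G := H) (c := b) (lam := lam) h.HD h.HB hbB
    (by rw [hlam, hc]; ring)
  have hGv := real_reverse hlam0 hw0 hG'
  have hHv := real_reverse hlam0 hw0 hH'
  obtain ⟨x, hx⟩ : ∃ x : ℝ, x = 1 / ((lam : ℝ) * w) := ⟨_, rfl⟩
  rw [← hx, ← hb] at hGv
  rw [← hx, ← hc] at hHv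
  have hlamabs : |(lam : ℝ)| = (lam.natAbs : ℝ) := by rw [Nat.cast_natAbs, Int.cast_abs]
  have hlam1 : (1 : ℝ) ≤ |(lam : ℝ)| := by
    rw [hlamabs]
    exact_mod_cast Int.natAbs_pos.2 hlam0
  have hlam2 : |(lam : ℝ)| ≤ 2 ^ (2 * S) := by
    rw [hlamabs]
    exact_mod_cast hlamB
  have hxabs : |x| = 1 / (|(lam : ℝ)| * W) := by
    rw [hx, abs_div, abs_mul, abs_one, hWabs]
  have hx1 : |x| ≤ 1 / W := by
    rw [hxabs]
    apply one_div_le_one_div_of_le hWpos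
    exact le_mul_of_one_le_left hWpos.le hlam1
  have hxW : |x| * W ≤ 1 := by
    rw [le_div_iff₀ hWpos] at hx1
    exact hx1
  obtain ⟨K, hK⟩ : ∃ K : ℝ, K = 2 ^ S₁ := ⟨_, rfl⟩
  obtain ⟨τ, hτ⟩ : ∃ τ : ℝ, τ = 2 ^ T := ⟨_, rfl⟩
  have hK1 : 1 ≤ K := by rw [hK]; exact one_le_pow₀ (by norm_num)
  have hτ1 : 1 ≤ τ := by rw [hτ]; exact one_le_pow₀ (by norm_num)
  have hKW : 1024 * (K ^ 2 * τ) ≤ W := by
    refine le_trans ?_ hW2
    rw [hK, hτ, ← pow_mul, ← pow_add, show (1024 : ℝ) = 2 ^ 10 by norm_num, ← pow_add]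
    exact pow_le_pow_right₀ (by norm_num) (by omega)
  have hEK : (E : ℝ) ≤ K := by rw [hK]; exact_mod_cast hE₁
  have hE1R : (1 : ℝ) ≤ E := by exact_mod_cast hE1
  have hx0 : 0 ≤ |x| := abs_nonneg x
  have hK2 : 1 ≤ K ^ 2 := one_le_pow₀ hK1
  have hKτ : 1 ≤ K * τ := one_le_mul_of_one_le_of_one_le hK1 hτ1
  have hK2τ : K ^ 2 ≤ K ^ 2 * τ := le_mul_of_one_le_right (by positivity) hτ1
  have hττ : τ ≤ K ^ 2 * τ := le_mul_of_one_le_left (by positivity) hK2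
  have hW1024 : 1024 ≤ W := by linarith
  have hWτ : 1024 * τ ≤ W := by linarith
  have hWK : 1024 * K ^ 2 ≤ W := by linarith
  have hxle1 : |x| ≤ 1 := hx1.trans ((div_le_one hWpos).2 hW1)
  have hEx : (E : ℝ) * |x| * (1024 * K * τ) ≤ 1 := by
    calc (E : ℝ) * |x| * (1024 * K * τ) ≤ K * |x| * (1024 * K * τ) := by gcongr
      _ = |x| * (1024 * (K ^ 2 * τ)) := by ring
      _ ≤ |x| * W := by gcongr
      _ ≤ 1 := hxW
  have hEx0 : 0 ≤ (E : ℝ) * |x| := by positivity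
  have hEx1 : (E : ℝ) * |x| * 1024 ≤ 1 := by
    refine le_trans ?_ hEx
    apply mul_le_mul_of_nonneg_left _ hEx0
    linarith
  have hq1 : 1 ≤ q := by have := h.q2; omega
  have hr1 : 1 ≤ r := by have := h.r2; omega
  have hB1 : 1 ≤ 2 ^ S * (2 ^ (3 * S)) ^ S := Nat.mul_pos (by positivity) (by positivity)
  have hA := near_one hG'0 hq1 h.qM hG'D hS1 hB1 hG'B (x := x) (by rw [← hEdef]; linarith)
  have hB := near_one hH'0 hr1 h.rM hH'D hS1 hB1 hH'B (x := x) (by rw [← hEdef]; linarith)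
  have hx8 : 8 * (E : ℝ) ^ (2 * S + 2) * |x| ≤ 1 := by
    have h1 : (E : ℝ) ^ (2 * S + 2) ≤ K ^ 2 := by
      calc (E : ℝ) ^ (2 * S + 2) ≤ (E : ℝ) ^ (2 * (2 * S + 1)) :=
            pow_le_pow_right₀ hE1R (by omega)
        _ ≤ 2 ^ (2 * S₁) := by exact_mod_cast hEn
        _ = K ^ 2 := by rw [hK, ← pow_mul, mul_comm]
    calc 8 * (E : ℝ) ^ (2 * S + 2) * |x| ≤ 8 * K ^ 2 * |x| := by gcongr
      _ = |x| * (8 * K ^ 2) := by ring
      _ ≤ |x| * W := by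
        apply mul_le_mul_of_nonneg_left _ hx0
        linarith
      _ ≤ 1 := hxW
  have hcop1 : IsCoprime (toQ G.reverse) (toQ H.reverse) := by
    rw [toQ_reverse, toQ_reverse]
    refine cop_reverse h.cop ?_
    intro h0
    exact hGne (toQ_inj (by rw [h0]; simp [toQ]))
  have hcop' : IsCoprime (toQ G') (toQ H') :=
    cop_scale hG' hH' (by rw [← hb]; exact hb0) (by rw [← hc]; exact hc0) hcop1
  have hdG : G'.natDegree = G.natDegree := by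
    rw [natDegree_scale hG' (by rw [← hb]; exact hb0) hlam0, reverse_natDegree,
      natTrailingDegree_eq_zero.2 (Or.inr hGc0), Nat.sub_zero]
  have hdH : H'.natDegree = H.natDegree := by
    rw [natDegree_scale hH' (by rw [← hc]; exact hc0) hlam0, reverse_natDegree,
      natTrailingDegree_eq_zero.2 (Or.inr hHc0), Nat.sub_zero]
  have hlow := diff_lower hG'0 hH'0 hcop' (by rw [hdG, hdH]; exact hnc) hq1 hr1 h.qM h.rM hG'D hH'D
    hS1 hB1 hG'B hH'B (x := x) (by rw [← hEdef]; linarith) hxle1 (by rw [← hEdef]; exact hx8)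
  rw [← hEdef] at hA hB
  obtain ⟨A, hAdef⟩ : ∃ A : ℝ, A = (aeval x G') ^ q := ⟨_, rfl⟩
  obtain ⟨B, hBdef⟩ : ∃ B : ℝ, B = (aeval x H') ^ r := ⟨_, rfl⟩
  rw [← hAdef, ← hBdef] at hlow
  rw [← hAdef] at hA
  rw [← hBdef] at hB
  have hA2 := abs_le.1 hA
  have hB2 := abs_le.1 hB
  have hApos : 1 / 2 ≤ A := by linarith [hA2.1]
  have hBpos : 1 / 2 ≤ B := by linarith [hB2.1]
  obtain ⟨j, hj⟩ : ∃ j, j = G.natDegree := ⟨_, rfl⟩
  obtain ⟨k, hk⟩ : ∃ k, k = H.natDegree := ⟨_, rfl⟩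
  rw [← hj] at hGv
  rw [← hk] at hHv ⊢
  obtain ⟨P₁, hP₁⟩ : ∃ P : ℝ, P = |(b : ℝ)| ^ q * W ^ (j * q) := ⟨_, rfl⟩
  obtain ⟨P₂, hP₂⟩ : ∃ P : ℝ, P = |(c : ℝ)| ^ r * W ^ (k * r) := ⟨_, rfl⟩
  have habsb : |(b : ℝ)| = (b.natAbs : ℝ) := by rw [Nat.cast_natAbs, Int.cast_abs]
  have habsc : |(c : ℝ)| = (c.natAbs : ℝ) := by rw [Nat.cast_natAbs, Int.cast_abs]
  have hb1 : (1 : ℝ) ≤ |(b : ℝ)| := by
    rw [habsb]
    exact_mod_cast Int.natAbs_pos.2 hb0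
  have hc1 : (1 : ℝ) ≤ |(c : ℝ)| := by
    rw [habsc]
    exact_mod_cast Int.natAbs_pos.2 hc0
  have hP₁pos : 0 < P₁ := by rw [hP₁]; positivity
  have hP₂pos : 0 < P₂ := by rw [hP₂]; positivity
  obtain ⟨Y, hY⟩ : ∃ Y : ℝ, Y = |((G.eval w : ℤ) : ℝ)| ^ q := ⟨_, rfl⟩
  obtain ⟨Z, hZ⟩ : ∃ Z : ℝ, Z = |((H.eval w : ℤ) : ℝ)| ^ r := ⟨_, rfl⟩
  have hYA : Y = P₁ * A := by
    have : A = |(aeval x G' : ℝ)| ^ q := by
      rw [← abs_pow, ← hAdef, abs_of_pos (by linarith)]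
    rw [hY, hGv, abs_mul, abs_mul, abs_pow, hWabs, mul_pow, mul_pow, ← pow_mul, hP₁, this]
  have hZB : Z = P₂ * B := by
    have : B = |(aeval x H' : ℝ)| ^ r := by
      rw [← abs_pow, ← hBdef, abs_of_pos (by linarith)]
    rw [hZ, hHv, abs_mul, abs_mul, abs_pow, hWabs, mul_pow, mul_pow, ← pow_mul, hP₂, this]
  have hZn : Z = (((H.eval w).natAbs ^ r : ℕ) : ℝ) := by
    rw [hZ]
    push_cast
    rw [Nat.cast_natAbs, Int.cast_abs]
  have hYpos : 0 < Y := by rw [hYA]; exact mul_pos hP₁pos (by linarith)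
  have hZpos : 0 < Z := by rw [hZB]; exact mul_pos hP₂pos (by linarith)
  constructor
  swap
  · have h1 : W ^ (k * r) ≤ 2 * Z := by
      rw [hZB, hP₂]
      have h2 : 1 ≤ |(c : ℝ)| ^ r := one_le_pow₀ hc1
      calc W ^ (k * r) = 2 * (1 * W ^ (k * r) * (1 / 2)) := by ring
        _ ≤ 2 * (|(c : ℝ)| ^ r * W ^ (k * r) * B) := by gcongr
    rw [hZn, hW] at h1
    exact_mod_cast h1
  by_contra hcon
  push Not at hcon
  have hZW : W ^ (E₁ + 2 * S + 2) ≤ Z := by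
    rw [hZn, hW]
    exact_mod_cast hcon.le
  have hZW' : W ^ (E₁ + 2 * S + 2) < Z := by
    rw [hZn, hW]
    exact_mod_cast hcon
  have hXW : (((|(F.eval w) ^ p| : ℤ)) : ℝ) ≤ W ^ E₁ := by
    rw [hW]
    have h1 : |(F.eval w) ^ p| = (((F.eval w).natAbs ^ p : ℕ) : ℤ) := by
      rw [abs_pow]
      push_cast
      rfl
    rw [h1, Int.cast_natCast]
    exact_mod_cast hX
  have hYZ : |Y - Z| ≤ W ^ E₁ := by
    have h1 := triangle h.s1 h.s2 h.s3 heq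
    rw [abs_pow (G.eval w), abs_pow (H.eval w)] at h1
    push_cast at h1
    rw [← hY, ← hZ] at h1
    refine h1.trans ?_
    push_cast at hXW
    exact hXW
  have hWinv : 1 / W * W = 1 := by field_simp
  have hδ : 1 / W ≤ 1 / 1024 := by
    exact one_div_le_one_div_of_le (by norm_num) hW1024
  have hlogs : |Real.log P₁ - Real.log P₂| ≤ 2 * (1 / W) + 8 * ((E : ℝ) * |x|) := by
    refine log_part hP₁pos hP₂pos hA hB (by linarith) (by linarith) ?_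
    rw [← hYA, ← hZB]
    refine hYZ.trans ?_
    rw [one_div, ← div_eq_inv_mul, le_div_iff₀ hWpos]
    refine le_trans ?_ hZW
    rw [← pow_succ]
    exact pow_le_pow_right₀ hW1 (by omega)
  have hsmall : |Real.log P₁ - Real.log P₂| < (1 / 2) ^ T := by
    have h1 : (1 / 2 : ℝ) ^ T = 1 / τ := by rw [hτ, div_pow, one_pow]
    rw [h1]
    refine lt_of_le_of_lt hlogs ?_
    have h2 : 2 * (1 / W) ≤ 1 / 4 * (1 / τ) := by
      rw [mul_one_div, mul_one_div, div_le_div_iff₀ hWpos (by linarith)]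
      linarith
    have h3 : 8 * ((E : ℝ) * |x|) ≤ 1 / 4 * (1 / τ) := by
      rw [mul_one_div, le_div_iff₀ (by linarith)]
      have h4 : (E : ℝ) * |x| * τ ≤ (E : ℝ) * |x| * (K * τ) := by
        apply mul_le_mul_of_nonneg_left _ hEx0
        exact le_mul_of_one_le_left (by linarith) hK1
      have h6 : (E : ℝ) * |x| * (1024 * K * τ) = 1024 * ((E : ℝ) * |x| * (K * τ)) := by ring
      rw [h6] at hEx
      linarith
    have h5 : 0 < 1 / τ := by positivity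
    linarith
  have hPP : P₁ = P₂ := forms hWB h.prime.one_lt.le h.lS hSg hg hu0 hb0 hc0 h.uS hbB hcB h.qM h.rM
    (by rw [hj]; exact h.GD) (by rw [hk]; exact h.HD) (by rw [hW, hw]) hP₁ hP₂ hsmall
  rw [hYA, hZB, hPP, ← mul_sub, abs_mul, abs_of_pos hP₂pos] at hYZ
  -- the final contradiction
  have hxlow : 1 ≤ |x| * (2 ^ (2 * S) * W) := by
    rw [hxabs]
    have h1 : 0 < |(lam : ℝ)| * W := by positivity
    rw [one_div, ← div_eq_inv_mul, le_div_iff₀ h1, one_mul]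
    exact mul_le_mul_of_nonneg_right hlam2 hWpos.le
  have h1 : 1 ≤ |x| ^ (2 * S + 1) * (2 ^ (2 * S) * W) ^ (2 * S + 1) := by
    rw [← mul_pow]
    exact one_le_pow₀ hxlow
  obtain ⟨V, hV⟩ : ∃ V : ℝ, V = (2 ^ (2 * S) * W) ^ (2 * S + 1) := ⟨_, rfl⟩
  rw [← hV] at h1
  have hVpos : 0 < V := by rw [hV]; positivity
  have h2 : P₂ ≤ 2 * W ^ E₁ * V := by
    calc P₂ = P₂ * 1 := by ring
      _ ≤ P₂ * (|x| ^ (2 * S + 1) * V) := by gcongr
      _ ≤ P₂ * ((2 * |A - B|) * V) := by gcongr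
      _ = 2 * (P₂ * |A - B|) * V := by ring
      _ ≤ 2 * W ^ E₁ * V := by gcongr
  have hB3 : B ≤ 2 := by linarith [hB2.2]
  have h3 : Z ≤ 4 * W ^ E₁ * V := by
    rw [hZB]
    calc P₂ * B ≤ (2 * W ^ E₁ * V) * 2 := by gcongr
      _ = _ := by ring
  have h4 : (4 : ℝ) * (2 ^ (2 * S)) ^ (2 * S + 1) ≤ W := by
    have h5 : (((2 : ℝ)) ^ (2 * S)) ^ (2 * S + 1) ≤ K ^ 2 := by
      calc ((2 : ℝ) ^ (2 * S)) ^ (2 * S + 1) = ((2 : ℝ) ^ S) ^ (2 * (2 * S + 1)) := by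
            rw [← pow_mul, ← pow_mul]
            ring_nf
        _ ≤ (E : ℝ) ^ (2 * (2 * S + 1)) := by
            apply pow_le_pow_left₀ (by positivity)
            exact_mod_cast hES
        _ ≤ 2 ^ (2 * S₁) := by exact_mod_cast hEn
        _ = K ^ 2 := by rw [hK, ← pow_mul, mul_comm]
    linarith
  have h5 : 4 * W ^ E₁ * V ≤ W ^ (E₁ + 2 * S + 2) := by
    rw [hV, mul_pow]
    calc 4 * W ^ E₁ * ((2 ^ (2 * S)) ^ (2 * S + 1) * W ^ (2 * S + 1)) =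
        W ^ (E₁ + 2 * S + 1) * (4 * (2 ^ (2 * S)) ^ (2 * S + 1)) := by ring
      _ ≤ W ^ (E₁ + 2 * S + 1) * W := by gcongr
      _ = _ := by ring
  linarith

end Pool.Agent.T44.FC
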