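import Mathlib
import Pool.Agent.T44.FC.Arch

/-!
# No solution at a highly divisible argument
-/

set_option autoImplicit false

namespace Pool.Agent.T44.FC

open Polynomial Finset
open Pool.Agent.R477.FC (toQ toQ_inj toQ_mul Sg)

/-- the exponent of a constant base -/
theorem const_exp {ℓ m S M : ℕ} {u : ℤ} {F G H : ℤ[X]} {p q r : ℕ} {a₁ a₂ a₃ : ℤ}
    (h : Dat ℓ m S M u F G H p q r a₁ a₂ a₃) {E S₂ T₂ : ℕ} (hp : p ≤ E) (hr : r ≤ E)
    (hS₂ : S * E + 1 ≤ S₂) (hSS : S ≤ S₂) (hM : 2 * M ≤ 2 ^ S₂) (hBK : BK ℓ S₂ T₂) (hT₂ : T₂ ≤ m)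
    (hG : G.natDegree = 0) (hg2 : 2 ≤ (G.eval ((ℓ : ℤ) ^ m * u)).natAbs) (hm : m ≠ 0) : q ≤ S₂ := by
  obtain ⟨w, hw⟩ : ∃ w, w = (ℓ : ℤ) ^ m * u := ⟨_, rfl⟩
  have hlw : (ℓ : ℤ) ^ T₂ ∣ w := by
    rw [hw]
    exact (pow_dvd_pow _ hT₂).mul_right _
  have hlw1 : (ℓ : ℤ) ∣ w := by
    rw [hw]
    exact (dvd_pow_self _ hm).mul_right _
  have hlG := h.lG
  have heq := h.eq
  rw [← hw] at hlG heq hg2
  obtain ⟨g₀, hg₀⟩ : ∃ g, g = G.coeff 0 := ⟨_, rfl⟩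
  have hGC : G = C g₀ := by rw [hg₀]; exact eq_C_of_natDegree_eq_zero hG
  have hGw : G.eval w = g₀ := by rw [hGC, eval_C]
  rw [hGw] at hlG heq hg2
  have hgB : g₀.natAbs ≤ 2 ^ S := by rw [hg₀]; exact h.GB 0
  obtain ⟨a₀, ha₀⟩ : ∃ a, a = a₁ * (F.coeff 0) ^ p + a₃ * (H.coeff 0) ^ r := ⟨_, rfl⟩
  have key : ∀ (P : ℤ[X]) (k : ℕ), (ℓ : ℤ) ^ T₂ ∣ (P.eval w) ^ k - (P.coeff 0) ^ k := fun P k =>
    (hlw.trans (eval_sub_dvd P w)).trans (sub_dvd_pow_sub_pow _ _ _)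
  have h1 : (ℓ : ℤ) ^ T₂ ∣ a₂ * g₀ ^ q + a₀ := by
    have e1 : a₂ * g₀ ^ q + a₀ = -(a₁ * ((F.eval w) ^ p - (F.coeff 0) ^ p)) -
        a₃ * ((H.eval w) ^ r - (H.coeff 0) ^ r) := by
      rw [ha₀]
      linear_combination heq
    rw [e1]
    exact ((key F p).mul_left _).neg_right.sub ((key H r).mul_left _)
  have h1' : (ℓ : ℤ) ∣ a₂ * g₀ ^ q + a₀ := by
    have e1 : a₂ * g₀ ^ q + a₀ = -(a₁ * ((F.eval w) ^ p - (F.coeff 0) ^ p)) -
        a₃ * ((H.eval w) ^ r - (H.coeff 0) ^ r) := by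
      rw [ha₀]
      linear_combination heq
    have key' : ∀ (P : ℤ[X]) (k : ℕ), (ℓ : ℤ) ∣ (P.eval w) ^ k - (P.coeff 0) ^ k := fun P k =>
      (hlw1.trans (eval_sub_dvd P w)).trans (sub_dvd_pow_sub_pow _ _ _)
    rw [e1]
    exact ((key' F p).mul_left _).neg_right.sub ((key' H r).mul_left _)
  have hprime := Nat.prime_iff_prime_int.1 h.prime
  have hla : ¬ (ℓ : ℤ) ∣ a₀ := by
    intro h0
    have h2 : (ℓ : ℤ) ∣ a₂ * g₀ ^ q := (dvd_add_left h0).1 h1'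
    exact not_dvd_sg h.s2 (fun h3 => hlG (hprime.dvd_of_dvd_pow h3)) h2
  have h2E : (2 : ℕ) ^ (S * E) * 2 ≤ 2 ^ S₂ := by
    rw [← pow_succ]
    exact Nat.pow_le_pow_right (by norm_num) hS₂
  have haB : a₀.natAbs ≤ 2 ^ S₂ := by
    have k : ∀ (c : ℤ) (n : ℕ) (s : ℤ), Sg s → c.natAbs ≤ 2 ^ S → n ≤ E →
        (s * c ^ n).natAbs ≤ 2 ^ (S * E) := by
      intro c n s hs hc hn
      rw [Int.natAbs_mul, Sg.natAbs hs, one_mul, Int.natAbs_pow, pow_mul]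
      exact (Nat.pow_le_pow_left hc _).trans (Nat.pow_le_pow_right (by positivity) hn)
    rw [ha₀]
    have k1 := k (F.coeff 0) p a₁ h.s1 (h.FB 0) hp
    have k2 := k (H.coeff 0) r a₃ h.s3 (h.HB 0) hr
    have k3 := Int.natAbs_add_le (a₁ * (F.coeff 0) ^ p) (a₃ * (H.coeff 0) ^ r)
    omega
  have hgn : ¬ ℓ ∣ g₀.natAbs := by rwa [← Int.natCast_dvd]
  have han : ¬ ℓ ∣ a₀.natAbs := by rwa [← Int.natCast_dvd]
  have hone : ¬ ℓ ∣ 1 := fun h0 => h.prime.one_lt.ne' (Nat.dvd_one.1 h0)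
  have hpos : 1 ≤ 2 ^ S₂ := Nat.one_le_two_pow
  have hSS' : 2 ^ S ≤ 2 ^ S₂ := Nat.pow_le_pow_right (by norm_num) hSS
  have hqM := h.qM
  have hq2 := h.q2
  have h3 := hBK ![g₀.natAbs, a₀.natAbs, 1, 1, 1] ![q, 0, 0, 0, 0]
    ![0, 1, 0, 0, 0] (by
      intro i
      fin_cases i
      · exact hgn
      · exact han
      · exact hone
      · exact hone
      · exact hone)
    (by
      intro i
      fin_cases i
      · exact hgB.trans hSS'
      · exact haB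
      · exact hpos
      · exact hpos
      · exact hpos)
    (by
      intro i
      fin_cases i
      · change 2 * q ≤ _
        omega
      all_goals exact Nat.zero_le _)
    (by
      intro i
      fin_cases i
      · exact Nat.zero_le _
      · change 2 * 1 ≤ _
        omega
      all_goals exact Nat.zero_le _)
    (by
      simp only [Fin.prod_univ_five, Matrix.cons_val_zero, Matrix.cons_val_one, Matrix.cons_val]
      push_cast
      simp only [pow_zero, mul_one, one_mul, pow_one]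
      rw [← pow_mul, mul_comm q 2, pow_mul, sq_abs, sq_abs, ← pow_mul, mul_comm 2 q, pow_mul,
        ← sg_sq (y := g₀ ^ q) h.s2, sq_sub_sq]
      exact h1.mul_right _)
  simp only [Fin.prod_univ_five, Matrix.cons_val_zero, Matrix.cons_val_one, Matrix.cons_val,
    pow_zero, mul_one, one_mul, pow_one] at h3
  have h4 : 2 ^ q ≤ 2 ^ S₂ := by
    calc 2 ^ q ≤ g₀.natAbs ^ q := Nat.pow_le_pow_left hg2 _
      _ = a₀.natAbs := h3
      _ ≤ _ := haB
  exact (Nat.pow_le_pow_iff_right (by norm_num)).1 h4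

/-- three powers with small exponents -/
theorem small_exps {S Q : ℕ} {w : ℤ} {F G H : ℤ[X]} {p q r : ℕ} {a₁ a₂ a₃ : ℤ} (hS : 1 ≤ S)
    (hF : F ≠ 0) (hG : G ≠ 0) (hH : H ≠ 0) (hnc : 0 < G.natDegree ∨ 0 < H.natDegree)
    (hcop : IsCoprime (toQ G) (toQ H))
    (FD : F.natDegree ≤ S) (GD : G.natDegree ≤ S) (HD : H.natDegree ≤ S)
    (FB : ∀ j, (F.coeff j).natAbs ≤ 2 ^ S) (GB : ∀ j, (G.coeff j).natAbs ≤ 2 ^ S)
    (HB : ∀ j, (H.coeff j).natAbs ≤ 2 ^ S) (hp : 1 ≤ p) (hq : 1 ≤ q) (hr : 1 ≤ r)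
    (hpQ : p ≤ Q) (hqQ : q ≤ Q) (hrQ : r ≤ Q) (hyp : q * r + r * p + p * q ≤ p * q * r)
    (s1 : Sg a₁) (s2 : Sg a₂) (s3 : Sg a₃)
    (heq : a₁ * (F.eval w) ^ p + a₂ * (G.eval w) ^ q + a₃ * (H.eval w) ^ r = 0)
    (hw : 2 ^ (S * Q * (1 + Q + S) + 2) ≤ w.natAbs) : False := by
  have hinj : Function.Injective (Int.castRingHom ℚ) := RingHom.injective_int _
  have hne : ∀ {P : ℤ[X]}, P ≠ 0 → toQ P ≠ 0 := fun {P} hP => (Polynomial.map_ne_zero_iff hinj).mpr hP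
  have hcast : ∀ {a : ℤ}, Sg a → (a : ℚ) ≠ 0 := fun {a} ha => by exact_mod_cast ha.ne
  obtain ⟨P, hP⟩ : ∃ P : ℤ[X], P = C a₁ * F ^ p + C a₂ * G ^ q + C a₃ * H ^ r := ⟨_, rfl⟩
  have hP0 : P ≠ 0 := by
    intro h0
    have h4 : C (a₂ : ℚ) * (toQ G) ^ q + C (a₃ : ℚ) * (toQ H) ^ r + C (a₁ : ℚ) * (toQ F) ^ p = 0 := by
      have := congrArg toQ h0
      simp only [hP, toQ, Polynomial.map_add, Polynomial.map_mul, Polynomial.map_pow, map_C,
        Polynomial.map_zero] at this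
      simp only [eq_intCast] at this
      linear_combination this
    have h5 := Polynomial.flt_catalan (k := ℚ) (p := q) (q := r) (r := p) (by omega) (by omega)
      (by omega) (by nlinarith) (by exact_mod_cast (by omega : q ≠ 0))
      (by exact_mod_cast (by omega : r ≠ 0)) (by exact_mod_cast (by omega : p ≠ 0))
      (a := toQ G) (b := toQ H) (c := toQ F) (hne hG) (hne hH) (hne hF) hcop (hcast s2) (hcast s3)
      (hcast s1) h4
    have h6 : (toQ G).natDegree = G.natDegree := natDegree_map_eq_of_injective hinj G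
    have h7 : (toQ H).natDegree = H.natDegree := natDegree_map_eq_of_injective hinj H
    omega
  have hQ : 1 ≤ Q := by omega
  have hQS : Q * S ≤ 2 ^ (Q + S) := by
    rw [pow_add]
    exact Nat.mul_le_mul Nat.lt_two_pow_self.le Nat.lt_two_pow_self.le
  have key : ∀ (R : ℤ[X]) (k : ℕ) (s : ℤ), Sg s → R.natDegree ≤ S → (∀ j, (R.coeff j).natAbs ≤ 2 ^ S) →
      1 ≤ k → k ≤ Q → ∀ i, |(C s * R ^ k).coeff i| ≤ 2 ^ (S * Q * (1 + Q + S)) := by
    intro R k s hs hRD hRB hk hkQ i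
    rw [coeff_C_mul, abs_mul]
    have hsa : |s| = 1 := by rcases hs with rfl | rfl <;> simp
    rw [hsa, one_mul]
    rcases Nat.lt_or_ge (S * Q) i with hi | hi
    · rw [coeff_eq_zero_of_natDegree_lt, abs_zero]
      · positivity
      · refine lt_of_le_of_lt ?_ hi
        rw [natDegree_pow, mul_comm S Q]
        exact Nat.mul_le_mul hkQ hRD
    · have h1 := Pool.Agent.N741.FD.coeff_pow_bound (a := 2 ^ S) (B := 1) le_rfl hS (hRB 0)
        (fun j => by rw [mul_one]; exact hRB j) hRD k hk i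
      have h2 : ((R ^ k).coeff i).natAbs ≤ 2 ^ (S * Q * (1 + Q + S)) := by
        refine h1.trans ?_
        rw [mul_one]
        calc (2 ^ S) ^ k * (k * S) ^ i ≤ (2 ^ S) ^ Q * (Q * S) ^ i := by
              gcongr
              exact Nat.one_le_two_pow
          _ ≤ (2 ^ S) ^ Q * (Q * S) ^ (S * Q) := by
              apply Nat.mul_le_mul_left
              exact Nat.pow_le_pow_right (Nat.mul_pos hQ hS) hi
          _ ≤ (2 ^ S) ^ Q * (2 ^ (Q + S)) ^ (S * Q) := by gcongr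
          _ = _ := by rw [← pow_mul, ← pow_mul, ← pow_add]; ring_nf
      rw [Int.abs_eq_natAbs]
      exact_mod_cast h2
  have hcoef : ∀ i, |P.coeff i| ≤ 3 * 2 ^ (S * Q * (1 + Q + S)) := by
    intro i
    have k1 := key F p a₁ s1 FD FB hp hpQ i
    have k2 := key G q a₂ s2 GD GB hq hqQ i
    have k3 := key H r a₃ s3 HD HB hr hrQ i
    rw [hP, coeff_add, coeff_add]
    have k4 := abs_add_three ((C a₁ * F ^ p).coeff i) ((C a₂ * G ^ q).coeff i)
      ((C a₃ * H ^ r).coeff i)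
    linarith
  refine Pool.Agent.R477.FC.root_bound P hP0 _ hcoef w ?_ ?_
  · have h1 : (2 : ℤ) ^ (S * Q * (1 + Q + S) + 2) ≤ |w| := by
      rw [Int.abs_eq_natAbs]
      exact_mod_cast hw
    have h2 : (0 : ℤ) < 2 ^ (S * Q * (1 + Q + S)) := by positivity
    rw [pow_add] at h1
    linarith
  · rw [hP]
    simp only [eval_add, eval_mul, eval_C, eval_pow]
    exact heq

/-- the exponent of a base in the second case -/
theorem exp_of_deg {W Z k r E : ℕ} (hk : 0 < k) (hW : 3 ≤ W) (h1 : W ^ (k * r) ≤ 2 * Z)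
    (h2 : Z ≤ W ^ E) : r ≤ E := by
  have h3 : W ^ r < W ^ (E + 1) := by
    calc W ^ r ≤ W ^ (k * r) := Nat.pow_le_pow_right (by omega) (Nat.le_mul_of_pos_left _ hk)
      _ ≤ 2 * W ^ E := by omega
      _ < W ^ (E + 1) := by
        rw [pow_succ, mul_comm]
        exact Nat.mul_lt_mul_of_pos_left (by omega) (Nat.pow_pos (by omega))
  have := (Nat.pow_lt_pow_iff_right (by omega : 1 < W)).1 h3
  omega

/-- **No solutions.** -/
theorem main_dat {ℓ m S M : ℕ} {u : ℤ} {F G H : ℤ[X]} {p q r : ℕ} {a₁ a₂ a₃ : ℤ}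
    (h : Dat ℓ m S M u F G H p q r a₁ a₂ a₃) (hnc : 0 < G.natDegree ∨ 0 < H.natDegree)
    (hG1 : (G.eval ((ℓ : ℤ) ^ m * u)).natAbs = 1 → q ≤ 7)
    (hH1 : (H.eval ((ℓ : ℤ) ^ m * u)).natAbs = 1 → r ≤ 7)
    {S₁ T g T₁ E S₂ T₂ : ℕ}
    (hE : 2 * (M * S * (2 ^ S * (2 ^ (3 * S)) ^ S)) ^ (2 * S + 1) ≤ 2 ^ S₁)
    (hexp : 2 * (S * M + M + 2 * S + 1) ≤ 2 ^ S₁) (hBK : BK ℓ S₁ T) (hT : 2 ≤ T)
    (hTm : 2 * S + 5 * S₁ + T + 10 ≤ m) (hWB : WBc g T₁) (hSg : S ≤ g)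
    (hg : M * S * m + M * S ≤ 2 ^ g) (hm : 2 * S₁ + T₁ + 10 ≤ m) (hEd : E = (S + 1) * T + 2 * S + 2)
    (hS₂ : S₂ = S * E + 1 + S + S₁) (hBK₂ : BK ℓ S₂ T₂) (hT₂ : T₂ ≤ m)
    (hfin : S * (S₂ + E + 7) * (1 + (S₂ + E + 7) + S) + 2 ≤ m) : False := by
  by_cases hd : (ℓ : ℤ) ^ T ∣ (F.eval ((ℓ : ℤ) ^ m * u)) ^ p
  · exact case_one h hnc hE hexp hBK hT hTm hd
  have hS1 : 1 ≤ S := h.prime.one_lt.le.trans h.lS
  have hu0 : u ≠ 0 := fun h0 => h.hu (by rw [h0]; exact dvd_zero _)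
  have hpT : p < T := by
    by_contra hcon
    push Not at hcon
    exact hd ((pow_dvd_pow _ hcon).trans (pow_dvd_pow_of_dvd h.lF p))
  have hWn : 2 ^ m ≤ ((ℓ : ℤ) ^ m * u).natAbs := by
    rw [Int.natAbs_mul, Int.natAbs_pow, Int.natAbs_natCast]
    calc 2 ^ m ≤ ℓ ^ m := Nat.pow_le_pow_left h.prime.two_le _
      _ = ℓ ^ m * 1 := by ring
      _ ≤ _ := Nat.mul_le_mul_left _ (Int.natAbs_pos.2 hu0)
  have hX : (F.eval ((ℓ : ℤ) ^ m * u)).natAbs ^ p ≤ ((ℓ : ℤ) ^ m * u).natAbs ^ ((S + 1) * T) := by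
    have hwabs : (1 : ℤ) ≤ |(ℓ : ℤ) ^ m * u| := by
      rw [Int.abs_eq_natAbs]
      exact_mod_cast Nat.one_le_two_pow.trans hWn
    have h1 := Pool.Agent.R477.FC.eval_le F (S + 1) (2 ^ S) (by have := h.FD; omega)
      (fun i => by
        rw [Int.abs_eq_natAbs]
        exact_mod_cast h.FB i) _ hwabs
    rw [Nat.add_sub_cancel, Int.abs_eq_natAbs, Int.abs_eq_natAbs] at h1
    have h2 : (F.eval ((ℓ : ℤ) ^ m * u)).natAbs ≤
        2 ^ S * (S + 1) * ((ℓ : ℤ) ^ m * u).natAbs ^ S := by exact_mod_cast h1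
    have h3 : 2 ^ S * (S + 1) ≤ ((ℓ : ℤ) ^ m * u).natAbs := by
      refine le_trans ?_ hWn
      calc 2 ^ S * (S + 1) ≤ 2 ^ S * 2 ^ S := Nat.mul_le_mul_left _ Nat.lt_two_pow_self
        _ = 2 ^ (2 * S) := by rw [← pow_add]; ring_nf
        _ ≤ _ := Nat.pow_le_pow_right (by norm_num) (by omega)
    have h4 : (F.eval ((ℓ : ℤ) ^ m * u)).natAbs ≤ ((ℓ : ℤ) ^ m * u).natAbs ^ (S + 1) := by
      refine h2.trans ?_
      rw [pow_succ, mul_comm (((ℓ : ℤ) ^ m * u).natAbs ^ S)]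
      exact Nat.mul_le_mul_right _ h3
    calc _ ≤ (((ℓ : ℤ) ^ m * u).natAbs ^ (S + 1)) ^ p := Nat.pow_le_pow_left h4 _
      _ = ((ℓ : ℤ) ^ m * u).natAbs ^ ((S + 1) * p) := by rw [← pow_mul]
      _ ≤ _ := Nat.pow_le_pow_right (Nat.one_le_two_pow.trans hWn) (Nat.mul_le_mul_left _ hpT.le)
  obtain ⟨hZ, hZ'⟩ := case_arch h hnc hE hWB hSg hg hm hX
  obtain ⟨hY, hY'⟩ := case_arch h.swap hnc.symm hE hWB hSg hg hm hX
  have hEe : (S + 1) * T + 2 * S + 2 = E := hEd.symm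
  rw [hEe] at hZ hY
  have hW3 : 3 ≤ ((ℓ : ℤ) ^ m * u).natAbs := by
    refine le_trans ?_ hWn
    calc 3 ≤ 2 ^ 10 := by norm_num
      _ ≤ 2 ^ m := Nat.pow_le_pow_right (by norm_num) (by omega)
  have hr : 0 < H.natDegree → r ≤ E := fun hk => exp_of_deg hk hW3 hZ' hZ
  have hq : 0 < G.natDegree → q ≤ E := fun hk => exp_of_deg hk hW3 hY' hY
  have hTE : T ≤ E := by
    have : T ≤ (S + 1) * T := Nat.le_mul_of_pos_left _ (by omega)
    omega
  have hpE : p ≤ E := by omega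
  have hm0 : m ≠ 0 := by omega
  have hM2 : 2 * M ≤ 2 ^ S₂ := by
    have h1 : 2 ^ S₁ ≤ 2 ^ S₂ := Nat.pow_le_pow_right (by norm_num) (by omega)
    have h2 : 2 * M ≤ 2 * (S * M + M + 2 * S + 1) := by
      have := Nat.zero_le (S * M)
      omega
    omega
  have hGne : G ≠ 0 := by
    rintro rfl
    have := h.lG
    simp at this
  have hHne : H ≠ 0 := by
    rintro rfl
    have := h.lH
    simp at this
  have hFne : F ≠ 0 := by
    rintro rfl
    have := h.F0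
    simp at this
  have hGv : (G.eval ((ℓ : ℤ) ^ m * u)).natAbs ≠ 0 := by
    intro h0
    rw [Int.natAbs_eq_zero] at h0
    have := h.lG
    rw [h0] at this
    simp at this
  have hHv : (H.eval ((ℓ : ℤ) ^ m * u)).natAbs ≠ 0 := by
    intro h0
    rw [Int.natAbs_eq_zero] at h0
    have := h.lH
    rw [h0] at this
    simp at this
  have hqQ : q ≤ S₂ + E + 7 := by
    rcases Nat.eq_zero_or_pos G.natDegree with h0 | h0
    · have hH0 : 0 < H.natDegree := by omega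
      rcases Nat.lt_or_ge (G.eval ((ℓ : ℤ) ^ m * u)).natAbs 2 with h1 | h1
      · have := hG1 (by omega)
        omega
      · have := const_exp h hpE (hr hH0) (S₂ := S₂) (T₂ := T₂) (by omega) (by omega) hM2 hBK₂ hT₂ h0 h1 hm0
        omega
    · have := hq h0
      omega
  have hrQ : r ≤ S₂ + E + 7 := by
    rcases Nat.eq_zero_or_pos H.natDegree with h0 | h0
    · have hG0 : 0 < G.natDegree := by omega
      rcases Nat.lt_or_ge (H.eval ((ℓ : ℤ) ^ m * u)).natAbs 2 with h1 | h1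
      · have := hH1 (by omega)
        omega
      · have := const_exp h.swap hpE (hq hG0) (S₂ := S₂) (T₂ := T₂) (by omega) (by omega) hM2 hBK₂ hT₂
          h0 h1 hm0
        omega
    · have := hr h0
      omega
  have hp2 := h.p2
  have hq2 := h.q2
  have hr2 := h.r2
  exact small_exps hS1 hFne hGne hHne hnc h.cop h.FD h.GD h.HD h.FB h.GB h.HB (by omega) (by omega)
    (by omega) (by omega) hqQ hrQ h.hyp h.s1 h.s2 h.s3 h.eq
    ((Nat.pow_le_pow_right (by norm_num) hfin).trans hWn)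

end Pool.Agent.T44.FC
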