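import Mathlib
import Pool.Agent.T44.FC.Small
import Pool.Agent.T44.FC.Num
import Pool.Agent.N741.FD.Root

/-!
# No solutions at highly divisible arguments
-/

set_option autoImplicit false

namespace Pool.Agent.T44.FC

open Polynomial
open Pool.Agent.R477.FC (toQ toQ_inj toQ_mul Sg SSol Hyp exps vals_fin)

/-- polynomials with coprime values are coprime -/
theorem coprime_abs {F G : ℤ[X]} {B : ℕ} {w : ℤ} (hF : F ≠ 0) (hcoef : ∀ j, (F.coeff j).natAbs ≤ B)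
    (hw : B + 3 ≤ w.natAbs) (h : IsCoprime (F.eval w) (G.eval w)) : IsCoprime (toQ F) (toQ G) := by
  rcases Int.natAbs_eq w with h1 | h1
  · rw [h1] at h
    exact Pool.Agent.N741.FD.coprime_of_value hF hcoef hw h
  · rw [h1] at h
    have h2 : IsCoprime ((F.comp (-X)).eval (w.natAbs : ℤ)) ((G.comp (-X)).eval (w.natAbs : ℤ)) := by
      simpa [eval_comp] using h
    have hF' : F.comp (-X) ≠ 0 := by
      intro h0
      apply hF
      have h3 := congrArg (fun P => Polynomial.comp P (-X)) h0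
      simpa [comp_assoc] using h3
    have h3 := Pool.Agent.N741.FD.coprime_of_value hF' (B := B) (fun j => by
      rw [show (-X : ℤ[X]) = C (-1) * X by simp, comp_C_mul_X_coeff]
      rw [Int.natAbs_mul, Int.natAbs_pow]
      simpa using hcoef j) hw h2
    have h4 : ∀ P : ℤ[X], (P.comp (-X)).map (Int.castRingHom ℚ) = (toQ P).comp (-X) := by
      intro P
      rw [Polynomial.map_comp]
      simp [toQ]
    rw [h4, h4] at h3
    have h5 := h3.map (compRingHom (-X : ℚ[X]))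
    have h6 : ∀ P : ℚ[X], (compRingHom (-X : ℚ[X])) (P.comp (-X)) = P := by
      intro P
      rw [coe_compRingHom_apply, comp_assoc]
      simp
    rw [h6, h6] at h5
    exact h5

theorem num_E {s a M : ℕ} (hs : 1 ≤ s) (hM : M ≤ 2 ^ (a * s)) :
    2 * (M * s * (2 ^ s * (2 ^ (3 * s)) ^ s)) ^ (2 * s + 1) ≤ 2 ^ ((3 * a + 16) * s ^ 3) := by
  have h1 : M * s * (2 ^ s * (2 ^ (3 * s)) ^ s) ≤ 2 ^ (a * s + 2 * s + 3 * s * s) := by
    calc M * s * (2 ^ s * (2 ^ (3 * s)) ^ s) ≤ 2 ^ (a * s) * 2 ^ s * (2 ^ s * (2 ^ (3 * s)) ^ s) := by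
          gcongr
          exact Nat.lt_two_pow_self.le
      _ = _ := by rw [← pow_mul, ← pow_add, ← pow_add, ← pow_add]; ring_nf
  calc 2 * (M * s * (2 ^ s * (2 ^ (3 * s)) ^ s)) ^ (2 * s + 1) ≤
      2 * (2 ^ (a * s + 2 * s + 3 * s * s)) ^ (2 * s + 1) := by gcongr
    _ = 2 ^ ((a * s + 2 * s + 3 * s * s) * (2 * s + 1) + 1) := by rw [← pow_mul, pow_succ, mul_comm]
    _ ≤ _ := by
      apply Nat.pow_le_pow_right (by norm_num)
      have e1 : (a * s + 2 * s + 3 * s * s) * (2 * s + 1) ≤ (a * s + 2 * s + 3 * s * s) * (3 * s) :=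
        Nat.mul_le_mul_left _ (by omega)
      have e2 : s ^ 2 ≤ s ^ 3 := Nat.pow_le_pow_right hs (by norm_num)
      have e3 : 1 ≤ s ^ 3 := Nat.one_le_pow _ _ hs
      have e4 : a * s ^ 2 ≤ a * s ^ 3 := Nat.mul_le_mul_left _ e2
      have e5 : (a * s + 2 * s + 3 * s * s) * (3 * s) = 3 * (a * s ^ 2) + 6 * s ^ 2 + 9 * s ^ 3 := by
        ring
      have e6 : (3 * a + 16) * s ^ 3 = 3 * (a * s ^ 3) + 16 * s ^ 3 := by ring
      omega

theorem num_exp {s M S₁ : ℕ} (hs : 1 ≤ s) (hM : 1 ≤ M)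
    (h : 2 * (M * s * (2 ^ s * (2 ^ (3 * s)) ^ s)) ^ (2 * s + 1) ≤ 2 ^ S₁) :
    2 * (s * M + M + 2 * s + 1) ≤ 2 ^ S₁ := by
  refine le_trans ?_ h
  apply Nat.mul_le_mul_left
  have h1 : M * s * 16 ≤ M * s * (2 ^ s * (2 ^ (3 * s)) ^ s) := by
    apply Nat.mul_le_mul_left
    rw [← pow_mul, ← pow_add]
    calc 16 = 2 ^ 4 := by norm_num
      _ ≤ _ := Nat.pow_le_pow_right (by norm_num) (by nlinarith)
  have h2 : M * s * (2 ^ s * (2 ^ (3 * s)) ^ s) ≤ (M * s * (2 ^ s * (2 ^ (3 * s)) ^ s)) ^ (2 * s + 1) :=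
    Nat.le_self_pow (by omega) _
  have h3 : M ≤ M * s := Nat.le_mul_of_pos_right _ hs
  have h4 : s ≤ M * s := Nat.le_mul_of_pos_left _ hM
  have h5 : s * M = M * s := mul_comm _ _
  omega

theorem num_M {C κ s n : ℕ} (hs : 1 ≤ s) (hn : n ≤ 2 ^ s) :
    C * ((s * n + s) * (s + 1) + 2 * s) ^ κ + 7 ≤ 2 ^ ((C + 6 * κ + 3) * s) := by
  have hs2 : s + 1 ≤ 2 ^ s := Nat.lt_two_pow_self
  have h1 : (s * n + s) * (s + 1) ≤ 2 ^ (4 * s) := by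
    have h2 : n + 1 ≤ 2 ^ (2 * s) := by
      have h3 : 2 ^ (2 * s) = 2 ^ s * 2 ^ s := by rw [← pow_add]; ring_nf
      rw [h3]
      nlinarith
    calc (s * n + s) * (s + 1) = s * (n + 1) * (s + 1) := by ring
      _ ≤ 2 ^ s * 2 ^ (2 * s) * 2 ^ s :=
        Nat.mul_le_mul (Nat.mul_le_mul (by omega) h2) hs2
      _ = 2 ^ (4 * s) := by rw [← pow_add, ← pow_add]; ring_nf
  have h1' : (s * n + s) * (s + 1) + 2 * s ≤ 2 ^ (6 * s) := by
    have h4 : 2 * s ≤ 2 * 2 ^ (4 * s) := by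
      have : s ≤ 2 ^ (4 * s) := Nat.lt_two_pow_self.le.trans (Nat.pow_le_pow_right (by norm_num) (by omega))
      omega
    have h5 : 4 * 2 ^ (4 * s) ≤ 2 ^ (6 * s) := by
      calc 4 * 2 ^ (4 * s) = 2 ^ (4 * s + 2) := by rw [pow_add]; ring
        _ ≤ _ := Nat.pow_le_pow_right (by norm_num) (by omega)
    omega
  have hC : C ≤ 2 ^ (C * s) := by
    calc C ≤ 2 ^ C := Nat.lt_two_pow_self.le
      _ ≤ _ := Nat.pow_le_pow_right (by norm_num) (Nat.le_mul_of_pos_right _ hs)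
  have h8 : 8 ≤ 2 ^ (3 * s) := by
    calc 8 = 2 ^ 3 := by norm_num
      _ ≤ _ := Nat.pow_le_pow_right (by norm_num) (by omega)
  have h9 : 1 ≤ 2 ^ (C * s) * 2 ^ (6 * κ * s) := Nat.mul_pos (by positivity) (by positivity)
  calc C * ((s * n + s) * (s + 1) + 2 * s) ^ κ + 7 ≤ 2 ^ (C * s) * (2 ^ (6 * s)) ^ κ + 7 := by gcongr
    _ = 2 ^ (C * s) * 2 ^ (6 * κ * s) + 7 := by rw [← pow_mul]; ring_nf
    _ ≤ 2 ^ (C * s) * 2 ^ (6 * κ * s) * 2 ^ (3 * s) := by nlinarith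
    _ = _ := by rw [← pow_add, ← pow_add]; ring_nf

/-- the family of the bases -/
structure Fam (S ℓ : ℕ) (u : ℤ) (F G H : ℤ[X]) : Prop where
  prime : ℓ.Prime
  lS : ℓ ≤ S
  u0 : u ≠ 0
  uS : u.natAbs ≤ 2 ^ S
  FD : F.natDegree ≤ S
  GD : G.natDegree ≤ S
  HD : H.natDegree ≤ S
  FB : ∀ j, (F.coeff j).natAbs ≤ 2 ^ S
  GB : ∀ j, (G.coeff j).natAbs ≤ 2 ^ S
  HB : ∀ j, (H.coeff j).natAbs ≤ 2 ^ S
  nc1 : 0 < F.natDegree ∨ 0 < G.natDegree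
  nc2 : 0 < G.natDegree ∨ 0 < H.natDegree
  nc3 : 0 < H.natDegree ∨ 0 < F.natDegree

theorem Fam.rot {S ℓ : ℕ} {u : ℤ} {F G H : ℤ[X]} (h : Fam S ℓ u F G H) : Fam S ℓ u G H F :=
  ⟨h.prime, h.lS, h.u0, h.uS, h.GD, h.HD, h.FD, h.GB, h.HB, h.FB, h.nc2, h.nc3, h.nc1⟩

theorem Fam.mono {S S' ℓ : ℕ} {u : ℤ} {F G H : ℤ[X]} (h : Fam S ℓ u F G H) (hS : S ≤ S') :
    Fam S' ℓ u F G H := by
  have h2 : 2 ^ S ≤ 2 ^ S' := Nat.pow_le_pow_right (by norm_num) hS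
  exact ⟨h.prime, h.lS.trans hS, h.u0, h.uS.trans h2, h.FD.trans hS, h.GD.trans hS, h.HD.trans hS,
    fun j => (h.FB j).trans h2, fun j => (h.GB j).trans h2, fun j => (h.HB j).trans h2, h.nc1, h.nc2,
    h.nc3⟩

/-- values -/
theorem Fam.val_le {S ℓ n : ℕ} {u : ℤ} {F G H : ℤ[X]} (h : Fam S ℓ u F G H) :
    (F.eval ((ℓ : ℤ) ^ n * u)).natAbs ≤ 2 ^ ((S * n + S) * (S + 1) + 2 * S) := by
  have hℓ2 : ℓ ≤ 2 ^ S := h.lS.trans Nat.lt_two_pow_self.le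
  have hw : ((ℓ : ℤ) ^ n * u).natAbs ≤ 2 ^ (S * n + S) := by
    rw [Int.natAbs_mul, Int.natAbs_pow, Int.natAbs_natCast, pow_add, pow_mul]
    exact Nat.mul_le_mul (Nat.pow_le_pow_left hℓ2 _) h.uS
  have hw1 : (1 : ℤ) ≤ |(ℓ : ℤ) ^ n * u| := by
    apply Int.one_le_abs
    exact mul_ne_zero (pow_ne_zero _ (by exact_mod_cast h.prime.ne_zero)) h.u0
  have h1 := Pool.Agent.R477.FC.eval_le F (S + 1) (2 ^ S) (by have := h.FD; omega)
    (fun i => by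
      rw [Int.abs_eq_natAbs]
      exact_mod_cast h.FB i) _ hw1
  rw [Nat.add_sub_cancel, Int.abs_eq_natAbs, Int.abs_eq_natAbs] at h1
  have h2 : (F.eval ((ℓ : ℤ) ^ n * u)).natAbs ≤
      2 ^ S * (S + 1) * ((ℓ : ℤ) ^ n * u).natAbs ^ S := by exact_mod_cast h1
  refine h2.trans ?_
  calc 2 ^ S * (S + 1) * ((ℓ : ℤ) ^ n * u).natAbs ^ S ≤ 2 ^ S * 2 ^ S * (2 ^ (S * n + S)) ^ S := by
        apply Nat.mul_le_mul
        · exact Nat.mul_le_mul_left _ Nat.lt_two_pow_self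
        · exact Nat.pow_le_pow_left hw _
    _ = 2 ^ (2 * S + (S * n + S) * S) := by rw [← pow_mul, ← pow_add, ← pow_add]; ring_nf
    _ ≤ _ := by
      apply Nat.pow_le_pow_right (by norm_num)
      have : (S * n + S) * S ≤ (S * n + S) * (S + 1) := Nat.mul_le_mul_left _ (by omega)
      omega

/-- the exponent of a base `1` may be changed -/
theorem normalise {x y z p q r : ℕ} {e₁ e₂ e₃ : ℤ} (h : SSol x y z p q r e₁ e₂ e₃)
    (hyp : Hyp p q r) : ∃ p' q' r', SSol x y z p' q' r' e₁ e₂ e₃ ∧ Hyp p' q' r' ∧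
      (x = 1 → p' = 7) ∧ (y = 1 → q' = 7) ∧ (z = 1 → r' = 7) := by
  -- at most one of the bases is `1`
  have two : ∀ {x y z p q r : ℕ} {e₁ e₂ e₃ : ℤ}, SSol x y z p q r e₁ e₂ e₃ → x = 1 → y = 1 → False := by
    rintro x y z p q r e₁ e₂ e₃ h rfl rfl
    have heq := h.eq
    have hz : (z : ℤ) ^ r = 0 ∨ (z : ℤ) ^ r = 2 ∨ (z : ℤ) ^ r = -2 := by
      rcases h.s1 with h1 | h1 <;> rcases h.s2 with h2 | h2 <;> rcases h.s3 with h3 | h3 <;>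
        rw [h1, h2, h3] at heq <;> push_cast at heq <;> simp only [one_pow] at heq <;> omega
    have hz0 : (0 : ℤ) < (z : ℤ) ^ r := by
      have := h.z0
      positivity
    have hz2 : (z : ℤ) ^ r = 2 := by omega
    have hz2' : z ^ r = 2 := by exact_mod_cast hz2
    have hz3 : 2 ≤ z := by
      by_contra hcon
      have hz4 := h.z0
      have : z = 1 := by omega
      rw [this, one_pow] at hz2'
      omega
    have hr := h.r2
    have : 2 ^ 2 ≤ z ^ r := (Nat.pow_le_pow_left hz3 2).trans (Nat.pow_le_pow_right (by omega) hr)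
    omega
  have one : ∀ {x y z p q r : ℕ} {e₁ e₂ e₃ : ℤ}, SSol x y z p q r e₁ e₂ e₃ → Hyp p q r → x = 1 →
      SSol x y z 7 q r e₁ e₂ e₃ ∧ Hyp 7 q r := by
    rintro x y z p q r e₁ e₂ e₃ h hyp rfl
    refine ⟨⟨h.x0, h.y0, h.z0, h.xy, h.xz, h.yz, by norm_num, h.q2, h.r2, h.s1, h.s2, h.s3, ?_⟩, ?_⟩
    · have := h.eq
      push_cast at this ⊢
      simpa using this
    · unfold Hyp at hyp ⊢
      obtain ⟨a, rfl⟩ : ∃ a, q = a + 2 := ⟨q - 2, by have := h.q2; omega⟩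
      obtain ⟨b, rfl⟩ : ∃ b, r = b + 2 := ⟨r - 2, by have := h.r2; omega⟩
      have hab : 1 ≤ a + b := by
        by_contra hcon
        have h1 : a = 0 := by omega
        have h2 : b = 0 := by omega
        subst h1 h2
        omega
      nlinarith [Nat.zero_le (a * b)]
  rcases Nat.eq_or_lt_of_le (Nat.succ_le_of_lt h.x0) with hx | hx
  · obtain ⟨h1, h2⟩ := one h hyp hx.symm
    exact ⟨7, q, r, h1, h2, fun _ => rfl, fun h3 => (two h hx.symm h3).elim,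
      fun h3 => (two h.swap hx.symm h3).elim⟩
  rcases Nat.eq_or_lt_of_le (Nat.succ_le_of_lt h.y0) with hy | hy
  · obtain ⟨h1, h2⟩ := one h.rot (by unfold Hyp at hyp ⊢; nlinarith) hy.symm
    refine ⟨p, 7, r, h1.rot.rot, by unfold Hyp at h2 ⊢; nlinarith, fun h3 => absurd h3 (by omega),
      fun _ => rfl, fun h3 => (two h.rot hy.symm h3).elim⟩
  rcases Nat.eq_or_lt_of_le (Nat.succ_le_of_lt h.z0) with hz | hz
  · obtain ⟨h1, h2⟩ := one h.rot.rot (by unfold Hyp at hyp ⊢; nlinarith) hz.symm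
    refine ⟨p, q, 7, h1.rot, by unfold Hyp at h2 ⊢; nlinarith, fun h3 => absurd h3 (by omega),
      fun h3 => absurd h3 (by omega), fun _ => rfl⟩
  exact ⟨p, q, r, h, hyp, fun h3 => absurd h3 (by omega), fun h3 => absurd h3 (by omega),
    fun h3 => absurd h3 (by omega)⟩

theorem sign_key (e a : ℤ) (k : ℕ) (he : Sg e) :
    ∃ e' : ℤ, Sg e' ∧ e * ((a.natAbs : ℕ) : ℤ) ^ k = e' * a ^ k := by
  rcases Int.natAbs_eq a with h1 | h1
  · exact ⟨e, he, by rw [← h1]⟩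
  · refine ⟨e * (-1) ^ k, he.mul ?_, ?_⟩
    · rcases neg_one_pow_eq_or ℤ k with h2 | h2 <;> rw [h2] <;> simp [Sg]
    · conv_rhs => rw [h1]
      rw [mul_assoc, ← mul_pow]
      simp

theorem bk_of {C κ ℓ S : ℕ} (h : ∀ (a m n : Fin 5 → ℕ) (T : ℕ),
    (∀ i, ¬ ℓ ∣ a i) → (∀ i, a i ≤ 2 ^ S) → (∀ i, 2 * m i ≤ 2 ^ S) → (∀ i, 2 * n i ≤ 2 ^ S) →
    ((ℓ : ℤ) ^ T ∣ ((∏ i, a i ^ m i : ℕ) : ℤ) ^ 2 - ((∏ i, a i ^ n i : ℕ) : ℤ) ^ 2) →
    ∏ i, a i ^ m i ≠ ∏ i, a i ^ n i → T ≤ C * S ^ κ) : BK ℓ S (C * S ^ κ + 2) := by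
  intro a m n h1 h2 h3 h4 h5
  by_contra hne
  have := h a m n _ h1 h2 h3 h4 h5 hne
  omega

/-- **No solutions**, the first base being divisible by `ℓ`. -/
theorem no_solution : ∃ K₀ s₀ : ℕ, 1 ≤ K₀ ∧ 2 ≤ s₀ ∧ ∀ s n : ℕ, s₀ ≤ s → s ^ K₀ ≤ n → n ≤ 2 ^ s →
    ∀ (ℓ : ℕ) (u : ℤ) (F G H : ℤ[X]), Fam s ℓ u F G H → ∀ (p q r : ℕ) (e₁ e₂ e₃ : ℤ),
    SSol (F.eval ((ℓ : ℤ) ^ n * u)).natAbs (G.eval ((ℓ : ℤ) ^ n * u)).natAbs
      (H.eval ((ℓ : ℤ) ^ n * u)).natAbs p q r e₁ e₂ e₃ → Hyp p q r →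
    (ℓ : ℤ) ∣ F.eval ((ℓ : ℤ) ^ n * u) → False := by
  obtain ⟨C, κ, hexps⟩ := exps
  obtain ⟨C₅, κ₅, hbk⟩ := bk5
  obtain ⟨κ₄, g₀, hwb⟩ := Pool.Agent.Y913.Nb.WB_dep 4
  obtain ⟨a, ha⟩ : ∃ a, a = C + 6 * κ + 3 := ⟨_, rfl⟩
  obtain ⟨S₁, hS₁⟩ : ∃ S₁ : ℕ → ℕ, S₁ = fun s => (3 * a + 16) * s ^ 3 := ⟨_, rfl⟩
  obtain ⟨T, hT⟩ : ∃ T : ℕ → ℕ, T = fun s => C₅ * S₁ s ^ κ₅ + 2 := ⟨_, rfl⟩
  obtain ⟨g, hg⟩ : ∃ g : ℕ → ℕ, g = fun s => (a + 5) * s + g₀ := ⟨_, rfl⟩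
  obtain ⟨T₁, hT₁⟩ : ∃ T₁ : ℕ → ℕ, T₁ = fun s => g s ^ κ₄ := ⟨_, rfl⟩
  obtain ⟨E, hE⟩ : ∃ E : ℕ → ℕ, E = fun s => (s + 1) * T s + 2 * s + 2 := ⟨_, rfl⟩
  obtain ⟨S₂, hS₂⟩ : ∃ S₂ : ℕ → ℕ, S₂ = fun s => s * E s + 1 + s + S₁ s := ⟨_, rfl⟩
  obtain ⟨T₂, hT₂⟩ : ∃ T₂ : ℕ → ℕ, T₂ = fun s => C₅ * S₂ s ^ κ₅ + 2 := ⟨_, rfl⟩
  obtain ⟨Q, hQ⟩ : ∃ Q : ℕ → ℕ, Q = fun s => S₂ s + E s + 7 := ⟨_, rfl⟩
  obtain ⟨R, hR⟩ : ∃ R : ℕ → ℕ, R = fun s => s * Q s * (1 + Q s + s) + 2 := ⟨_, rfl⟩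
  have pS₁ : PB S₁ := by
    rw [hS₁]
    exact (PB.const _).mul (PB.id.pow 3)
  have pT : PB T := by
    rw [hT]
    exact ((PB.const _).mul (pS₁.pow κ₅)).add (PB.const 2)
  have pg : PB g := by
    rw [hg]
    exact ((PB.const _).mul PB.id).add (PB.const _)
  have pT₁ : PB T₁ := by
    rw [hT₁]
    exact pg.pow κ₄
  have pE : PB E := by
    rw [hE]
    exact (((PB.id.add (PB.const 1)).mul pT).add ((PB.const 2).mul PB.id)).add (PB.const 2)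
  have pS₂ : PB S₂ := by
    rw [hS₂]
    exact (((PB.id.mul pE).add (PB.const 1)).add PB.id).add pS₁
  have pT₂ : PB T₂ := by
    rw [hT₂]
    exact ((PB.const _).mul (pS₂.pow κ₅)).add (PB.const 2)
  have pQ : PB Q := by
    rw [hQ]
    exact (pS₂.add pE).add (PB.const 7)
  have pR : PB R := by
    rw [hR]
    exact ((PB.id.mul pQ).mul (((PB.const 1).add pQ).add PB.id)).add (PB.const 2)
  obtain ⟨K₀, s₀, hK₀, hs₀, hreq⟩ := ((((((PB.const 2).mul PB.id).add ((PB.const 5).mul pS₁)).add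
    pT).add (PB.const 10)).add (((((PB.const 2).mul pS₁).add pT₁).add (PB.const 10)).add
    (pT₂.add pR))).le_pow
  refine ⟨K₀, s₀, hK₀, hs₀, fun s n hs hsn hns ℓ u F G H hfam p q r e₁ e₂ e₃ hsol hyp hdF => ?_⟩
  have hreq' := (hreq s hs).trans hsn
  have hs1 : 1 ≤ s := by omega
  obtain ⟨p', q', r', hsol', hyp', hx1, hy1, hz1⟩ := normalise hsol hyp
  obtain ⟨v, u', hu', hlu'⟩ := dec hfam.prime hfam.u0
  have hvs := T44.FC.val_le hfam.prime hu' hfam.u0 hfam.uS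
  have hw : (ℓ : ℤ) ^ n * u = (ℓ : ℤ) ^ (n + v) * u' := by
    rw [hu', pow_add]
    ring
  obtain ⟨S', hS'⟩ : ∃ S', S' = (s * n + s) * (s + 1) + 2 * s := ⟨_, rfl⟩
  have b1 := hfam.val_le (n := n)
  have b2 := hfam.rot.val_le (n := n)
  have b3 := hfam.rot.rot.val_le (n := n)
  rw [← hS'] at b1 b2 b3
  obtain ⟨k1, k2, k3⟩ := hexps S' (by omega) _ _ _ _ _ _ _ _ _ hsol' b1 b2 b3
  obtain ⟨M, hM⟩ : ∃ M, M = C * S' ^ κ + 7 := ⟨_, rfl⟩
  have hMle : M ≤ 2 ^ (a * s) := by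
    rw [hM, hS', ha]
    exact num_M hs1 hns
  have cM : ∀ {x k : ℕ}, 0 < x → (2 ≤ x → k ≤ C * S' ^ κ) → (x = 1 → k = 7) → k ≤ M := by
    intro x k hx h1 h2
    rcases Nat.lt_or_ge x 2 with h3 | h3
    · have := h2 (by omega)
      omega
    · have := h1 h3
      omega
  have hpM := cM hsol'.x0 k1 hx1
  have hqM := cM hsol'.y0 k2 hy1
  have hrM := cM hsol'.z0 k3 hz1
  obtain ⟨a₁, ha₁, h1⟩ := sign_key e₁ (F.eval ((ℓ : ℤ) ^ n * u)) p' hsol'.s1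
  obtain ⟨a₂, ha₂, h2⟩ := sign_key e₂ (G.eval ((ℓ : ℤ) ^ n * u)) q' hsol'.s2
  obtain ⟨a₃, ha₃, h3⟩ := sign_key e₃ (H.eval ((ℓ : ℤ) ^ n * u)) r' hsol'.s3
  have heq := hsol'.eq
  rw [h1, h2, h3] at heq
  have hℓ := Nat.prime_iff_prime_int.1 hfam.prime
  have nd : ∀ {x y : ℤ}, x.natAbs.Coprime y.natAbs → (ℓ : ℤ) ∣ x → ¬ (ℓ : ℤ) ∣ y := by
    intro x y hxy hx hy
    have h4 := (Int.isCoprime_iff_gcd_eq_one.2 hxy).isUnit_of_dvd' hx hy
    exact hℓ.not_isUnit h4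
  have hlG := nd hsol'.xy hdF
  have hlH := nd hsol'.xz hdF
  have hGne : G ≠ 0 := by
    rintro rfl
    simp at hlG
  have hWn : 2 ^ n ≤ ((ℓ : ℤ) ^ n * u).natAbs := by
    rw [Int.natAbs_mul, Int.natAbs_pow, Int.natAbs_natCast]
    calc 2 ^ n ≤ ℓ ^ n := Nat.pow_le_pow_left hfam.prime.two_le _
      _ = ℓ ^ n * 1 := by ring
      _ ≤ _ := Nat.mul_le_mul_left _ (Int.natAbs_pos.2 hfam.u0)
  have hcop : IsCoprime (toQ G) (toQ H) := by
    refine coprime_abs hGne hfam.GB ?_ (Int.isCoprime_iff_gcd_eq_one.2 hsol'.yz)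
    refine le_trans ?_ hWn
    calc 2 ^ s + 3 ≤ 2 ^ s * 2 ^ 2 := by
          have : 1 ≤ 2 ^ s := Nat.one_le_two_pow
          omega
      _ = 2 ^ (s + 2) := by rw [← pow_add]
      _ ≤ _ := Nat.pow_le_pow_right (by norm_num) (by omega)
  have hdat : Dat ℓ (n + v) s M u' F G H p' q' r' a₁ a₂ a₃ :=
    { prime := hfam.prime
      lS := hfam.lS
      hu := hlu'
      uS := (natAbs_le_of_dec hfam.prime hu').trans hfam.uS
      FD := hfam.FD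
      GD := hfam.GD
      HD := hfam.HD
      FB := hfam.FB
      GB := hfam.GB
      HB := hfam.HB
      cop := hcop
      p2 := hsol'.p2
      q2 := hsol'.q2
      r2 := hsol'.r2
      pM := hpM
      qM := hqM
      rM := hrM
      hyp := hyp'.le
      s1 := ha₁
      s2 := ha₂
      s3 := ha₃
      eq := by rw [← hw]; exact heq
      F0 := by
        rw [← hw]
        intro h0
        have := hsol'.x0
        rw [h0] at this
        simp at this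
      lF := by rw [← hw]; exact hdF
      lG := by rw [← hw]; exact hlG
      lH := by rw [← hw]; exact hlH }
  have hM1 : 1 ≤ M := by omega
  have nE := num_E hs1 hMle
  have hSle : s ≤ S₁ s := by
    rw [hS₁]
    calc s = 1 * s ^ 1 := by ring
      _ ≤ (3 * a + 16) * s ^ 3 := Nat.mul_le_mul (by omega) (Nat.pow_le_pow_right hs1 (by norm_num))
  have hS₂' : S₂ s = s * E s + 1 + s + S₁ s := by rw [hS₂]
  have hE' : E s = (s + 1) * T s + 2 * s + 2 := by rw [hE]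
  have hT' : T s = C₅ * S₁ s ^ κ₅ + 2 := by rw [hT]
  have hT₂' : T₂ s = C₅ * S₂ s ^ κ₅ + 2 := by rw [hT₂]
  have hQ' : Q s = S₂ s + E s + 7 := by rw [hQ]
  have hR' : R s = s * Q s * (1 + Q s + s) + 2 := by rw [hR]
  have hg' : g s = (a + 5) * s + g₀ := by rw [hg]
  have hBK : BK ℓ (S₁ s) (T s) := by
    rw [hT']
    exact bk_of (fun a m n T => hbk ℓ (S₁ s) hfam.prime (hfam.lS.trans hSle) a m n T)
  have hBK₂ : BK ℓ (S₂ s) (T₂ s) := by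
    rw [hT₂']
    exact bk_of (fun a m n T => hbk ℓ (S₂ s) hfam.prime (hfam.lS.trans (by omega)) a m n T)
  have hWB : WBc (g s) (T₁ s) := by
    intro x b h1 h2 h3
    rw [hT₁]
    exact hwb (g s) (by omega) x b h1 h2 h3
  have hgs : M * s * (n + v) + M * s ≤ 2 ^ g s := by
    have h4 : s ≤ 2 ^ s := Nat.lt_two_pow_self.le
    have h5 : n + v + 1 ≤ 2 ^ (3 * s) := by
      have h6 : 2 ^ (3 * s) = 2 ^ s * 2 ^ (2 * s) := by rw [← pow_add]; ring_nf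
      have h7 : 4 ≤ 2 ^ (2 * s) := by
        calc 4 = 2 ^ 2 := by norm_num
          _ ≤ _ := Nat.pow_le_pow_right (by norm_num) (by omega)
      have h8 : 1 ≤ 2 ^ s := Nat.one_le_two_pow
      rw [h6]
      nlinarith
    calc M * s * (n + v) + M * s = M * s * (n + v + 1) := by ring
      _ ≤ 2 ^ (a * s) * 2 ^ s * 2 ^ (3 * s) := Nat.mul_le_mul (Nat.mul_le_mul hMle h4) h5
      _ = 2 ^ (a * s + s + 3 * s) := by rw [← pow_add, ← pow_add]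
      _ ≤ _ := by
        apply Nat.pow_le_pow_right (by norm_num)
        rw [hg']
        have : (a + 5) * s = a * s + 5 * s := by ring
        omega
  refine main_dat hdat hfam.nc2 (fun h0 => ?_) (fun h0 => ?_) (S₁ := S₁ s) (T := T s) (g := g s)
    (T₁ := T₁ s) (E := E s) (S₂ := S₂ s) (T₂ := T₂ s) (by rw [hS₁]; exact nE)
    (num_exp hs1 hM1 (by rw [hS₁]; exact nE)) hBK (by omega) (by omega) hWB ?_ hgs (by omega) hE' hS₂'
    hBK₂ (by omega) ?_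
  · rw [← hw] at h0
    exact (hy1 h0).le
  · rw [← hw] at h0
    exact (hz1 h0).le
  · rw [hg']
    have : (a + 5) * s = a * s + 5 * s := by ring
    omega
  · rw [← hQ', ← hR']
    omega

/-- the values are bounded -/
theorem divisible : ∃ K V : ℕ, ∀ (S n ℓ : ℕ) (u : ℤ) (F G H : ℤ[X]), Fam S ℓ u F G H → S ^ K ≤ n →
    ∀ (p q r : ℕ) (e₁ e₂ e₃ : ℤ),
    SSol (F.eval ((ℓ : ℤ) ^ n * u)).natAbs (G.eval ((ℓ : ℤ) ^ n * u)).natAbs
      (H.eval ((ℓ : ℤ) ^ n * u)).natAbs p q r e₁ e₂ e₃ → Hyp p q r →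
    ((ℓ : ℤ) ∣ F.eval ((ℓ : ℤ) ^ n * u) ∨ (ℓ : ℤ) ∣ G.eval ((ℓ : ℤ) ^ n * u) ∨
      (ℓ : ℤ) ∣ H.eval ((ℓ : ℤ) ^ n * u)) →
    (F.eval ((ℓ : ℤ) ^ n * u)).natAbs ^ p ≤ V ∧ (G.eval ((ℓ : ℤ) ^ n * u)).natAbs ^ q ≤ V ∧
      (H.eval ((ℓ : ℤ) ^ n * u)).natAbs ^ r ≤ V := by
  obtain ⟨K₀, s₀, hK₀, hs₀, hmain⟩ := no_solution
  obtain ⟨n₀, hn₀⟩ := log_pow_le K₀
  obtain ⟨N, hN⟩ : ∃ N, N = n₀ + 2 ^ s₀ := ⟨_, rfl⟩
  obtain ⟨V, hV⟩ := vals_fin (2 ^ ((N * N + N) * (N + 1) + 2 * N))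
  refine ⟨2 * K₀, V, fun S n ℓ u F G H hfam hSn p q r e₁ e₂ e₃ hsol hyp hdv => ?_⟩
  have hS2 : 2 ≤ S := hfam.prime.two_le.trans hfam.lS
  rcases Nat.lt_or_ge n N with hn | hn
  · have hSN : S ≤ N := by
      calc S ≤ S ^ (2 * K₀) := Nat.le_self_pow (by omega) _
        _ ≤ N := by omega
    have hle : 2 ^ ((S * n + S) * (S + 1) + 2 * S) ≤ 2 ^ ((N * N + N) * (N + 1) + 2 * N) := by
      apply Nat.pow_le_pow_right (by norm_num)
      gcongr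
    exact hV _ _ _ _ _ _ _ _ _ hsol (hfam.val_le.trans hle) (hfam.rot.val_le.trans hle)
      (hfam.rot.rot.val_le.trans hle)
  · exfalso
    obtain ⟨L, hL⟩ : ∃ L, L = Nat.log 2 n + 1 := ⟨_, rfl⟩
    have hs₀p : 0 < 2 ^ s₀ := by positivity
    have hs₀n : 2 ^ s₀ ≤ n := by omega
    have hLs : s₀ ≤ L := by
      have := Nat.log_mono_right (b := 2) hs₀n
      rw [Nat.log_pow (by norm_num)] at this
      omega
    have hpow : (S + L) ^ K₀ ≤ n := by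
      rcases Nat.lt_or_ge S L with h1 | h1
      · refine le_trans ?_ (hn₀ n (by omega))
        rw [← hL]
        exact Nat.pow_le_pow_left (by omega) _
      · refine le_trans ?_ hSn
        rw [pow_mul]
        apply Nat.pow_le_pow_left
        nlinarith
    have hn2 : n ≤ 2 ^ (S + L) := by
      have h1 : n < 2 ^ L := by
        rw [hL]
        exact Nat.lt_pow_succ_log_self (by norm_num) n
      exact h1.le.trans (Nat.pow_le_pow_right (by norm_num) (by omega))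
    have hfam' := hfam.mono (show S ≤ S + L by omega)
    have hh := hmain (S + L) n (by omega) hpow hn2 ℓ u
    rcases hdv with h1 | h1 | h1
    · exact hh F G H hfam' p q r e₁ e₂ e₃ hsol hyp h1
    · exact hh G H F hfam'.rot q r p e₂ e₃ e₁ hsol.rot (by unfold Hyp at hyp ⊢; nlinarith) h1
    · exact hh H F G hfam'.rot.rot r p q e₃ e₁ e₂ hsol.rot.rot (by unfold Hyp at hyp ⊢; nlinarith) h1

end Pool.Agent.T44.FC
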